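import Pool.Agent.Y161.Cx.Asymp

/-!
The asymptotic extremal product of `t`-cross-avoiding pairs is attained by threshold pairs.
-/

set_option autoImplicit false

namespace Pool.Agent.Y161.Cx

open Function Finset Filter Topology

/-- all `t`-cross-avoiding pairs -/
def pairs (r t n : ℕ) : Finset (Finset (Finset ℕ) × Finset (Finset ℕ)) :=
  ((((range n).powersetCard r).powerset ×ˢ ((range n).powersetCard r).powerset).filter
    (fun P : Finset (Finset ℕ) × Finset (Finset ℕ) =>
      ∀ A ∈ P.1, ∀ B ∈ P.2, (A ∩ B).card ≠ t))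

lemma mem_pairs {r t n : ℕ} {P : Finset (Finset ℕ) × Finset (Finset ℕ)} :
    P ∈ pairs r t n ↔ (P.1 ⊆ (range n).powersetCard r ∧ P.2 ⊆ (range n).powersetCard r) ∧
      ∀ A ∈ P.1, ∀ B ∈ P.2, (A ∩ B).card ≠ t := by
  unfold pairs
  rw [Finset.mem_filter, Finset.mem_product, Finset.mem_powerset, Finset.mem_powerset]

lemma sup_bound {n r t : ℕ} (hn : 0 < n) (htr : t < r) {V : ℝ} (hV : Bnd (r - t + 1) r V) :
    (((pairs r t n).sup (fun P => P.1.card * P.2.card) : ℕ) : ℝ)
      ≤ V / (r.factorial : ℝ) ^ 2 * (n : ℝ) ^ (2 * r) + r * (n : ℝ) ^ (2 * r - 1) := by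
  have hne : (pairs r t n).Nonempty := by
    refine ⟨(∅, ∅), ?_⟩
    rw [mem_pairs]
    exact ⟨⟨Finset.empty_subset _, Finset.empty_subset _⟩,
      fun A hA => absurd hA (Finset.notMem_empty A)⟩
  obtain ⟨P, hP, hPe⟩ := Finset.exists_mem_eq_sup (pairs r t n) hne
    (fun P => P.1.card * P.2.card)
  rw [hPe]
  rw [mem_pairs] at hP
  push_cast
  exact avoid_bound hn htr hV hP.1.1 hP.1.2 hP.2

theorem main (r t : ℕ) (ht : 0 < t) (htr : t < r) :
    ∃ a b : ℕ, ∃ X : ℕ → Finset ℕ,
      (∀ n, X n ⊆ Finset.range n) ∧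
      (∀ᶠ n in Filter.atTop,
        ∀ A ∈ ((Finset.range n).powersetCard r).filter (fun A => a ≤ (A ∩ X n).card),
        ∀ B ∈ ((Finset.range n).powersetCard r).filter
            (fun B => b ≤ (B ∩ (Finset.range n \ X n)).card),
          (A ∩ B).card ≠ t) ∧
      Filter.Tendsto
        (fun n : ℕ =>
          (((pairs r t n).sup (fun P => P.1.card * P.2.card) : ℕ) : ℝ) /
          (((((Finset.range n).powersetCard r).filter
                (fun A => a ≤ (A ∩ X n).card)).card : ℝ) *
           ((((Finset.range n).powersetCard r).filter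
                (fun B => b ≤ (B ∩ (Finset.range n \ X n)).card)).card : ℝ)))
        Filter.atTop (nhds 1) := by
  classical
  obtain ⟨k, l, p, hopt⟩ := exists_opt (r - t + 1) (by omega) r (by omega)
  have hkl := hopt.hkl
  have hkr := hopt.hkr
  have hp0 := hopt.hp0
  have hp1 := hopt.hp1
  set V := mu (fun _ => p) (Th r k) * mu (fun _ => p) (Tl r l) with hV
  have hVpos : 0 < V := V_pos (by omega) hopt.bnd
  set X : ℕ → Finset ℕ := fun n => range ⌊p * n⌋₊ with hXdef
  have hfl : ∀ n : ℕ, ⌊p * n⌋₊ ≤ n := by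
    intro n
    have h1 : p * (n : ℝ) ≤ n := by
      have : (0 : ℝ) ≤ n := Nat.cast_nonneg n
      nlinarith
    exact Nat.floor_le_of_le h1
  have hX : ∀ n, X n ⊆ range n := by
    intro n
    exact Finset.range_subset_range.mpr (hfl n)
  have hXp : Tendsto (fun n : ℕ => ((X n).card : ℝ) / n) atTop (𝓝 p) := by
    have h1 : Tendsto (fun n : ℕ => p - 1 / (n : ℝ)) atTop (𝓝 (p - 0)) :=
      tendsto_const_nhds.sub tendsto_one_div_atTop_nhds_zero_nat
    rw [sub_zero] at h1
    refine tendsto_of_tendsto_of_tendsto_of_le_of_le' h1 tendsto_const_nhds ?_ ?_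
    · filter_upwards [eventually_gt_atTop 0] with n hn
      have hn' : (0 : ℝ) < n := by exact_mod_cast hn
      rw [hXdef]
      simp only [Finset.card_range]
      rw [le_div_iff₀ hn', sub_mul, one_div_mul_cancel hn'.ne']
      have := Nat.lt_floor_add_one (p * (n : ℝ))
      linarith
    · filter_upwards [eventually_gt_atTop 0] with n hn
      have hn' : (0 : ℝ) < n := by exact_mod_cast hn
      rw [hXdef]
      simp only [Finset.card_range]
      rw [div_le_iff₀ hn']
      exact Nat.floor_le (by positivity)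
  -- the threshold pair avoids `t`
  have havoid : ∀ n,
        ∀ A ∈ ((Finset.range n).powersetCard r).filter (fun A => k ≤ (A ∩ X n).card),
        ∀ B ∈ ((Finset.range n).powersetCard r).filter
            (fun B => r - l ≤ (B ∩ (Finset.range n \ X n)).card),
          (A ∩ B).card ≠ t := by
    intro n A hA B hB
    rw [Finset.mem_filter, Finset.mem_powersetCard] at hA hB
    obtain ⟨⟨hA1, hA2⟩, hA3⟩ := hA
    obtain ⟨⟨hB1, hB2⟩, hB3⟩ := hB
    have h1 : (A ∩ B).card ≤ (A \ X n).card + (B ∩ X n).card := by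
      have hsub : A ∩ B ⊆ (A \ X n) ∪ (B ∩ X n) := by
        intro a ha
        rw [Finset.mem_inter] at ha
        rw [Finset.mem_union, Finset.mem_sdiff, Finset.mem_inter]
        by_cases h : a ∈ X n
        · exact Or.inr ⟨ha.2, h⟩
        · exact Or.inl ⟨ha.1, h⟩
      exact (Finset.card_le_card hsub).trans (Finset.card_union_le _ _)
    have h2 := Finset.card_inter_add_card_sdiff A (X n)
    have h3 : B ∩ (range n \ X n) = B \ X n := by
      ext a
      rw [Finset.mem_inter, Finset.mem_sdiff, Finset.mem_sdiff]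
      constructor
      · rintro ⟨h, _, h'⟩; exact ⟨h, h'⟩
      · rintro ⟨h, h'⟩; exact ⟨h, hB1 h, h'⟩
    have h4 := Finset.card_inter_add_card_sdiff B (X n)
    rw [h3] at hB3
    omega
  refine ⟨k, r - l, X, hX, Eventually.of_forall havoid, ?_⟩
  -- sizes
  have hlr : l ≤ r := by omega
  have hA : Tendsto (fun n : ℕ => (G r k n (X n) : ℝ) / (n : ℝ) ^ r) atTop
      (𝓝 (T r k p / r.factorial)) := tendsto_G hX hXp _ k rfl
  have hB : Tendsto (fun n : ℕ => ((((Finset.range n).powersetCard r).filter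
      (fun B => r - l ≤ (B ∩ (Finset.range n \ X n)).card)).card : ℝ) / (n : ℝ) ^ r) atTop
      (𝓝 ((1 - T r (l + 1) p) / r.factorial)) := by
    have h0 := tendsto_G (r := r) hX hXp _ 0 rfl
    have h1 := tendsto_G (r := r) hX hXp _ (l + 1) rfl
    have h2 := h0.sub h1
    rw [T_zero, ← sub_div] at h2
    refine h2.congr ?_
    intro n
    rw [card_lower hlr, sub_div]
  set F : ℕ → ℝ := fun n => ((((Finset.range n).powersetCard r).filter
                (fun A => k ≤ (A ∩ X n).card)).card : ℝ) *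
           ((((Finset.range n).powersetCard r).filter
                (fun B => r - l ≤ (B ∩ (Finset.range n \ X n)).card)).card : ℝ) with hF
  have hVeq : V = T r k p * (1 - T r (l + 1) p) := by
    rw [hV, mu_Tl]
    rfl
  have hFlim : Tendsto (fun n : ℕ => F n / (n : ℝ) ^ (2 * r)) atTop
      (𝓝 (V / (r.factorial : ℝ) ^ 2)) := by
    have h := hA.mul hB
    rw [div_mul_div_comm, ← hVeq, ← sq] at h
    refine h.congr ?_
    intro n
    rw [div_mul_div_comm, ← pow_add, ← two_mul]
    rfl
  set c : ℝ := V / (r.factorial : ℝ) ^ 2 with hc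
  have hcpos : 0 < c := by positivity
  have hup : Tendsto (fun n : ℕ => (c + (r : ℝ) / n) / (F n / (n : ℝ) ^ (2 * r))) atTop
      (𝓝 1) := by
    have h1 : Tendsto (fun n : ℕ => c + (r : ℝ) / n) atTop (𝓝 (c + 0)) :=
      tendsto_const_nhds.add (tendsto_const_div_atTop_nhds_zero_nat (r : ℝ))
    rw [add_zero] at h1
    have h2 := h1.div hFlim hcpos.ne'
    rwa [div_self hcpos.ne'] at h2
  have hFpos : ∀ᶠ n in atTop, 0 < F n / (n : ℝ) ^ (2 * r) :=
    hFlim.eventually (lt_mem_nhds hcpos)
  refine tendsto_of_tendsto_of_tendsto_of_le_of_le' tendsto_const_nhds hup ?_ ?_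
  · filter_upwards [hFpos, eventually_gt_atTop 0] with n hFn hn
    have hn' : (0 : ℝ) < n := by exact_mod_cast hn
    have hFn' : 0 < F n := by
      have := mul_pos hFn (pow_pos hn' (2 * r))
      rwa [div_mul_cancel₀ _ (pow_pos hn' (2 * r)).ne'] at this
    show 1 ≤ (((pairs r t n).sup (fun P => P.1.card * P.2.card) : ℕ) : ℝ) / F n
    rw [le_div_iff₀ hFn', one_mul, hF]
    have hmem : (((Finset.range n).powersetCard r).filter (fun A => k ≤ (A ∩ X n).card),
        ((Finset.range n).powersetCard r).filter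
            (fun B => r - l ≤ (B ∩ (Finset.range n \ X n)).card)) ∈ pairs r t n := by
      rw [mem_pairs]
      exact ⟨⟨Finset.filter_subset _ _, Finset.filter_subset _ _⟩, havoid n⟩
    have hle := Finset.le_sup (f := fun P : Finset (Finset ℕ) × Finset (Finset ℕ) =>
      P.1.card * P.2.card) hmem
    simp only at hle ⊢
    exact_mod_cast hle
  · filter_upwards [hFpos, eventually_gt_atTop 0] with n hFn hn
    have hn' : (0 : ℝ) < n := by exact_mod_cast hn
    have hnp : (0 : ℝ) < (n : ℝ) ^ (2 * r) := pow_pos hn' _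
    have hFn' : 0 < F n := by
      have := mul_pos hFn hnp
      rwa [div_mul_cancel₀ _ hnp.ne'] at this
    show (((pairs r t n).sup (fun P => P.1.card * P.2.card) : ℕ) : ℝ) / F n
      ≤ (c + (r : ℝ) / n) / (F n / (n : ℝ) ^ (2 * r))
    have hsb := sup_bound (t := t) hn htr hopt.bnd
    have e : (c + (r : ℝ) / n) / (F n / (n : ℝ) ^ (2 * r))
        = (c * (n : ℝ) ^ (2 * r) + r * (n : ℝ) ^ (2 * r - 1)) / F n := by
      have e1 : (n : ℝ) ^ (2 * r) = (n : ℝ) ^ (2 * r - 1) * n := by
        rw [← pow_succ]; congr 1; omega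
      rw [div_div_eq_mul_div]
      congr 1
      rw [e1]
      field_simp
    rw [e]
    exact div_le_div_of_nonneg_right hsb hFn'.le

end Pool.Agent.Y161.Cx
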