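import Pool.Agent.Y161.Cx.Growth

/-!
The optimum over monotone pairs of the cube is attained by thresholds with uniform weights.
-/

set_option autoImplicit false

namespace Pool.Agent.Y161.Cx

open Function Finset

lemma sum_split_two {ι M : Type} [Fintype ι] [DecidableEq ι] [AddCommMonoid M] {i j : ι}
    (hij : i ≠ j) (F : ι → M) :
    ∑ k, F k = F i + (F j + ∑ k ∈ (univ.erase i).erase j, F k) := by
  rw [Finset.add_sum_erase (univ.erase i) F (by simp [hij.symm]),
    Finset.add_sum_erase univ F (mem_univ i)]

lemma bool_or_mono : ∀ a b c d : Bool, a ≤ b → c ≤ d → (a || c) ≤ (b || d) := by decide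

lemma bool_and_mono : ∀ a b c d : Bool, a ≤ b → c ≤ d → (a && c) ≤ (b && d) := by decide

/-- comparator. -/
def comp {r : ℕ} (i j : Fin r) (x : Fin r → Bool) : Fin r → Bool :=
  update (update x i (x i || x j)) j (x i && x j)

section comp

variable {r : ℕ} {i j : Fin r}

lemma comp_left (hij : i ≠ j) (x : Fin r → Bool) : comp i j x i = (x i || x j) := by
  unfold comp; rw [update_of_ne hij, update_self]

lemma comp_right (x : Fin r → Bool) : comp i j x j = (x i && x j) := by
  unfold comp; rw [update_self]

lemma comp_other {k : Fin r} (hi : k ≠ i) (hj : k ≠ j) (x : Fin r → Bool) :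
    comp i j x k = x k := by
  unfold comp; rw [update_of_ne hj, update_of_ne hi]

lemma comp_mono (hij : i ≠ j) {x y : Fin r → Bool} (h : x ≤ y) : comp i j x ≤ comp i j y := by
  intro k
  by_cases hi : k = i
  · subst hi
    rw [comp_left hij, comp_left hij]
    exact bool_or_mono _ _ _ _ (h k) (h j)
  · by_cases hj : k = j
    · subst hj
      rw [comp_right, comp_right]
      exact bool_and_mono _ _ _ _ (h i) (h k)
    · rw [comp_other hi hj, comp_other hi hj]
      exact h k

lemma comp_hd (hij : i ≠ j) (x y : Fin r → Bool) : hd (comp i j x) (comp i j y) ≤ hd x y := by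
  unfold hd
  rw [sum_split_two hij, sum_split_two hij]
  have hrest : ∑ k ∈ (univ.erase i).erase j, (if comp i j x k = comp i j y k then 0 else 1)
      = ∑ k ∈ (univ.erase i).erase j, (if x k = y k then 0 else 1) := by
    apply Finset.sum_congr rfl
    intro k hk
    have hj : k ≠ j := Finset.ne_of_mem_erase hk
    have hi : k ≠ i := Finset.ne_of_mem_erase (Finset.mem_of_mem_erase hk)
    rw [comp_other hi hj, comp_other hi hj]
  rw [hrest, ← add_assoc, ← add_assoc]
  apply Nat.add_le_add_right
  rw [comp_left hij, comp_left hij, comp_right, comp_right]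
  cases x i <;> cases y i <;> cases x j <;> cases y j <;> decide

lemma comp_cnt (hij : i ≠ j) (x : Fin r → Bool) : cnt (comp i j x) = cnt x := by
  unfold cnt
  rw [sum_split_two hij, sum_split_two hij (fun k => (x k).toNat)]
  have hrest : ∑ k ∈ (univ.erase i).erase j, (comp i j x k).toNat
      = ∑ k ∈ (univ.erase i).erase j, (x k).toNat := by
    apply Finset.sum_congr rfl
    intro k hk
    have hj : k ≠ j := Finset.ne_of_mem_erase hk
    have hi : k ≠ i := Finset.ne_of_mem_erase (Finset.mem_of_mem_erase hk)
    rw [comp_other hi hj]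
  rw [hrest, ← add_assoc, ← add_assoc]
  congr 1
  rw [comp_left hij, comp_right]
  cases x i <;> cases x j <;> decide

/-- position weight -/
def pw (x : Fin r → Bool) : ℕ := ∑ k, if x k then k.val else 0

lemma comp_pw_le (hij : i < j) (x : Fin r → Bool) : pw (comp i j x) ≤ pw x := by
  unfold pw
  rw [sum_split_two hij.ne, sum_split_two hij.ne (fun k => if x k then k.val else 0)]
  have hrest : ∑ k ∈ (univ.erase i).erase j, (if comp i j x k then k.val else 0)
      = ∑ k ∈ (univ.erase i).erase j, (if x k then k.val else 0) := by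
    apply Finset.sum_congr rfl
    intro k hk
    have hj : k ≠ j := Finset.ne_of_mem_erase hk
    have hi : k ≠ i := Finset.ne_of_mem_erase (Finset.mem_of_mem_erase hk)
    rw [comp_other hi hj]
  rw [hrest, ← add_assoc, ← add_assoc]
  apply Nat.add_le_add_right
  rw [comp_left hij.ne, comp_right]
  have : i.val < j.val := hij
  cases x i <;> cases x j <;> simp <;> omega

lemma comp_pw_lt (hij : i < j) (x : Fin r → Bool) (h1 : x i = false) (h2 : x j = true) :
    pw (comp i j x) < pw x := by
  unfold pw
  rw [sum_split_two hij.ne, sum_split_two hij.ne (fun k => if x k then k.val else 0)]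
  have hrest : ∑ k ∈ (univ.erase i).erase j, (if comp i j x k then k.val else 0)
      = ∑ k ∈ (univ.erase i).erase j, (if x k then k.val else 0) := by
    apply Finset.sum_congr rfl
    intro k hk
    have hj : k ≠ j := Finset.ne_of_mem_erase hk
    have hi : k ≠ i := Finset.ne_of_mem_erase (Finset.mem_of_mem_erase hk)
    rw [comp_other hi hj]
  rw [hrest, ← add_assoc, ← add_assoc]
  apply Nat.add_lt_add_right
  rw [comp_left hij.ne, comp_right, h1, h2]
  have : i.val < j.val := hij
  simp only [Bool.or_true, Bool.and_true, if_true, Bool.false_eq_true, if_false]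
  omega

lemma isPair_comp (hij : i ≠ j) {s : ℕ} {A B : Set (Fin r → Bool)} (h : IsPair s A B) :
    IsPair s (comp i j ⁻¹' A) (comp i j ⁻¹' B) where
  up := by
    intro x hx y hxy
    exact h.up _ hx _ (comp_mono hij hxy)
  down := by
    intro x hx y hxy
    exact h.down _ hx _ (comp_mono hij hxy)
  far := by
    intro x hx y hy
    exact le_trans (h.far _ hx _ hy) (comp_hd hij x y)

lemma sec_comp (hij : i ≠ j) (a b : Bool) (A : Set (Fin r → Bool)) :
    sec i j a b (comp i j ⁻¹' A) = sec i j (a || b) (a && b) A := by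
  ext x
  show comp i j (update (update x i a) j b) ∈ A ↔ update (update x i (a || b)) j (a && b) ∈ A
  have : comp i j (update (update x i a) j b) = update (update x i (a || b)) j (a && b) := by
    funext k
    by_cases hj : k = j
    · subst hj
      rw [comp_right, update_self, update_self, update_of_ne hij, update_self]
    · by_cases hi : k = i
      · subst hi
        rw [comp_left hij, update_self, update_of_ne hij, update_self, update_of_ne hij,
          update_self]
      · rw [comp_other hi hj, update_of_ne hj, update_of_ne hi, update_of_ne hj, update_of_ne hi]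
  rw [this]

lemma sec_comp' (hij : i ≠ j) (a b : Bool) (A : Set (Fin r → Bool)) :
    sec i j a b (comp j i ⁻¹' A) = sec i j (b && a) (b || a) A := by
  ext x
  show comp j i (update (update x i a) j b) ∈ A ↔ update (update x i (b && a)) j (b || a) ∈ A
  have : comp j i (update (update x i a) j b) = update (update x i (b && a)) j (b || a) := by
    funext k
    by_cases hj : k = j
    · subst hj
      rw [comp_left hij.symm, update_self, update_self, update_of_ne hij, update_self]
    · by_cases hi : k = i
      · subst hi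
        rw [comp_right, update_self, update_of_ne hij, update_self, update_of_ne hij,
          update_self]
      · rw [comp_other hj hi, update_of_ne hj, update_of_ne hi, update_of_ne hj, update_of_ne hi]
  rw [this]

end comp

/-- every product with a boundary weight is below `V`. -/
def BndStrict (s r : ℕ) (V : ℝ) : Prop :=
  ∀ (A B : Set (Fin r → Bool)) (w : Fin r → ℝ), IsPair s A B → (∀ i, 0 ≤ w i) → (∀ i, w i ≤ 1) →
    (∃ i, w i = 0 ∨ w i = 1) → mu w A * mu w B < V

section step

variable {r s : ℕ} {V : ℝ}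

lemma update_update_mem {w : Fin r → ℝ} (h0 : ∀ i, 0 ≤ w i) (h1 : ∀ i, w i ≤ 1) (i j : Fin r)
    {p q : ℝ} (a1 : 0 ≤ p) (a2 : p ≤ 1) (a3 : 0 ≤ q) (a4 : q ≤ 1) :
    (∀ k, 0 ≤ update (update w i p) j q k) ∧ (∀ k, update (update w i p) j q k ≤ 1) := by
  constructor
  · intro k
    by_cases hj : k = j
    · subst hj; simpa using a3
    · rw [update_of_ne hj]
      by_cases hi : k = i
      · subst hi; simpa using a1
      · rw [update_of_ne hi]; exact h0 k
  · intro k
    by_cases hj : k = j
    · subst hj; simpa using a4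
    · rw [update_of_ne hj]
      by_cases hi : k = i
      · subst hi; simpa using a2
      · rw [update_of_ne hi]; exact h1 k

lemma update_update_bd (w : Fin r → ℝ) {i j : Fin r} (hij : i ≠ j) {p q : ℝ}
    (h : p = 0 ∨ p = 1 ∨ q = 0 ∨ q = 1) :
    ∃ k, update (update w i p) j q k = 0 ∨ update (update w i p) j q k = 1 := by
  rcases h with h | h | h | h
  · exact ⟨i, Or.inl (by rw [update_of_ne hij, update_self, h])⟩
  · exact ⟨i, Or.inr (by rw [update_of_ne hij, update_self, h])⟩
  · exact ⟨j, Or.inl (by rw [update_self, h])⟩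
  · exact ⟨j, Or.inr (by rw [update_self, h])⟩

lemma mu_two_self (w : Fin r → ℝ) {i j : Fin r} (A : Set (Fin r → Bool)) :
    mu w A = F4 (mu w (sec i j true true A)) (mu w (sec i j true false A))
          (mu w (sec i j false true A)) (mu w (sec i j false false A)) (w i) (w j) := by
  have h := mu_two w i j (w i) (w j) A
  rwa [update_eq_self, update_eq_self] at h

lemma sec_mono_up {A B : Set (Fin r → Bool)} (h : IsPair s A B) (i j : Fin r) {a b a' b' : Bool}
    (ha : a ≤ a') (hb : b ≤ b') : sec i j a b A ⊆ sec i j a' b' A := by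
  intro x hx
  refine h.up _ hx _ ?_
  intro k
  by_cases hj : k = j
  · subst hj; simpa using hb
  · rw [update_of_ne hj, update_of_ne hj]
    by_cases hi : k = i
    · subst hi; simpa using ha
    · rw [update_of_ne hi, update_of_ne hi]

lemma interior {A B : Set (Fin r → Bool)} {w : Fin r → ℝ} (hbd : BndStrict s r V)
    (hAB : IsPair s A B) (h0 : ∀ i, 0 ≤ w i) (h1 : ∀ i, w i ≤ 1)
    (hmax : mu w A * mu w B = V) (i : Fin r) : 0 < w i ∧ w i < 1 := by
  constructor
  · rcases (h0 i).lt_or_eq with h | h
    · exact h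
    · exact absurd hmax (hbd A B w hAB h0 h1 ⟨i, Or.inl h.symm⟩).ne
  · rcases (h1 i).lt_or_eq with h | h
    · exact h
    · exact absurd hmax (hbd A B w hAB h0 h1 ⟨i, Or.inr h⟩).ne

/-- at a maximum, the middle sections have equal measure. -/
lemma middle_eq {A B : Set (Fin r → Bool)} {w : Fin r → ℝ} (hV0 : 0 < V) (hV : Bnd s r V)
    (hbd : BndStrict s r V) (hAB : IsPair s A B) (h0 : ∀ i, 0 ≤ w i) (h1 : ∀ i, w i ≤ 1)
    (hmax : mu w A * mu w B = V) {i j : Fin r} (hij : i ≠ j) :
    mu w (sec i j true false A) = mu w (sec i j false true A) ∧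
      mu w (sec i j true false B) = mu w (sec i j false true B) := by
  have hApos : 0 < mu w A := by
    rcases (mu_nonneg h0 h1 A).lt_or_eq with h | h
    · exact h
    · rw [← h, zero_mul] at hmax; exact absurd hmax hV0.ne
  have hBpos : 0 < mu w B := by
    rcases (mu_nonneg h0 h1 B).lt_or_eq with h | h
    · exact h
    · rw [← h, mul_zero] at hmax; exact absurd hmax hV0.ne
  have hi := interior hbd hAB h0 h1 hmax i
  have hj := interior hbd hAB h0 h1 hmax j
  have eA := mu_two_self w (i := i) (j := j) A
  have eB := mu_two_self w (i := i) (j := j) B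
  have hmax' : F4 (mu w (sec i j true true A)) (mu w (sec i j true false A))
          (mu w (sec i j false true A)) (mu w (sec i j false false A)) (w i) (w j)
        * F4 (mu w (sec i j true true B)) (mu w (sec i j true false B))
          (mu w (sec i j false true B)) (mu w (sec i j false false B)) (w i) (w j) = V := by
    rw [← eA, ← eB]; exact hmax
  have tt : false ≤ true := by decide
  refine pair_main _ _ _ _ _ _ _ _ (w i) (w j) hi.1 hi.2 hj.1 hj.2
    (mu_mono h0 h1 (sec_mono_up hAB i j le_rfl tt))
    (mu_mono h0 h1 (sec_mono_up hAB i j tt le_rfl))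
    (mu_mono h0 h1 (sec_mono_up hAB i j le_rfl tt))
    (mu_mono h0 h1 (sec_mono_up hAB i j tt le_rfl))
    (by rw [← eA]; exact hApos) (by rw [← eB]; exact hBpos) ?_ ?_ ?_ ?_ ?_
  · intro p q a1 a2 a3 a4 hb
    rw [hmax', ← mu_two, ← mu_two]
    obtain ⟨m0, m1⟩ := update_update_mem h0 h1 i j a1 a2 a3 a4
    exact hbd A B _ hAB m0 m1 (update_update_bd w hij hb)
  · intro p q a1 a2 a3 a4
    rw [hmax']
    obtain ⟨m0, m1⟩ := update_update_mem h0 h1 i j a1 a2 a3 a4
    have := hV _ _ _ (isPair_comp hij hAB) m0 m1
    rw [mu_two, mu_two] at this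
    simp only [sec_comp hij, Bool.or_true, Bool.or_false, Bool.and_true, Bool.and_false,
      Bool.and_self] at this
    exact this
  · intro p q a1 a2 a3 a4 hb
    rw [hmax']
    obtain ⟨m0, m1⟩ := update_update_mem h0 h1 i j a1 a2 a3 a4
    have := hbd _ _ _ (isPair_comp hij hAB) m0 m1 (update_update_bd w hij hb)
    rw [mu_two, mu_two] at this
    simp only [sec_comp hij, Bool.or_true, Bool.or_false, Bool.and_true, Bool.and_false,
      Bool.and_self] at this
    exact this
  · intro p q a1 a2 a3 a4
    rw [hmax']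
    obtain ⟨m0, m1⟩ := update_update_mem h0 h1 i j a1 a2 a3 a4
    have := hV _ _ _ (isPair_comp hij.symm hAB) m0 m1
    rw [mu_two, mu_two] at this
    simp only [sec_comp' hij, Bool.or_true, Bool.or_false, Bool.and_true, Bool.and_false,
      Bool.and_self] at this
    exact this
  · intro p q a1 a2 a3 a4 hb
    rw [hmax']
    obtain ⟨m0, m1⟩ := update_update_mem h0 h1 i j a1 a2 a3 a4
    have := hbd _ _ _ (isPair_comp hij.symm hAB) m0 m1 (update_update_bd w hij hb)
    rw [mu_two, mu_two] at this
    simp only [sec_comp' hij, Bool.or_true, Bool.or_false, Bool.and_true, Bool.and_false,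
      Bool.and_self] at this
    exact this

/-- a comparator keeps the product at a maximum. -/
lemma comp_keep {A B : Set (Fin r → Bool)} {w : Fin r → ℝ} (hV0 : 0 < V) (hV : Bnd s r V)
    (hbd : BndStrict s r V) (hAB : IsPair s A B) (h0 : ∀ i, 0 ≤ w i) (h1 : ∀ i, w i ≤ 1)
    (hmax : mu w A * mu w B = V) {i j : Fin r} (hij : i ≠ j) :
    mu w (comp i j ⁻¹' A) * mu w (comp i j ⁻¹' B) = V := by
  obtain ⟨e1, e2⟩ := middle_eq hV0 hV hbd hAB h0 h1 hmax hij
  rw [← hmax, mu_two_self w (i := i) (j := j) (comp i j ⁻¹' A),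
    mu_two_self w (i := i) (j := j) (comp i j ⁻¹' B),
    mu_two_self w (i := i) (j := j) A, mu_two_self w (i := i) (j := j) B]
  simp only [sec_comp hij, Bool.or_true, Bool.or_false, Bool.and_true, Bool.and_false,
      Bool.and_self]
  rw [e1, e2]

/-- maps under which maximal pairs pull back to maximal pairs. -/
structure GoodF (s : ℕ) (V : ℝ) (w : Fin r → ℝ) (f : (Fin r → Bool) → (Fin r → Bool)) :
    Prop where
  mono : ∀ x y, x ≤ y → f x ≤ f y
  lip : ∀ x y, hd (f x) (f y) ≤ hd x y
  count : ∀ x, cnt (f x) = cnt x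
  keep : ∀ A B, IsPair s A B → mu w A * mu w B = V → mu w (f ⁻¹' A) * mu w (f ⁻¹' B) = V

lemma GoodF.id (w : Fin r → ℝ) : GoodF s V w id where
  mono := fun _ _ h => h
  lip := fun _ _ => le_rfl
  count := fun _ => rfl
  keep := fun _ _ _ h => h

lemma GoodF.comp {w : Fin r → ℝ} (hV0 : 0 < V) (hV : Bnd s r V)
    (hbd : BndStrict s r V) (h0 : ∀ i, 0 ≤ w i) (h1 : ∀ i, w i ≤ 1)
    {f : (Fin r → Bool) → (Fin r → Bool)} (hf : GoodF s V w f) {i j : Fin r} (hij : i ≠ j) :
    GoodF s V w (fun x => Cx.comp i j (f x)) where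
  mono := fun x y h => comp_mono hij (hf.mono x y h)
  lip := fun x y => (comp_hd hij _ _).trans (hf.lip x y)
  count := fun x => (comp_cnt hij _).trans (hf.count x)
  keep := by
    intro A B hAB hm
    exact hf.keep _ _ (isPair_comp hij hAB) (comp_keep hV0 hV hbd hAB h0 h1 hm hij)

/-- there is a sorting map. -/
lemma exists_sorting {w : Fin r → ℝ} (hV0 : 0 < V) (hV : Bnd s r V)
    (hbd : BndStrict s r V) (h0 : ∀ i, 0 ≤ w i) (h1 : ∀ i, w i ≤ 1) :
    ∃ f, GoodF s V w f ∧ ∀ x i j, i < j → f x j = true → f x i = true := by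
  classical
  let P : ℕ → Prop := fun n => ∃ f, GoodF s V w f ∧ ∑ x, pw (f x) = n
  have hP : ∃ n, P n := ⟨_, _, GoodF.id w, rfl⟩
  obtain ⟨f, hf, hn⟩ := Nat.find_spec hP
  refine ⟨f, hf, ?_⟩
  intro x i j hij hxj
  by_contra hxi
  have hxi' : f x i = false := by simpa using hxi
  have hlt : ∑ y, pw (comp i j (f y)) < ∑ y, pw (f y) := by
    apply Finset.sum_lt_sum
    · intro y _; exact comp_pw_le hij _
    · exact ⟨x, mem_univ _, comp_pw_lt hij _ hxi' hxj⟩
  have := Nat.find_min' hP ⟨_, hf.comp hV0 hV hbd h0 h1 hij.ne, rfl⟩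
  rw [← hn] at this
  exact absurd this (not_le.mpr hlt)

/-- initial segment -/
def init (r c : ℕ) : Fin r → Bool := fun i => decide (i.val < c)

lemma init_mono {c c' : ℕ} (h : c ≤ c') : init r c ≤ init r c' := by
  intro i
  unfold init
  by_cases h1 : i.val < c
  · simp [h1, lt_of_lt_of_le h1 h]
  · simp [h1]

lemma sorted_eq_init (y : Fin r → Bool) (h : ∀ i j, i < j → y j = true → y i = true) :
    y = init r (cnt y) := by
  funext i
  unfold init
  cases hy : y i with
  | true =>
    symm
    rw [decide_eq_true_eq]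
    have h2 : ∑ k : Fin r, (if k ≤ i then 1 else 0) ≤ cnt y := by
      unfold cnt
      apply Finset.sum_le_sum
      intro k _
      split_ifs with hk
      · have : y k = true := by
          rcases hk.lt_or_eq with hk' | hk'
          · exact h k i hk' hy
          · rw [hk']; exact hy
        rw [this]; decide
      · omega
    have h3 : ∑ k : Fin r, (if k ≤ i then 1 else 0) = i.val + 1 := by
      rw [Finset.sum_boole]
      have : (univ.filter fun k => k ≤ i) = Finset.Iic i := by ext k; simp
      rw [this, Fin.card_Iic]; rfl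
    omega
  | false =>
    symm
    rw [decide_eq_false_iff_not, not_lt]
    have h2 : cnt y ≤ ∑ k : Fin r, (if k < i then 1 else 0) := by
      unfold cnt
      apply Finset.sum_le_sum
      intro k _
      split_ifs with hk
      · exact Bool.toNat_le _
      · have : y k = false := by
          rcases (not_lt.mp hk).lt_or_eq with hk' | hk'
          · by_contra hc
            have hc' : y k = true := by simpa using hc
            have := h i k hk' hc'
            rw [hy] at this
            exact absurd this (by decide)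
          · rw [← hk']; exact hy
        rw [this]; decide
    have h3 : ∑ k : Fin r, (if k < i then 1 else 0) = i.val := by
      rw [Finset.sum_boole]
      have : (univ.filter fun k => k < i) = Finset.Iio i := by ext k; simp
      rw [this, Fin.card_Iio]; rfl
    omega

lemma cnt_le (x : Fin r → Bool) : cnt x ≤ r := by
  unfold cnt
  calc ∑ i, (x i).toNat ≤ ∑ _i : Fin r, 1 := by
        apply Finset.sum_le_sum
        intro i _
        exact Bool.toNat_le _
    _ = r := by simp

lemma cnt_init {c : ℕ} (hc : c ≤ r) : cnt (init r c) = c := by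
  unfold cnt init
  have : ∀ i : Fin r, (decide (i.val < c)).toNat = if i.val < c then 1 else 0 := by
    intro i
    by_cases h : i.val < c
    · simp [h]
    · simp [h]
  simp only [this]
  rw [Finset.sum_boole]
  have h2 : (univ.filter fun i : Fin r => i.val < c).card = c := by
    rw [Fin.card_filter_val_lt]
    omega
  rw [h2]; rfl

lemma hd_init {c c' : ℕ} (h : c' ≤ c) : hd (init r c) (init r c') ≤ c - c' := by
  unfold hd init
  have : ∀ i : Fin r, (if decide (i.val < c) = decide (i.val < c') then 0 else 1)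
      = if (c' ≤ i.val ∧ i.val < c) then 1 else 0 := by
    intro i
    by_cases h1 : i.val < c
    · by_cases h2 : i.val < c'
      · simp [h1, h2, not_le.mpr h2]
      · simp [h1, h2, not_lt.mp h2]
    · have h2 : ¬ i.val < c' := by omega
      simp [h1, h2]
  simp only [this]
  rw [Finset.sum_boole]
  have : (univ.filter fun i : Fin r => c' ≤ i.val ∧ i.val < c).card ≤ (Finset.Ico c' c).card := by
    apply Finset.card_le_card_of_injOn (fun i => i.val)
    · intro i hi
      simp only [Finset.coe_filter, mem_univ, true_and, Set.mem_ofPred_eq] at hi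
      simpa using hi
    · intro a _ b _ hab
      exact Fin.ext hab
  rw [Nat.card_Ico] at this
  exact_mod_cast this

/-- reduction to thresholds. -/
lemma exists_thresholds {A B : Set (Fin r → Bool)} {w : Fin r → ℝ} (hs : 1 ≤ s) (hV0 : 0 < V)
    (hV : Bnd s r V) (hbd : BndStrict s r V) (hAB : IsPair s A B) (h0 : ∀ i, 0 ≤ w i)
    (h1 : ∀ i, w i ≤ 1) (hmax : mu w A * mu w B = V) :
    ∃ k l, l + s ≤ k ∧ k ≤ r ∧ mu w (Th r k) * mu w (Tl r l) = V := by
  classical
  obtain ⟨f, hf, hsort⟩ := exists_sorting (w := w) hV0 hV hbd h0 h1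
  have hinit : ∀ x, f x = init r (cnt x) := by
    intro x
    have := sorted_eq_init (f x) (hsort x)
    rw [hf.count] at this
    exact this
  have hm := hf.keep A B hAB hmax
  have hAne : (f ⁻¹' A).Nonempty := by
    by_contra hcon
    rw [Set.not_nonempty_iff_eq_empty] at hcon
    rw [hcon, mu_empty, zero_mul] at hm
    exact hV0.ne hm
  have hBne : (f ⁻¹' B).Nonempty := by
    by_contra hcon
    rw [Set.not_nonempty_iff_eq_empty] at hcon
    rw [hcon, mu_empty, mul_zero] at hm
    exact hV0.ne hm
  obtain ⟨x, hx⟩ := hAne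
  obtain ⟨y, hy⟩ := hBne
  have hx' : init r (cnt x) ∈ A := by rw [← hinit]; exact hx
  have hy' : init r (cnt y) ∈ B := by rw [← hinit]; exact hy
  have hPA : ∃ c, init r c ∈ A := ⟨_, hx'⟩
  set k := Nat.find hPA with hk
  have hkA : init r k ∈ A := Nat.find_spec hPA
  have hkx : k ≤ cnt x := Nat.find_min' hPA hx'
  have hkr : k ≤ r := hkx.trans (cnt_le x)
  have hA : f ⁻¹' A = Th r k := by
    ext z
    constructor
    · intro hz
      have : init r (cnt z) ∈ A := by rw [← hinit]; exact hz
      exact Nat.find_min' hPA this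
    · intro hz
      show f z ∈ A
      rw [hinit]
      exact hAB.up _ hkA _ (init_mono hz)
  -- the lower family
  set l := Nat.findGreatest (fun c => init r c ∈ B) r with hl
  have hlB : init r l ∈ B :=
    Nat.findGreatest_spec (P := fun c => init r c ∈ B) (cnt_le y) hy'
  have hlr : l ≤ r := Nat.findGreatest_le _
  have hB : f ⁻¹' B = Tl r l := by
    ext z
    constructor
    · intro hz
      have : init r (cnt z) ∈ B := by rw [← hinit]; exact hz
      exact Nat.le_findGreatest (cnt_le z) this
    · intro hz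
      show f z ∈ B
      rw [hinit]
      exact hAB.down _ hlB _ (init_mono hz)
  refine ⟨k, l, ?_, hkr, ?_⟩
  · have hlk : l < k := by
      by_contra hcon
      push Not at hcon
      have h3 : init r l ∈ A := hAB.up _ hkA _ (init_mono hcon)
      have h4 := hAB.far _ h3 _ hlB
      have h5 : hd (init r l) (init r l) ≤ l - l := hd_init le_rfl
      omega
    have h4 := hAB.far _ hkA _ hlB
    have h5 : hd (init r k) (init r l) ≤ k - l := hd_init hlk.le
    omega
  · rw [← hA, ← hB]; exact hm

lemma cnt_sec_swap {i j : Fin r} (hij : i ≠ j) (x : Fin r → Bool) :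
    cnt (update (update x i true) j false) = cnt (update (update x i false) j true) := by
  unfold cnt
  rw [sum_split_two hij, sum_split_two hij (fun k => (update (update x i false) j true k).toNat)]
  have hrest : ∑ k ∈ (univ.erase i).erase j, (update (update x i true) j false k).toNat
      = ∑ k ∈ (univ.erase i).erase j, (update (update x i false) j true k).toNat := by
    apply Finset.sum_congr rfl
    intro k hk
    have hj : k ≠ j := Finset.ne_of_mem_erase hk
    have hi : k ≠ i := Finset.ne_of_mem_erase (Finset.mem_of_mem_erase hk)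
    rw [update_of_ne hj, update_of_ne hi, update_of_ne hj, update_of_ne hi]
  rw [hrest, update_of_ne hij, update_of_ne hij, update_self, update_self, update_self,
    update_self]
  simp

lemma weights_eq {k l : ℕ} {w : Fin r → ℝ} (hV0 : 0 < V)
    (hV : Bnd s r V) (hbd : BndStrict s r V) (hkl : l + s ≤ k) (h0 : ∀ i, 0 ≤ w i)
    (h1 : ∀ i, w i ≤ 1) (hmax : mu w (Th r k) * mu w (Tl r l) = V) {i j : Fin r} (hij : i ≠ j) :
    w i = w j := by
  have hAB : IsPair s (Th r k) (Tl r l) := isPair_threshold hkl
  have hApos : 0 < mu w (Th r k) := by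
    rcases (mu_nonneg h0 h1 (Th r k)).lt_or_eq with h | h
    · exact h
    · rw [← h, zero_mul] at hmax; exact absurd hmax hV0.ne
  have hBpos : 0 < mu w (Tl r l) := by
    rcases (mu_nonneg h0 h1 (Tl r l)).lt_or_eq with h | h
    · exact h
    · rw [← h, mul_zero] at hmax; exact absurd hmax hV0.ne
  have hi := interior hbd hAB h0 h1 hmax i
  have hj := interior hbd hAB h0 h1 hmax j
  have eA := mu_two_self w (i := i) (j := j) (Th r k)
  have eB := mu_two_self w (i := i) (j := j) (Tl r l)
  have sA : sec i j false true (Th r k) = sec i j true false (Th r k) := by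
    ext x
    show k ≤ cnt (update (update x i false) j true) ↔ k ≤ cnt (update (update x i true) j false)
    rw [cnt_sec_swap hij]
  have sB : sec i j false true (Tl r l) = sec i j true false (Tl r l) := by
    ext x
    show cnt (update (update x i false) j true) ≤ l ↔ cnt (update (update x i true) j false) ≤ l
    rw [cnt_sec_swap hij]
  rw [sA] at eA
  rw [sB] at eB
  have tt : false ≤ true := by decide
  have hmax' : F4 (mu w (sec i j true true (Th r k))) (mu w (sec i j true false (Th r k)))
          (mu w (sec i j true false (Th r k))) (mu w (sec i j false false (Th r k))) (w i) (w j)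
        * F4 (mu w (sec i j true true (Tl r l))) (mu w (sec i j true false (Tl r l)))
          (mu w (sec i j true false (Tl r l))) (mu w (sec i j false false (Tl r l)))
          (w i) (w j) = V := by
    rw [← eA, ← eB]; exact hmax
  refine equal_weights _ _ _ _ _ _ (w i) (w j) hi.1 hi.2 hj.1 hj.2
    (mu_mono h0 h1 (sec_mono_up hAB i j le_rfl tt))
    (mu_mono h0 h1 (sec_mono_up hAB i j tt le_rfl))
    (by rw [← eA]; exact hApos) (by rw [← eB]; exact hBpos) ?_ ?_
  · intro p q a1 a2 a3 a4 hb
    rw [hmax']
    obtain ⟨m0, m1⟩ := update_update_mem h0 h1 i j a1 a2 a3 a4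
    have := hbd _ _ _ hAB m0 m1 (update_update_bd w hij hb)
    rw [mu_two, mu_two, sA, sB] at this
    exact this
  · intro p q a1 a2 a3 a4
    rw [hmax']
    obtain ⟨m0, m1⟩ := update_update_mem h0 h1 i j a1 a2 a3 a4
    have := hV _ _ _ hAB m0 m1
    rw [mu_two, mu_two, sA, sB] at this
    exact this

end step

/-- maximisers exist. -/
lemma exists_maximiser (s r : ℕ) :
    ∃ (A B : Set (Fin r → Bool)) (w : Fin r → ℝ), IsPair s A B ∧ (∀ i, 0 ≤ w i) ∧
      (∀ i, w i ≤ 1) ∧ Bnd s r (mu w A * mu w B) := by
  classical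
  have hcomp : IsCompact (Set.Icc (0 : Fin r → ℝ) 1) := isCompact_Icc
  have hne : (Set.Icc (0 : Fin r → ℝ) 1).Nonempty := ⟨0, by simp⟩
  have h1 : ∀ A B : Set (Fin r → Bool), ∃ w ∈ Set.Icc (0 : Fin r → ℝ) 1,
      ∀ w' ∈ Set.Icc (0 : Fin r → ℝ) 1, mu w' A * mu w' B ≤ mu w A * mu w B := by
    intro A B
    obtain ⟨w, hw, hmax⟩ := hcomp.exists_isMaxOn hne
      (f := fun w : Fin r → ℝ => mu w A * mu w B)
      ((continuous_mu A).mul (continuous_mu B)).continuousOn
    exact ⟨w, hw, fun w' hw' => hmax hw'⟩
  choose W hW hWmax using h1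
  haveI : Nonempty {P : Set (Fin r → Bool) × Set (Fin r → Bool) // IsPair s P.1 P.2} := by
    refine ⟨⟨(∅, ∅), ?_⟩⟩
    constructor
    · intro x hx; exact absurd hx (Set.notMem_empty x)
    · intro x hx; exact absurd hx (Set.notMem_empty x)
    · intro x hx; exact absurd hx (Set.notMem_empty x)
  obtain ⟨P, hP⟩ := Finite.exists_max
    (fun P : {P : Set (Fin r → Bool) × Set (Fin r → Bool) // IsPair s P.1 P.2} =>
      mu (W P.1.1 P.1.2) P.1.1 * mu (W P.1.1 P.1.2) P.1.2)
  refine ⟨P.1.1, P.1.2, W P.1.1 P.1.2, P.2, fun i => (hW P.1.1 P.1.2).1 i,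
    fun i => (hW P.1.1 P.1.2).2 i, ?_⟩
  intro A B w hAB h0 h1
  have e1 : mu w A * mu w B ≤ mu (W A B) A * mu (W A B) B :=
    hWmax A B w ⟨fun i => h0 i, fun i => h1 i⟩
  exact e1.trans (hP ⟨(A, B), hAB⟩)

lemma V_pos {s r : ℕ} (hsr : s ≤ r) {V : ℝ} (hV : Bnd s r V) : 0 < V := by
  have hb := hV (Th r s) (Tl r 0) (fun _ => 1 / 2)
    (isPair_threshold (by omega)) (fun _ => by norm_num) (fun _ => by norm_num)
  rw [mu_Tl] at hb
  have e1 : 0 < mu (fun _ => (1 / 2 : ℝ)) (Th r s) :=
    T_pos r s hsr (by norm_num) (by norm_num)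
  have e2 : 0 < 1 - mu (fun _ => (1 / 2 : ℝ)) (Th r (0 + 1)) := by
    have h := T_diff r (1 / 2) 0
    rw [T_zero] at h
    have : 0 < (r.choose 0 : ℝ) * (1 / 2 : ℝ) ^ 0 * (1 - 1 / 2 : ℝ) ^ (r - 0) := by
      simp only [Nat.choose_zero_right, Nat.cast_one, pow_zero, mul_one, Nat.sub_zero, one_mul]
      positivity
    rw [← h] at this
    exact this
  exact lt_of_lt_of_le (mul_pos e1 e2) hb

/-- **Cube theorem**: uniform thresholds are optimal. -/
theorem exists_opt (s : ℕ) (hs : 2 ≤ s) : ∀ r, s ≤ r → ∃ k l p, Opt r s k l p := by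
  intro r
  induction r with
  | zero => intro h; omega
  | succ m ih =>
    intro hsm
    obtain ⟨A, B, w, hAB, h0, h1, hV⟩ := exists_maximiser s (m + 1)
    have hV0 : 0 < mu w A * mu w B := V_pos hsm hV
    have hbd : BndStrict s (m + 1) (mu w A * mu w B) := by
      intro A' B' w' hAB' h0' h1' hex
      obtain ⟨i, hi⟩ := hex
      exact boundary_lt hs hsm ih hV A' B' w' hAB' h0' h1' i hi
    obtain ⟨k, l, hkl, hkr, hm⟩ := exists_thresholds (by omega) hV0 hV hbd hAB h0 h1 rfl
    have hint := interior hbd (isPair_threshold hkl) h0 h1 hm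
    have hw : w = fun _ => w 0 := by
      funext i
      by_cases hi : i = 0
      · rw [hi]
      · exact weights_eq hV0 hV hbd hkl h0 h1 hm hi
    refine ⟨k, l, w 0, hkl, hkr, (hint 0).1, (hint 0).2, ?_⟩
    rw [← hm] at hV
    rw [← hw]
    exact hV

end Pool.Agent.Y161.Cx
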