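import Pool.Agent.Y161.Cx.Families
import Pool.Agent.Y161.Cx.Cube

/-!
Asymptotic sizes of the threshold families.
-/

set_option autoImplicit false

namespace Pool.Agent.Y161.Cx

open Function Finset Filter Topology

/-- asymptotics of binomial coefficients along a sequence. -/
lemma tendsto_choose_div {m : ℕ → ℕ} {p : ℝ}
    (hm : Tendsto (fun n : ℕ => (m n : ℝ) / n) atTop (𝓝 p)) (j : ℕ) :
    Tendsto (fun n : ℕ => ((m n).choose j : ℝ) / (n : ℝ) ^ j) atTop
      (𝓝 (p ^ j / j.factorial)) := by
  have h1 : ∀ i : ℕ, Tendsto (fun n : ℕ => ((m n - i : ℕ) : ℝ) / n) atTop (𝓝 p) := by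
    intro i
    have hi : Tendsto (fun n : ℕ => (m n : ℝ) / n - (i : ℝ) / n) atTop (𝓝 (p - 0)) :=
      hm.sub (tendsto_const_div_atTop_nhds_zero_nat (i : ℝ))
    rw [sub_zero] at hi
    refine tendsto_of_tendsto_of_tendsto_of_le_of_le hi hm ?_ ?_
    · intro n
      simp only
      rw [← sub_div]
      apply div_le_div_of_nonneg_right _ (Nat.cast_nonneg n)
      have : m n ≤ (m n - i) + i := by omega
      have h' : (m n : ℝ) ≤ ((m n - i : ℕ) : ℝ) + i := by exact_mod_cast this
      linarith
    · intro n
      simp only
      apply div_le_div_of_nonneg_right _ (Nat.cast_nonneg n)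
      exact_mod_cast Nat.sub_le _ _
  have h2 : Tendsto (fun n : ℕ => ∏ i ∈ range j, (((m n - i : ℕ) : ℝ) / n)) atTop
      (𝓝 (∏ _i ∈ range j, p)) := tendsto_finsetProd _ (fun i _ => h1 i)
  rw [Finset.prod_const, Finset.card_range] at h2
  have h3 := h2.div_const (j.factorial : ℝ)
  refine h3.congr ?_
  intro n
  rw [Finset.prod_div_distrib, Finset.prod_const, Finset.card_range]
  have h4 : ((m n).choose j : ℝ) * j.factorial = ∏ i ∈ range j, ((m n - i : ℕ) : ℝ) := by
    have := Nat.descFactorial_eq_factorial_mul_choose (m n) j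
    rw [Nat.descFactorial_eq_prod_range] at this
    rw [← Nat.cast_prod, this]
    push_cast
    ring
  rw [← h4]
  have hf : (j.factorial : ℝ) ≠ 0 := by positivity
  rw [div_div, mul_comm ((n : ℝ) ^ j), ← div_div, mul_div_assoc, div_self hf, mul_one]

/-- the number of `r`-sets meeting `X` in exactly `j` points. -/
lemma card_inter_eq {n r j : ℕ} (hj : j ≤ r) (X : Finset ℕ) (hX : X ⊆ range n) :
    ((powersetCard r (range n)).filter (fun A => (A ∩ X).card = j)).card
      = X.card.choose j * (n - X.card).choose (r - j) := by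
  classical
  have h1 : X.card.choose j * (n - X.card).choose (r - j)
      = ((powersetCard j X) ×ˢ (powersetCard (r - j) (range n \ X))).card := by
    rw [Finset.card_product, Finset.card_powersetCard, Finset.card_powersetCard,
      Finset.card_sdiff_of_subset hX, Finset.card_range]
  rw [h1]
  apply Finset.card_nbij' (fun A => (A ∩ X, A \ X)) (fun P => P.1 ∪ P.2)
  · intro A hA
    rw [Finset.mem_coe, Finset.mem_filter, Finset.mem_powersetCard] at hA
    obtain ⟨⟨h2, h3⟩, h4⟩ := hA
    rw [Finset.mem_coe, Finset.mem_product, Finset.mem_powersetCard, Finset.mem_powersetCard]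
    refine ⟨⟨Finset.inter_subset_right, h4⟩, Finset.sdiff_subset_sdiff h2 (Finset.Subset.refl _),
      ?_⟩
    have := Finset.card_inter_add_card_sdiff A X
    simp only
    omega
  · intro P hP
    rw [Finset.mem_coe, Finset.mem_product, Finset.mem_powersetCard, Finset.mem_powersetCard] at hP
    obtain ⟨⟨h2, h3⟩, h4, h5⟩ := hP
    have hdisj : Disjoint P.1 P.2 := by
      apply Finset.disjoint_of_subset_left h2
      apply Finset.disjoint_of_subset_right h4
      exact Finset.disjoint_sdiff
    rw [Finset.mem_coe, Finset.mem_filter, Finset.mem_powersetCard]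
    refine ⟨⟨Finset.union_subset (h2.trans hX) (h4.trans Finset.sdiff_subset), ?_⟩, ?_⟩
    · simp only
      rw [Finset.card_union_of_disjoint hdisj]; omega
    · have e : (P.1 ∪ P.2) ∩ X = P.1 := by
        ext a
        rw [Finset.mem_inter, Finset.mem_union]
        constructor
        · rintro ⟨h | h, h'⟩
          · exact h
          · exact absurd h' (Finset.mem_sdiff.mp (h4 h)).2
        · intro h
          exact ⟨Or.inl h, h2 h⟩
      simp only
      rw [e]; exact h3
  · intro A _
    simp only
    rw [Finset.union_comm]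
    exact Finset.sdiff_union_inter A X
  · intro P hP
    rw [Finset.mem_coe, Finset.mem_product, Finset.mem_powersetCard, Finset.mem_powersetCard] at hP
    obtain ⟨⟨h2, h3⟩, h4, h5⟩ := hP
    apply Prod.ext
    · simp only
      ext a
      rw [Finset.mem_inter, Finset.mem_union]
      constructor
      · rintro ⟨h | h, h'⟩
        · exact h
        · exact absurd h' (Finset.mem_sdiff.mp (h4 h)).2
      · intro h
        exact ⟨Or.inl h, h2 h⟩
    · simp only
      ext a
      rw [Finset.mem_sdiff, Finset.mem_union]
      constructor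
      · rintro ⟨h | h, h'⟩
        · exact absurd (h2 h) h'
        · exact h
      · intro h
        exact ⟨Or.inr h, (Finset.mem_sdiff.mp (h4 h)).2⟩

/-- number of `r`-sets meeting `X` in at least `k` points -/
def G (r k n : ℕ) (X : Finset ℕ) : ℕ :=
  ((powersetCard r (range n)).filter (fun A => k ≤ (A ∩ X).card)).card

lemma G_succ (r k n : ℕ) (X : Finset ℕ) :
    G r k n X = ((powersetCard r (range n)).filter (fun A => (A ∩ X).card = k)).card
      + G r (k + 1) n X := by
  classical
  unfold G
  rw [← Finset.card_union_of_disjoint]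
  · congr 1
    ext A
    simp only [mem_union, mem_filter]
    constructor
    · rintro ⟨h1, h2⟩
      rcases h2.lt_or_eq with h | h
      · exact Or.inr ⟨h1, h⟩
      · exact Or.inl ⟨h1, h.symm⟩
    · rintro (⟨h1, h2⟩ | ⟨h1, h2⟩)
      · exact ⟨h1, h2.ge⟩
      · exact ⟨h1, by omega⟩
  · rw [Finset.disjoint_left]
    intro A hA hA'
    rw [mem_filter] at hA hA'
    omega

lemma G_big (r k n : ℕ) (X : Finset ℕ) (h : r < k) : G r k n X = 0 := by
  classical
  unfold G
  rw [Finset.card_eq_zero, Finset.filter_eq_empty_iff]
  intro A hA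
  have h1 := (Finset.mem_powersetCard.mp hA).2
  have h2 : (A ∩ X).card ≤ A.card := Finset.card_le_card Finset.inter_subset_left
  omega

/-- asymptotics of `G`. -/
lemma tendsto_G {r : ℕ} {p : ℝ} {X : ℕ → Finset ℕ} (hX : ∀ n, X n ⊆ range n)
    (hXp : Tendsto (fun n : ℕ => ((X n).card : ℝ) / n) atTop (𝓝 p)) :
    ∀ d k : ℕ, r + 1 - k = d →
      Tendsto (fun n : ℕ => (G r k n (X n) : ℝ) / (n : ℝ) ^ r) atTop
        (𝓝 (T r k p / r.factorial)) := by
  intro d
  induction d with
  | zero =>
    intro k hk
    have hk' : r < k := by omega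
    rw [T_of_lt r k hk']
    simp only [G_big r k _ _ hk']
    simp
  | succ d ih =>
    intro k hk
    have hkr : k ≤ r := by omega
    have h1 := ih (k + 1) (by omega)
    have h2 := tendsto_choose_div hXp k
    have hXp' : Tendsto (fun n : ℕ => ((n - (X n).card : ℕ) : ℝ) / n) atTop (𝓝 (1 - p)) := by
      have h3 : Tendsto (fun n : ℕ => 1 - ((X n).card : ℝ) / n) atTop (𝓝 (1 - p)) :=
        tendsto_const_nhds.sub hXp
      refine h3.congr' ?_
      filter_upwards [eventually_gt_atTop 0] with n hn
      have hle : (X n).card ≤ n := by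
        calc (X n).card ≤ (range n).card := Finset.card_le_card (hX n)
          _ = n := Finset.card_range n
      rw [Nat.cast_sub hle]
      have hn' : (n : ℝ) ≠ 0 := by positivity
      field_simp
    have h3 := tendsto_choose_div hXp' (r - k)
    have h4 := (h2.mul h3).add h1
    have e : p ^ k / k.factorial * ((1 - p) ^ (r - k) / (r - k).factorial)
        + T r (k + 1) p / r.factorial = T r k p / r.factorial := by
      have hT := T_diff r p k
      have hch : (r.choose k : ℝ) * k.factorial * (r - k).factorial = r.factorial := by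
        exact_mod_cast Nat.choose_mul_factorial_mul_factorial hkr
      have hTk : T r k p = (r.choose k : ℝ) * p ^ k * (1 - p) ^ (r - k) + T r (k + 1) p := by
        linarith
      have f1 : (k.factorial : ℝ) ≠ 0 := by positivity
      have f2 : ((r - k).factorial : ℝ) ≠ 0 := by positivity
      have f3 : (r.factorial : ℝ) ≠ 0 := by positivity
      rw [hTk, add_div]
      congr 1
      rw [div_mul_div_comm, div_eq_div_iff (mul_ne_zero f1 f2) f3, ← hch]
      ring
    rw [e] at h4
    refine h4.congr ?_
    intro n
    rw [G_succ r k n (X n), card_inter_eq hkr (X n) (hX n)]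
    push_cast
    have e2 : (n : ℝ) ^ r = (n : ℝ) ^ k * (n : ℝ) ^ (r - k) := by
      rw [← pow_add]; congr 1; omega
    rw [add_div, div_mul_div_comm, e2]

/-- the sets meeting the complement of `X` in many points. -/
lemma card_lower {n r l : ℕ} (hl : l ≤ r) (X : Finset ℕ) :
    (((powersetCard r (range n)).filter (fun B => r - l ≤ (B ∩ (range n \ X)).card)).card : ℝ)
      = (G r 0 n X : ℝ) - G r (l + 1) n X := by
  classical
  have h1 : ((powersetCard r (range n)).filter (fun B => r - l ≤ (B ∩ (range n \ X)).card)).card
      + G r (l + 1) n X = G r 0 n X := by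
    have h2 : (powersetCard r (range n)).filter (fun B => r - l ≤ (B ∩ (range n \ X)).card)
        = (powersetCard r (range n)).filter (fun B => ¬ (l + 1 ≤ (B ∩ X).card)) := by
      apply Finset.filter_congr
      intro B hB
      rw [Finset.mem_powersetCard] at hB
      have h3 : B ∩ (range n \ X) = B \ X := by
        ext a
        simp only [Finset.mem_inter, Finset.mem_sdiff]
        constructor
        · rintro ⟨h, _, h'⟩; exact ⟨h, h'⟩
        · rintro ⟨h, h'⟩; exact ⟨h, hB.1 h, h'⟩
      have h4 := Finset.card_inter_add_card_sdiff B X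
      rw [h3]
      omega
    rw [h2]
    have h5 : G r 0 n X = (powersetCard r (range n)).card := by
      unfold G
      congr 1
      rw [Finset.filter_eq_self]
      intro A _; omega
    rw [h5]
    unfold G
    rw [add_comm]
    exact Finset.card_filter_add_card_filter_not _
  have h2 : (((powersetCard r (range n)).filter
      (fun B => r - l ≤ (B ∩ (range n \ X)).card)).card : ℝ) + G r (l + 1) n X = G r 0 n X := by
    exact_mod_cast h1
  linarith

end Pool.Agent.Y161.Cx
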