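import Pool.Agent.Y161.Cx.PairMain

/-!
Expectations over product spaces, and product measures on the cube.
-/

set_option autoImplicit false

namespace Pool.Agent.Y161.Cx

open Function Finset

section general

variable {ι Ω : Type} [Fintype ι] [DecidableEq ι] [Fintype Ω]

/-- expectation over the product space. -/
noncomputable def E (w : ι → Ω → ℝ) (f : (ι → Ω) → ℝ) : ℝ :=
  ∑ x : ι → Ω, (∏ i, w i (x i)) * f x

/-- the involution `(a, x) ↦ (x i, x[i := a])`. -/
def swapEquiv (Ω : Type) (i : ι) : (Ω × (ι → Ω)) ≃ (Ω × (ι → Ω)) where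
  toFun a := (a.2 i, update a.2 i a.1)
  invFun a := (a.2 i, update a.2 i a.1)
  left_inv a := by simp
  right_inv a := by simp

lemma prod_update_update (w : ι → Ω → ℝ) (i : ι) (v : Ω → ℝ) (x : ι → Ω) (a : Ω) :
    v a * ∏ j, w j (x j) = w i (x i) * ∏ j, update w i v j (update x i a j) := by
  rw [← Finset.mul_prod_erase univ (fun j => w j (x j)) (mem_univ i),
    ← Finset.mul_prod_erase univ (fun j => update w i v j (update x i a j)) (mem_univ i)]
  have : ∏ j ∈ univ.erase i, update w i v j (update x i a j)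
      = ∏ j ∈ univ.erase i, w j (x j) := by
    apply prod_congr rfl
    intro j hj
    rw [update_of_ne (ne_of_mem_erase hj), update_of_ne (ne_of_mem_erase hj)]
  rw [this]
  simp only [update_self]
  ring

lemma E_update (w : ι → Ω → ℝ) (i : ι) (v : Ω → ℝ) (f : (ι → Ω) → ℝ) (h : ∑ a, w i a = 1) :
    E (update w i v) f = ∑ a, v a * E w (fun x => f (update x i a)) := by
  have key : ∑ c : Ω × (ι → Ω), v c.1 * ((∏ j, w j (c.2 j)) * f (update c.2 i c.1))
     = ∑ c : Ω × (ι → Ω), w i c.1 * ((∏ j, update w i v j (c.2 j)) * f c.2) := by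
    rw [← Equiv.sum_comp (swapEquiv Ω i)
      (fun c : Ω × (ι → Ω) => w i c.1 * ((∏ j, update w i v j (c.2 j)) * f c.2))]
    apply Finset.sum_congr rfl
    rintro ⟨a, x⟩ _
    simp only [swapEquiv, Equiv.coe_fn_mk]
    rw [← mul_assoc, ← mul_assoc, prod_update_update]
  rw [Fintype.sum_prod_type, Fintype.sum_prod_type] at key
  simp only at key
  calc E (update w i v) f = (∑ a, w i a) * E (update w i v) f := by rw [h, one_mul]
    _ = ∑ a, ∑ x : ι → Ω, w i a * ((∏ j, update w i v j (x j)) * f x) := by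
        rw [Finset.sum_mul]
        apply Finset.sum_congr rfl
        intro a _
        rw [E, Finset.mul_sum]
    _ = ∑ a, ∑ x : ι → Ω, v a * ((∏ j, w j (x j)) * f (update x i a)) := key.symm
    _ = ∑ a, v a * E w (fun x => f (update x i a)) := by
        apply Finset.sum_congr rfl
        intro a _
        rw [E, Finset.mul_sum]

lemma E_split (w : ι → Ω → ℝ) (i : ι) (f : (ι → Ω) → ℝ) (h : ∑ a, w i a = 1) :
    E w f = ∑ a, w i a * E w (fun x => f (update x i a)) := by
  have := E_update w i (w i) f h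
  rwa [update_eq_self] at this

lemma E_add (w : ι → Ω → ℝ) (f g : (ι → Ω) → ℝ) :
    E w (fun x => f x + g x) = E w f + E w g := by
  unfold E
  rw [← Finset.sum_add_distrib]
  apply Finset.sum_congr rfl
  intro x _; ring

lemma E_sub (w : ι → Ω → ℝ) (f g : (ι → Ω) → ℝ) :
    E w (fun x => f x - g x) = E w f - E w g := by
  unfold E
  rw [← Finset.sum_sub_distrib]
  apply Finset.sum_congr rfl
  intro x _; ring

lemma E_mono (w : ι → Ω → ℝ) (hw : ∀ i a, 0 ≤ w i a) (f g : (ι → Ω) → ℝ) (h : ∀ x, f x ≤ g x) :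
    E w f ≤ E w g := by
  unfold E
  apply Finset.sum_le_sum
  intro x _
  exact mul_le_mul_of_nonneg_left (h x) (Finset.prod_nonneg fun i _ => hw i _)

lemma E_nonneg (w : ι → Ω → ℝ) (hw : ∀ i a, 0 ≤ w i a) (f : (ι → Ω) → ℝ) (h : ∀ x, 0 ≤ f x) :
    0 ≤ E w f := by
  unfold E
  apply Finset.sum_nonneg
  intro x _
  exact mul_nonneg (Finset.prod_nonneg fun i _ => hw i _) (h x)

lemma E_one (w : ι → Ω → ℝ) (hw : ∀ i, ∑ a, w i a = 1) :
    E w (fun _ => 1) = 1 := by
  unfold E
  simp only [mul_one]
  rw [← Fintype.prod_sum]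
  simp [hw]

end general

section cube

variable {ι : Type} [Fintype ι] [DecidableEq ι]

/-- weight of a bit. -/
def wt (p : ℝ) (b : Bool) : ℝ := if b then p else 1 - p

@[simp] lemma wt_true (p : ℝ) : wt p true = p := rfl
@[simp] lemma wt_false (p : ℝ) : wt p false = 1 - p := rfl

lemma sum_wt (p : ℝ) : ∑ a, wt p a = 1 := by
  simp [Fintype.sum_bool, wt]

lemma wt_nonneg {p : ℝ} (h0 : 0 ≤ p) (h1 : p ≤ 1) (a : Bool) : 0 ≤ wt p a := by
  cases a
  · simp only [wt_false]; linarith
  · simpa using h0

/-- product measure of a set in the cube. -/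
noncomputable def mu (w : ι → ℝ) (A : Set (ι → Bool)) : ℝ :=
  E (fun i => wt (w i)) (A.indicator (fun _ => 1))

lemma mu_nonneg {w : ι → ℝ} (h0 : ∀ i, 0 ≤ w i) (h1 : ∀ i, w i ≤ 1) (A : Set (ι → Bool)) :
    0 ≤ mu w A := by
  apply E_nonneg
  · intro i a; exact wt_nonneg (h0 i) (h1 i) a
  · intro x; exact Set.indicator_nonneg (fun _ _ => zero_le_one) x

lemma mu_mono {w : ι → ℝ} (h0 : ∀ i, 0 ≤ w i) (h1 : ∀ i, w i ≤ 1) {A B : Set (ι → Bool)}
    (h : A ⊆ B) : mu w A ≤ mu w B := by
  apply E_mono
  · intro i a; exact wt_nonneg (h0 i) (h1 i) a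
  · intro x; exact Set.indicator_le_indicator_of_subset h (fun _ => zero_le_one) x

lemma mu_empty (w : ι → ℝ) : mu w ∅ = 0 := by
  unfold mu E; simp

lemma mu_univ (w : ι → ℝ) : mu w Set.univ = 1 := by
  unfold mu
  rw [Set.indicator_univ]
  exact E_one _ (fun i => sum_wt _)

lemma mu_compl (w : ι → ℝ) (A : Set (ι → Bool)) : mu w Aᶜ = 1 - mu w A := by
  have h1 := E_sub (fun i => wt (w i)) (fun _ => 1) (A.indicator (fun _ => 1))
  have h2 : (fun x => (1:ℝ) - A.indicator (fun _ => 1) x) = Aᶜ.indicator (fun _ => 1) := by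
    funext x
    by_cases hx : x ∈ A
    · simp [hx]
    · simp [hx]
  rw [h2, E_one _ (fun i => sum_wt _)] at h1
  exact h1

lemma mu_update (w : ι → ℝ) (i : ι) (p : ℝ) (A : Set (ι → Bool)) :
    mu (update w i p) A = p * mu w {x | update x i true ∈ A}
      + (1 - p) * mu w {x | update x i false ∈ A} := by
  unfold mu
  have e : (fun k => wt (update w i p k)) = update (fun k => wt (w k)) i (wt p) := by
    funext k
    by_cases hk : k = i
    · subst hk; simp
    · simp [hk]
  rw [e, E_update (fun k => wt (w k)) i (wt p) _ (sum_wt (w i)), Fintype.sum_bool]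
  rfl

lemma mu_split (w : ι → ℝ) (i : ι) (A : Set (ι → Bool)) :
    mu w A = w i * mu w {x | update x i true ∈ A}
      + (1 - w i) * mu w {x | update x i false ∈ A} := by
  have := mu_update w i (w i) A
  rwa [update_eq_self] at this

lemma mu_update_of_indep (w : ι → ℝ) (i : ι) (p : ℝ) (A : Set (ι → Bool))
    (h : ∀ x a, (update x i a ∈ A ↔ x ∈ A)) :
    mu (update w i p) A = mu w A := by
  rw [mu_update]
  have e1 : {x | update x i true ∈ A} = A := by ext x; exact h x true
  have e2 : {x | update x i false ∈ A} = A := by ext x; exact h x false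
  rw [e1, e2]; ring

/-- section of a set at two coordinates. -/
def sec (i j : ι) (a b : Bool) (A : Set (ι → Bool)) : Set (ι → Bool) :=
  {x | update (update x i a) j b ∈ A}

lemma mu_two (w : ι → ℝ) (i j : ι) (p q : ℝ) (A : Set (ι → Bool)) :
    mu (update (update w i p) j q) A
      = F4 (mu w (sec i j true true A)) (mu w (sec i j true false A))
          (mu w (sec i j false true A)) (mu w (sec i j false false A)) p q := by
  rw [mu_update, mu_update, mu_update]
  unfold F4 sec
  simp only [Set.mem_ofPred_eq]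
  ring

lemma continuous_mu (A : Set (ι → Bool)) : Continuous (fun w : ι → ℝ => mu w A) := by
  unfold mu E
  apply continuous_finset_sum
  intro x _
  apply Continuous.mul _ continuous_const
  apply continuous_finset_prod
  intro i _
  cases hx : x i
  · simp only [wt_false]; fun_prop
  · simp only [wt_true]; fun_prop

end cube

end Pool.Agent.Y161.Cx
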