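import Pool.Agent.Y161.Cx.Product

/-!
Families of `r`-subsets of `range n` that avoid intersections of size `t`: cleaning and transfer to
the product space.
-/

set_option autoImplicit false

namespace Pool.Agent.Y161.Cx

open Function Finset

/-- cleaning: remove sets until every set of `U` that is covered is covered often. -/
lemma clean (U : Finset (Finset ℕ)) (D : ℕ) : ∀ (m : ℕ) (C : Finset (Finset ℕ)),
    (U.filter (fun S => ∃ F ∈ C, S ⊆ F)).card ≤ m →
    ∃ C' ⊆ C, C.card ≤ C'.card + D * m ∧
      ∀ S ∈ U, (∃ F ∈ C', S ⊆ F) → D < (C'.filter (fun F => S ⊆ F)).card := by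
  classical
  intro m
  induction m with
  | zero =>
    intro C hC
    refine ⟨C, Finset.Subset.refl _, by omega, ?_⟩
    intro S hS hex
    have h0 : U.filter (fun S => ∃ F ∈ C, S ⊆ F) = ∅ := by
      rw [← Finset.card_eq_zero]; omega
    have : S ∈ U.filter (fun S => ∃ F ∈ C, S ⊆ F) := by
      rw [Finset.mem_filter]; exact ⟨hS, hex⟩
    rw [h0] at this
    exact absurd this (Finset.notMem_empty _)
  | succ m ih =>
    intro C hC
    by_cases hall : ∀ S ∈ U, (∃ F ∈ C, S ⊆ F) → D < (C.filter (fun F => S ⊆ F)).card
    · exact ⟨C, Finset.Subset.refl _, by omega, hall⟩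
    · push Not at hall
      obtain ⟨S0, hS0, hex0, hcard0⟩ := hall
      set C1 := C.filter (fun F => ¬ S0 ⊆ F) with hC1
      have hsub : C1 ⊆ C := Finset.filter_subset _ _
      have hsplit : (C.filter (fun F => S0 ⊆ F)).card + C1.card = C.card :=
        Finset.card_filter_add_card_filter_not (fun F => S0 ⊆ F)
      have hlt : (U.filter (fun S => ∃ F ∈ C1, S ⊆ F)).card
          < (U.filter (fun S => ∃ F ∈ C, S ⊆ F)).card := by
        apply Finset.card_lt_card
        rw [Finset.ssubset_iff_subset_ne]
        constructor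
        · intro S hS
          rw [Finset.mem_filter] at hS ⊢
          obtain ⟨h1, F, hF, hSF⟩ := hS
          exact ⟨h1, F, hsub hF, hSF⟩
        · intro heq
          have : S0 ∈ U.filter (fun S => ∃ F ∈ C, S ⊆ F) := by
            rw [Finset.mem_filter]; exact ⟨hS0, hex0⟩
          rw [← heq, Finset.mem_filter] at this
          obtain ⟨_, F, hF, hSF⟩ := this
          rw [hC1, Finset.mem_filter] at hF
          exact hF.2 hSF
      obtain ⟨C', hC', hcard, hprop⟩ := ih C1 (by omega)
      refine ⟨C', hC'.trans hsub, ?_, hprop⟩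
      have : D * (m + 1) = D * m + D := by ring
      omega

lemma card_superset (n r : ℕ) (Q : Finset ℕ) (hQ : Q.card ≤ r) :
    ((powersetCard r (range n)).filter (fun F => Q ⊆ F)).card ≤ n ^ (r - Q.card) := by
  classical
  calc ((powersetCard r (range n)).filter (fun F => Q ⊆ F)).card
      ≤ (powersetCard (r - Q.card) (range n)).card := by
        apply Finset.card_le_card_of_injOn (fun F => F \ Q)
        · intro F hF
          rw [Finset.mem_coe, Finset.mem_filter, Finset.mem_powersetCard] at hF
          obtain ⟨⟨h1, h2⟩, h3⟩ := hF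
          rw [Finset.mem_coe, Finset.mem_powersetCard]
          refine ⟨Finset.sdiff_subset.trans h1, ?_⟩
          rw [Finset.card_sdiff_of_subset h3, h2]
        · intro F hF G hG hFG
          rw [Finset.mem_coe, Finset.mem_filter] at hF hG
          have e1 : F \ Q ∪ Q = F := Finset.sdiff_union_of_subset hF.2
          have e2 : G \ Q ∪ Q = G := Finset.sdiff_union_of_subset hG.2
          rw [← e1, ← e2]
          simp only at hFG
          rw [hFG]
    _ = n.choose (r - Q.card) := by rw [Finset.card_powersetCard, Finset.card_range]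
    _ ≤ n ^ (r - Q.card) := Nat.choose_le_pow _ _

/-- after cleaning, the pair is cross-`< t`-intersecting. -/
lemma cleaned {n r t : ℕ} (htr : t < r) {A B : Finset (Finset ℕ)}
    (hA : A ⊆ powersetCard r (range n)) (hB : B ⊆ powersetCard r (range n))
    (hAB : ∀ F ∈ A, ∀ G ∈ B, (F ∩ G).card ≠ t) :
    ∃ A' ⊆ A, A.card ≤ A'.card + r * n ^ (r - t - 1) * n ^ t ∧
      ∀ F ∈ A', ∀ G ∈ B, (F ∩ G).card < t := by
  classical
  set D := r * n ^ (r - t - 1) with hD
  have hU : ((powersetCard t (range n)).filter (fun S => ∃ F ∈ A, S ⊆ F)).card ≤ n ^ t := by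
    calc _ ≤ (powersetCard t (range n)).card := Finset.card_filter_le _ _
      _ = n.choose t := by rw [Finset.card_powersetCard, Finset.card_range]
      _ ≤ n ^ t := Nat.choose_le_pow _ _
  obtain ⟨A', hA', hcard, hprop⟩ := clean (powersetCard t (range n)) D (n ^ t) A hU
  refine ⟨A', hA', hcard, ?_⟩
  intro F hF G hG
  by_contra hcon
  push Not at hcon
  obtain ⟨S, hSsub, hScard⟩ := Finset.exists_subset_card_eq hcon
  have hSF : S ⊆ F := hSsub.trans Finset.inter_subset_left
  have hSG : S ⊆ G := hSsub.trans Finset.inter_subset_right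
  have hFr := hA (hA' hF)
  rw [Finset.mem_powersetCard] at hFr
  have hSU : S ∈ powersetCard t (range n) := by
    rw [Finset.mem_powersetCard]
    exact ⟨hSF.trans hFr.1, hScard⟩
  have h1 := hprop S hSU ⟨F, hF, hSF⟩
  have h2 : (A'.filter (fun F => S ⊆ F)) ⊆ (G \ S).biUnion (fun g =>
      (powersetCard r (range n)).filter (fun F => insert g S ⊆ F)) := by
    intro F' hF'
    rw [Finset.mem_filter] at hF'
    obtain ⟨hF'A, hSF'⟩ := hF'
    have h3 := hAB F' (hA' hF'A) G hG
    have h4 : S ⊆ F' ∩ G := Finset.subset_inter hSF' hSG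
    have h5 : S ≠ F' ∩ G := by
      intro heq
      rw [← heq] at h3
      exact h3 hScard
    obtain ⟨g, hg1, hg2⟩ := Finset.exists_of_ssubset (Finset.ssubset_iff_subset_ne.mpr ⟨h4, h5⟩)
    rw [Finset.mem_inter] at hg1
    rw [Finset.mem_biUnion]
    refine ⟨g, Finset.mem_sdiff.mpr ⟨hg1.2, hg2⟩, ?_⟩
    rw [Finset.mem_filter]
    exact ⟨hA (hA' hF'A), Finset.insert_subset hg1.1 hSF'⟩
  have h3 : (A'.filter (fun F => S ⊆ F)).card ≤ D := by
    calc (A'.filter (fun F => S ⊆ F)).card
        ≤ ((G \ S).biUnion (fun g =>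
            (powersetCard r (range n)).filter (fun F => insert g S ⊆ F))).card :=
          Finset.card_le_card h2
      _ ≤ (G \ S).card * n ^ (r - t - 1) := by
          apply Finset.card_biUnion_le_card_mul
          intro g hg
          have hgS : g ∉ S := (Finset.mem_sdiff.mp hg).2
          have hc : (insert g S).card = t + 1 := by
            rw [Finset.card_insert_of_notMem hgS, hScard]
          have := card_superset n r (insert g S) (by rw [hc]; omega)
          rw [hc] at this
          have e : r - (t + 1) = r - t - 1 := by omega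
          rwa [e] at this
      _ ≤ r * n ^ (r - t - 1) := by
          apply Nat.mul_le_mul_right
          have hGr := hB hG
          rw [Finset.mem_powersetCard] at hGr
          calc (G \ S).card ≤ G.card := Finset.card_le_card Finset.sdiff_subset
            _ = r := hGr.2
  omega

/-- image of a word -/
def im {r n : ℕ} (x : Fin r → Fin n) : Finset ℕ := univ.image (fun i => (x i).val)

lemma im_injective {r n : ℕ} {x : Fin r → Fin n} (h : (im x).card = r) : Injective x := by
  have h1 : Set.InjOn (fun i => (x i).val) ((univ : Finset (Fin r)) : Set (Fin r)) := by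
    apply Finset.injOn_of_card_image_eq
    rw [Finset.card_univ, Fintype.card_fin]
    exact h
  intro i j hij
  exact h1 (by simp) (by simp) (by simp only; rw [hij])

lemma hd_add_inter {r n : ℕ} (x y : Fin r → Fin n) (hx : Injective x) :
    r ≤ hd x y + (im x ∩ im y).card := by
  classical
  have h1 : hd x y = (univ.filter fun i => ¬ x i = y i).card := by
    unfold hd
    rw [Finset.card_filter]
    apply Finset.sum_congr rfl
    intro i _
    by_cases h : x i = y i <;> simp [h]
  have h2 : (univ.filter fun i => x i = y i).card ≤ (im x ∩ im y).card := by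
    apply Finset.card_le_card_of_injOn (fun i => (x i).val)
    · intro i hi
      rw [Finset.mem_coe, Finset.mem_filter] at hi
      rw [Finset.mem_coe, Finset.mem_inter]
      constructor
      · exact Finset.mem_image_of_mem _ (mem_univ i)
      · simp only
        rw [hi.2]
        exact Finset.mem_image_of_mem (fun i => (y i).val) (mem_univ i)
    · intro i _ j _ hij
      exact hx (Fin.ext hij)
  have h3 : (univ.filter fun i => x i = y i).card + (univ.filter fun i => ¬ x i = y i).card
      = (univ : Finset (Fin r)).card := Finset.card_filter_add_card_filter_not _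
  rw [Finset.card_univ, Fintype.card_fin] at h3
  omega

/-- each `r`-set is the image of at least `r!` words. -/
lemma factorial_le {r n : ℕ} (F : Finset ℕ) (hF : F ∈ powersetCard r (range n)) :
    r.factorial ≤ (univ.filter fun x : Fin r → Fin n => im x = F).card := by
  classical
  rw [Finset.mem_powersetCard] at hF
  obtain ⟨hsub, hcard⟩ := hF
  have hlt : ∀ i, F.orderEmbOfFin hcard i < n := by
    intro i
    exact Finset.mem_range.mp (hsub (F.orderEmbOfFin_mem hcard i))
  let φ : Equiv.Perm (Fin r) → (Fin r → Fin n) := fun σ i => ⟨F.orderEmbOfFin hcard (σ i), hlt _⟩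
  have h1 : (univ : Finset (Equiv.Perm (Fin r))).card = r.factorial := by
    rw [Finset.card_univ, Fintype.card_perm, Fintype.card_fin]
  rw [← h1]
  apply Finset.card_le_card_of_injOn φ
  · intro σ _
    rw [Finset.mem_coe, Finset.mem_filter]
    refine ⟨mem_univ _, ?_⟩
    unfold im
    have : (fun i => (φ σ i).val) = fun i => F.orderEmbOfFin hcard (σ i) := rfl
    rw [this]
    have e := F.image_orderEmbOfFin_univ hcard
    ext a
    rw [Finset.mem_image]
    constructor
    · rintro ⟨i, _, rfl⟩
      exact F.orderEmbOfFin_mem hcard _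
    · intro ha
      rw [← e, Finset.mem_image] at ha
      obtain ⟨j, _, rfl⟩ := ha
      exact ⟨σ.symm j, mem_univ _, by simp⟩
  · intro σ _ τ _ hστ
    ext i
    have h2 := congrFun hστ i
    have h3 : F.orderEmbOfFin hcard (σ i) = F.orderEmbOfFin hcard (τ i) := by
      have := congrArg Fin.val h2
      exact this
    exact congrArg Fin.val ((F.orderEmbOfFin hcard).injective h3)

/-- words with image in a family -/
def words (r n : ℕ) (A : Finset (Finset ℕ)) : Finset (Fin r → Fin n) :=
  univ.filter fun x => im x ∈ A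

lemma card_words {r n : ℕ} {A : Finset (Finset ℕ)} (hA : A ⊆ powersetCard r (range n)) :
    r.factorial * A.card ≤ (words r n A).card := by
  classical
  have h1 : (words r n A).card = ∑ F ∈ A, ((words r n A).filter fun x => im x = F).card := by
    apply Finset.card_eq_sum_card_fiberwise
    intro x hx
    unfold words at hx
    rw [Finset.mem_coe, Finset.mem_filter] at hx
    exact hx.2
  rw [h1, mul_comm, ← smul_eq_mul]
  apply Finset.card_nsmul_le_sum
  intro F hF
  refine (factorial_le F (hA hF)).trans ?_
  apply Finset.card_le_card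
  intro x hx
  rw [Finset.mem_filter] at hx ⊢
  refine ⟨?_, hx.2⟩
  unfold words
  rw [Finset.mem_filter]
  exact ⟨mem_univ _, by rw [hx.2]; exact hF⟩

/-- bound for cross-`< t`-intersecting families. -/
lemma cross_bound {n r t : ℕ} (hn : 0 < n) (htr : t < r) {V : ℝ}
    (hV : Bnd (r - t + 1) r V) {A B : Finset (Finset ℕ)}
    (hA : A ⊆ powersetCard r (range n)) (hB : B ⊆ powersetCard r (range n))
    (hAB : ∀ F ∈ A, ∀ G ∈ B, (F ∩ G).card < t) :
    (A.card : ℝ) * B.card * (r.factorial : ℝ) ^ 2 ≤ V * (n : ℝ) ^ (2 * r) := by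
  classical
  have h := card_bound hn hV (words r n A) (words r n B) (by
    intro x hx y hy
    unfold words at hx hy
    rw [Finset.mem_filter] at hx hy
    have hcx := (Finset.mem_powersetCard.mp (hA hx.2)).2
    have h1 := hd_add_inter x y (im_injective hcx)
    have h2 := hAB _ hx.2 _ hy.2
    omega)
  have hwA : (r.factorial : ℝ) * A.card ≤ (words r n A).card := by
    exact_mod_cast card_words (n := n) hA
  have hwB : (r.factorial : ℝ) * B.card ≤ (words r n B).card := by
    exact_mod_cast card_words (n := n) hB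
  calc (A.card : ℝ) * B.card * (r.factorial : ℝ) ^ 2
      = ((r.factorial : ℝ) * A.card) * ((r.factorial : ℝ) * B.card) := by ring
    _ ≤ ((words r n A).card : ℝ) * (words r n B).card :=
        mul_le_mul hwA hwB (by positivity) (by positivity)
    _ ≤ _ := h

/-- bound for `t`-cross-avoiding families. -/
lemma avoid_bound {n r t : ℕ} (hn : 0 < n) (htr : t < r) {V : ℝ}
    (hV : Bnd (r - t + 1) r V) {A B : Finset (Finset ℕ)}
    (hA : A ⊆ powersetCard r (range n)) (hB : B ⊆ powersetCard r (range n))
    (hAB : ∀ F ∈ A, ∀ G ∈ B, (F ∩ G).card ≠ t) :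
    (A.card : ℝ) * B.card ≤ V / (r.factorial : ℝ) ^ 2 * (n : ℝ) ^ (2 * r)
      + r * (n : ℝ) ^ (2 * r - 1) := by
  classical
  obtain ⟨A', hA', hcard, hlt⟩ := cleaned htr hA hB hAB
  have h1 := cross_bound hn htr hV (hA'.trans hA) hB hlt
  have hB' : (B.card : ℝ) ≤ (n : ℝ) ^ r := by
    have : B.card ≤ n ^ r := by
      calc B.card ≤ (powersetCard r (range n)).card := Finset.card_le_card hB
        _ = n.choose r := by rw [Finset.card_powersetCard, Finset.card_range]
        _ ≤ n ^ r := Nat.choose_le_pow _ _
    exact_mod_cast this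
  have hcard' : (A.card : ℝ) ≤ A'.card + r * (n : ℝ) ^ (r - 1) := by
    have e : r * n ^ (r - t - 1) * n ^ t = r * n ^ (r - 1) := by
      rw [mul_assoc, ← pow_add]
      congr 2
      omega
    rw [e] at hcard
    exact_mod_cast hcard
  have hfac : (0 : ℝ) < (r.factorial : ℝ) ^ 2 := by positivity
  have h2 : (A'.card : ℝ) * B.card ≤ V / (r.factorial : ℝ) ^ 2 * (n : ℝ) ^ (2 * r) := by
    rw [div_mul_eq_mul_div, le_div_iff₀ hfac]
    exact h1
  calc (A.card : ℝ) * B.card ≤ (A'.card + r * (n : ℝ) ^ (r - 1)) * B.card :=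
        mul_le_mul_of_nonneg_right hcard' (by positivity)
    _ = (A'.card : ℝ) * B.card + r * (n : ℝ) ^ (r - 1) * B.card := by ring
    _ ≤ V / (r.factorial : ℝ) ^ 2 * (n : ℝ) ^ (2 * r) + r * (n : ℝ) ^ (r - 1) * (n : ℝ) ^ r :=
        add_le_add h2 (mul_le_mul_of_nonneg_left hB' (by positivity))
    _ = _ := by
        rw [mul_assoc (r : ℝ), ← pow_add]
        congr 3
        omega

end Pool.Agent.Y161.Cx
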