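import Pool.Agent.Y161.Cx.Exp

/-!
Monotone pairs in the cube at Hamming distance at least `s`; strict growth of the optimum.
-/

set_option autoImplicit false

namespace Pool.Agent.Y161.Cx

open Function Finset

/-- Hamming distance. -/
def hd {ι Ω : Type} [Fintype ι] [DecidableEq Ω] (x y : ι → Ω) : ℕ :=
  ∑ i, if x i = y i then 0 else 1

/-- number of ones. -/
def cnt {ι : Type} [Fintype ι] (x : ι → Bool) : ℕ := ∑ i, (x i).toNat

lemma cnt_le_add {ι : Type} [Fintype ι] (x y : ι → Bool) : cnt x ≤ cnt y + hd x y := by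
  unfold cnt hd
  rw [← Finset.sum_add_distrib]
  apply Finset.sum_le_sum
  intro i _
  cases x i <;> cases y i <;> decide

lemma cnt_mono {ι : Type} [Fintype ι] {x y : ι → Bool} (h : x ≤ y) : cnt x ≤ cnt y := by
  unfold cnt
  apply Finset.sum_le_sum
  intro i _
  exact Bool.toNat_le_toNat (h i)

lemma cnt_cons {m : ℕ} (a : Bool) (y : Fin m → Bool) :
    cnt (Fin.cons a y : Fin (m + 1) → Bool) = a.toNat + cnt y := by
  unfold cnt
  rw [Fin.sum_univ_succ]
  simp

/-- monotone pairs at distance at least `s`. -/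
structure IsPair {ι : Type} [Fintype ι] (s : ℕ) (A B : Set (ι → Bool)) : Prop where
  up : ∀ x ∈ A, ∀ y, x ≤ y → y ∈ A
  down : ∀ x ∈ B, ∀ y, y ≤ x → y ∈ B
  far : ∀ x ∈ A, ∀ y ∈ B, s ≤ hd x y

/-- upper threshold family -/
def Th (r k : ℕ) : Set (Fin r → Bool) := {x | k ≤ cnt x}

/-- lower threshold family -/
def Tl (r l : ℕ) : Set (Fin r → Bool) := {x | cnt x ≤ l}

lemma mem_Th {r k : ℕ} {x : Fin r → Bool} : x ∈ Th r k ↔ k ≤ cnt x := Iff.rfl
lemma mem_Tl {r l : ℕ} {x : Fin r → Bool} : x ∈ Tl r l ↔ cnt x ≤ l := Iff.rfl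

lemma Tl_eq (r l : ℕ) : Tl r l = (Th r (l + 1))ᶜ := by
  ext x
  rw [Set.mem_compl_iff, mem_Th, mem_Tl]
  omega

lemma isPair_threshold {r s k l : ℕ} (h : l + s ≤ k) : IsPair s (Th r k) (Tl r l) where
  up := by
    intro x hx y hxy
    exact le_trans hx (cnt_mono hxy)
  down := by
    intro x hx y hxy
    exact le_trans (cnt_mono hxy) hx
  far := by
    intro x hx y hy
    have := cnt_le_add x y
    rw [mem_Th] at hx
    rw [mem_Tl] at hy
    omega

/-- `V` bounds all products. -/
def Bnd (s r : ℕ) (V : ℝ) : Prop :=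
  ∀ (A B : Set (Fin r → Bool)) (w : Fin r → ℝ), IsPair s A B → (∀ i, 0 ≤ w i) → (∀ i, w i ≤ 1) →
    mu w A * mu w B ≤ V

/-- uniform thresholds `(k, l, p)` are optimal. -/
structure Opt (r s k l : ℕ) (p : ℝ) : Prop where
  hkl : l + s ≤ k
  hkr : k ≤ r
  hp0 : 0 < p
  hp1 : p < 1
  bnd : Bnd s r (mu (fun _ => p) (Th r k) * mu (fun _ => p) (Tl r l))

lemma mu_insertNth {m : ℕ} (i : Fin (m + 1)) (w : Fin (m + 1) → ℝ)
    (A : Set (Fin (m + 1) → Bool)) :
    mu w A = w i * mu (fun j => w (i.succAbove j)) {y | i.insertNth true y ∈ A}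
      + (1 - w i) * mu (fun j => w (i.succAbove j)) {y | i.insertNth false y ∈ A} := by
  unfold mu E
  rw [← Equiv.sum_comp (Fin.insertNthEquiv (fun _ => Bool) i), Fintype.sum_prod_type,
    Fintype.sum_bool, Finset.mul_sum, Finset.mul_sum]
  congr 1
  · apply Finset.sum_congr rfl
    intro y _
    rw [Fin.prod_univ_succAbove _ i]
    simp only [Fin.insertNthEquiv_apply, Fin.insertNth_apply_same, Fin.insertNth_apply_succAbove,
      wt_true]
    rw [mul_assoc]
    rfl
  · apply Finset.sum_congr rfl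
    intro y _
    rw [Fin.prod_univ_succAbove _ i]
    simp only [Fin.insertNthEquiv_apply, Fin.insertNth_apply_same, Fin.insertNth_apply_succAbove,
      wt_false]
    rw [mul_assoc]
    rfl

lemma mu_cons {m : ℕ} (q : ℝ) (w : Fin m → ℝ) (A : Set (Fin (m + 1) → Bool)) :
    mu (Fin.cons q w : Fin (m + 1) → ℝ) A
      = q * mu w {y | (Fin.cons true y : Fin (m + 1) → Bool) ∈ A}
      + (1 - q) * mu w {y | (Fin.cons false y : Fin (m + 1) → Bool) ∈ A} := by
  have h := mu_insertNth 0 (Fin.cons q w : Fin (m + 1) → ℝ) A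
  have e1 : (fun j => (Fin.cons q w : Fin (m + 1) → ℝ) ((0 : Fin (m + 1)).succAbove j)) = w := by
    funext j
    simp
  rw [e1] at h
  rw [h]
  simp only [Fin.cons_zero, Fin.insertNth_zero']

/-- tail probability -/
noncomputable def T (m k : ℕ) (p : ℝ) : ℝ := mu (fun _ => p) (Th m k)

lemma mu_cons_Th (m k : ℕ) (q p : ℝ) :
    mu (Fin.cons q (fun _ => p) : Fin (m + 1) → ℝ) (Th (m + 1) (k + 1))
      = q * T m k p + (1 - q) * T m (k + 1) p := by
  rw [mu_cons]
  have e1 : {y | (Fin.cons true y : Fin (m + 1) → Bool) ∈ Th (m + 1) (k + 1)} = Th m k := by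
    ext y
    show k + 1 ≤ cnt (Fin.cons true y : Fin (m + 1) → Bool) ↔ k ≤ cnt y
    rw [cnt_cons]
    simp only [Bool.toNat_true]
    omega
  have e2 : {y | (Fin.cons false y : Fin (m + 1) → Bool) ∈ Th (m + 1) (k + 1)}
      = Th m (k + 1) := by
    ext y
    show k + 1 ≤ cnt (Fin.cons false y : Fin (m + 1) → Bool) ↔ k + 1 ≤ cnt y
    rw [cnt_cons]
    simp only [Bool.toNat_false]
    omega
  rw [e1, e2]
  rfl

lemma const_eq_cons (m : ℕ) (p : ℝ) :
    (fun _ : Fin (m + 1) => p) = (Fin.cons p (fun _ => p) : Fin (m + 1) → ℝ) := by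
  funext i
  refine Fin.cases ?_ ?_ i
  · simp
  · intro j; simp

lemma T_succ (m k : ℕ) (p : ℝ) : T (m + 1) (k + 1) p = p * T m k p + (1 - p) * T m (k + 1) p := by
  unfold T
  rw [const_eq_cons m p, mu_cons_Th]
  rfl

lemma T_zero (m : ℕ) (p : ℝ) : T m 0 p = 1 := by
  unfold T
  have : Th m 0 = Set.univ := by
    ext x; simp [mem_Th]
  rw [this, mu_univ]

lemma T_of_lt (m k : ℕ) (h : m < k) (p : ℝ) : T m k p = 0 := by
  unfold T
  have : Th m k = ∅ := by
    ext x
    rw [mem_Th]
    simp only [Set.mem_empty_iff_false, iff_false, not_le]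
    refine lt_of_le_of_lt ?_ h
    unfold cnt
    calc ∑ i, (x i).toNat ≤ ∑ _i : Fin m, 1 := by
          apply Finset.sum_le_sum
          intro i _
          exact Bool.toNat_le _
      _ = m := by simp
  rw [this, mu_empty]

lemma T_diff (m : ℕ) (p : ℝ) : ∀ k, T m k p - T m (k + 1) p
    = (m.choose k : ℝ) * p ^ k * (1 - p) ^ (m - k) := by
  induction m with
  | zero =>
    intro k
    cases k with
    | zero => rw [T_zero, T_of_lt 0 1 (by norm_num)]; simp
    | succ k => rw [T_of_lt 0 (k + 1) (by omega), T_of_lt 0 (k + 1 + 1) (by omega)]; simp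
  | succ m ih =>
    intro k
    cases k with
    | zero =>
      rw [T_zero, T_succ, T_zero]
      have := ih 0
      rw [T_zero] at this
      simp only [Nat.choose_zero_right, Nat.cast_one, pow_zero, mul_one, Nat.sub_zero, one_mul]
        at this ⊢
      rw [pow_succ, ← this]; simp only [zero_add]; ring
    | succ k =>
      rw [T_succ, T_succ]
      have h1 := ih k
      have h2 := ih (k + 1)
      have e : p * T m k p + (1 - p) * T m (k + 1) p
          - (p * T m (k + 1) p + (1 - p) * T m (k + 1 + 1) p)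
          = p * (T m k p - T m (k + 1) p) + (1 - p) * (T m (k + 1) p - T m (k + 1 + 1) p) := by
        ring
      rw [e, h1, h2, Nat.choose_succ_succ, Nat.cast_add]
      have e2 : m + 1 - (k + 1) = m - k := by omega
      rw [e2]
      rcases lt_or_ge k m with hk | hk
      · have e3 : m - k = (m - (k + 1)) + 1 := by omega
        rw [e3, pow_succ, pow_succ]; ring
      · rw [Nat.choose_eq_zero_of_lt (show m < k + 1 by omega)]
        simp only [Nat.cast_zero, zero_mul, mul_zero, add_zero]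
        rw [pow_succ]; ring

lemma T_nonneg (m k : ℕ) {p : ℝ} (h0 : 0 ≤ p) (h1 : p ≤ 1) : 0 ≤ T m k p :=
  mu_nonneg (fun _ => h0) (fun _ => h1) _

lemma T_pos (m k : ℕ) (hk : k ≤ m) {p : ℝ} (h0 : 0 < p) (h1 : p < 1) : 0 < T m k p := by
  have h := T_diff m p k
  have h2 : 0 ≤ T m (k + 1) p := T_nonneg _ _ h0.le h1.le
  have h3 : 0 < (m.choose k : ℝ) * p ^ k * (1 - p) ^ (m - k) := by
    have : 0 < (m.choose k : ℝ) := by exact_mod_cast Nat.choose_pos hk
    have h1' : 0 < 1 - p := by linarith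
    positivity
  linarith

lemma mu_Tl (r l : ℕ) (w : Fin r → ℝ) : mu w (Tl r l) = 1 - mu w (Th r (l + 1)) := by
  rw [Tl_eq, mu_compl]

/-- first order condition. -/
lemma Opt.first_order {m s k l : ℕ} {p : ℝ} (h : Opt (m + 1) s (k + 1) l p) :
    (T m k p - T m (k + 1) p) * (1 - T (m + 1) (l + 1) p)
      = (T m l p - T m (l + 1) p) * T (m + 1) (k + 1) p := by
  have h0 : 0 < min p (1 - p) := lt_min h.hp0 (by linarith [h.hp1])
  have := Cx.first_order (X := T (m + 1) (k + 1) p) (Y := 1 - T (m + 1) (l + 1) p)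
    (α := T m k p - T m (k + 1) p) (β := -(T m l p - T m (l + 1) p)) h0 (by
      intro δ hδ
      obtain ⟨d1, d2⟩ := abs_le.mp hδ
      have d3 : min p (1 - p) ≤ p := min_le_left _ _
      have d4 : min p (1 - p) ≤ 1 - p := min_le_right _ _
      have := h.bnd (Th (m + 1) (k + 1)) (Tl (m + 1) l)
        (Fin.cons (p + δ) (fun _ => p) : Fin (m + 1) → ℝ) (isPair_threshold h.hkl)
        (by
          intro i
          refine Fin.cases ?_ ?_ i
          · simp only [Fin.cons_zero]; linarith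
          · intro j; simp only [Fin.cons_succ]; exact h.hp0.le)
        (by
          intro i
          refine Fin.cases ?_ ?_ i
          · simp only [Fin.cons_zero]; linarith
          · intro j; simp only [Fin.cons_succ]; exact h.hp1.le)
      rw [mu_Tl, mu_Tl, mu_cons_Th, mu_cons_Th] at this
      have e1 : mu (fun _ => p) (Th (m + 1) (k + 1)) = T (m + 1) (k + 1) p := rfl
      have e2 : mu (fun _ => p) (Th (m + 1) (l + 1)) = T (m + 1) (l + 1) p := rfl
      rw [e1, e2] at this
      have e3 : (p + δ) * T m k p + (1 - (p + δ)) * T m (k + 1) p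
          = T (m + 1) (k + 1) p + δ * (T m k p - T m (k + 1) p) := by
        rw [T_succ]; ring
      have e4 : 1 - ((p + δ) * T m l p + (1 - (p + δ)) * T m (l + 1) p)
          = 1 - T (m + 1) (l + 1) p + δ * (-(T m l p - T m (l + 1) p)) := by
        rw [T_succ]; ring
      rw [e3, e4] at this
      exact this)
  linarith

/-- strict growth. -/
lemma Opt.growth {m s k l : ℕ} {p : ℝ} (hs : 2 ≤ s) (h : Opt (m + 1) s k l p) {V : ℝ}
    (hV : Bnd s (m + 2) V) :
    mu (fun _ => p) (Th (m + 1) k) * mu (fun _ => p) (Tl (m + 1) l) < V := by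
  obtain ⟨k, rfl⟩ : ∃ k', k = k' + 1 := ⟨k - 1, by have := h.hkl; omega⟩
  have hkl := h.hkl
  have hkr := h.hkr
  have hp0 := h.hp0
  have hp1 := h.hp1
  have hp1' : 0 < 1 - p := by linarith
  set α := T (m + 1) (k + 1) p with hα
  set β := 1 - T (m + 1) (l + 1) p with hβ
  have hαpos : 0 < α := T_pos _ _ hkr hp0 hp1
  have hfo := h.first_order
  set u := T (m + 1) (k + 1) p - T (m + 1) (k + 1 + 1) p with hu
  set v := T (m + 1) (l + 1) p - T (m + 1) (l + 1 + 1) p with hv
  have hu' : u * ((k : ℝ) + 1) = ((m : ℝ) + 1) * p * (T m k p - T m (k + 1) p) := by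
    rw [hu, T_diff, T_diff]
    have hch : (m + 1).choose (k + 1) * (k + 1) = (m + 1) * m.choose k :=
      (Nat.add_one_mul_choose_eq m k).symm
    have hch' : ((m + 1).choose (k + 1) : ℝ) * ((k : ℝ) + 1) = ((m : ℝ) + 1) * (m.choose k : ℝ) := by
      exact_mod_cast hch
    have e2 : m + 1 - (k + 1) = m - k := by omega
    rw [e2, pow_succ]
    calc ((m + 1).choose (k + 1) : ℝ) * (p ^ k * p) * (1 - p) ^ (m - k) * ((k : ℝ) + 1)
        = (((m + 1).choose (k + 1) : ℝ) * ((k : ℝ) + 1)) * (p ^ k * p) * (1 - p) ^ (m - k) := by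
          ring
      _ = _ := by rw [hch']; ring
  have hv' : v * ((l : ℝ) + 1) = ((m : ℝ) + 1) * p * (T m l p - T m (l + 1) p) := by
    rw [hv, T_diff, T_diff]
    have hch : (m + 1).choose (l + 1) * (l + 1) = (m + 1) * m.choose l :=
      (Nat.add_one_mul_choose_eq m l).symm
    have hch' : ((m + 1).choose (l + 1) : ℝ) * ((l : ℝ) + 1) = ((m : ℝ) + 1) * (m.choose l : ℝ) := by
      exact_mod_cast hch
    have e2 : m + 1 - (l + 1) = m - l := by omega
    rw [e2, pow_succ]
    calc ((m + 1).choose (l + 1) : ℝ) * (p ^ l * p) * (1 - p) ^ (m - l) * ((l : ℝ) + 1)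
        = (((m + 1).choose (l + 1) : ℝ) * ((l : ℝ) + 1)) * (p ^ l * p) * (1 - p) ^ (m - l) := by
          ring
      _ = _ := by rw [hch']; ring
  have hupos : 0 < u := by
    rw [hu, T_diff]
    have : 0 < ((m + 1).choose (k + 1) : ℝ) := by
      exact_mod_cast Nat.choose_pos hkr
    positivity
  have hvpos : 0 < v := by
    rw [hv, T_diff]
    have : 0 < ((m + 1).choose (l + 1) : ℝ) := by
      exact_mod_cast Nat.choose_pos (show l + 1 ≤ m + 1 by omega)
    positivity
  have hcmp : β * u * ((k : ℝ) + 1) = α * v * ((l : ℝ) + 1) := by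
    calc β * u * ((k : ℝ) + 1) = β * (u * ((k : ℝ) + 1)) := by ring
      _ = ((m : ℝ) + 1) * p * ((T m k p - T m (k + 1) p) * β) := by rw [hu']; ring
      _ = ((m : ℝ) + 1) * p * ((T m l p - T m (l + 1) p) * α) := by rw [hfo]
      _ = α * (v * ((l : ℝ) + 1)) := by rw [hv']; ring
      _ = _ := by ring
  have hkl' : (l : ℝ) + 1 < (k : ℝ) + 1 := by
    have : l + 1 < k + 1 := by omega
    exact_mod_cast this
  have hc : 0 < α * v - β * u := by
    have h1 : β * u * ((k : ℝ) + 1) < α * v * ((k : ℝ) + 1) := by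
      rw [hcmp]
      exact mul_lt_mul_of_pos_left hkl' (mul_pos hαpos hvpos)
    have := lt_of_mul_lt_mul_right h1 (by positivity)
    linarith
  set c := α * v - β * u with hcdef
  set δ : ℝ := c / (c + u * v + 1) with hδ
  have hden : 0 < c + u * v + 1 := by positivity
  have hδ0 : 0 < δ := div_pos hc hden
  have hδ1 : δ ≤ 1 := by
    rw [hδ, div_le_one hden]
    have : 0 < u * v := mul_pos hupos hvpos
    linarith
  have hδc : δ * (u * v) < c := by
    rw [hδ, div_mul_eq_mul_div, div_lt_iff₀ hden]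
    have : 0 < u * v := mul_pos hupos hvpos
    nlinarith
  have hb := hV (Th (m + 2) (k + 1 + 1)) (Tl (m + 2) (l + 1))
    (Fin.cons (1 - δ) (fun _ => p) : Fin (m + 2) → ℝ) (isPair_threshold (by omega))
    (by
      intro i
      refine Fin.cases ?_ ?_ i
      · simp only [Fin.cons_zero]; linarith
      · intro j; simp only [Fin.cons_succ]; exact hp0.le)
    (by
      intro i
      refine Fin.cases ?_ ?_ i
      · simp only [Fin.cons_zero]; linarith
      · intro j; simp only [Fin.cons_succ]; exact hp1.le)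
  rw [mu_Tl, mu_cons_Th (m + 1) (k + 1), mu_cons_Th (m + 1) (l + 1)] at hb
  have e1 : (1 - δ) * T (m + 1) (k + 1) p + (1 - (1 - δ)) * T (m + 1) (k + 1 + 1) p
      = α - δ * u := by rw [hu, hα]; ring
  have e2 : 1 - ((1 - δ) * T (m + 1) (l + 1) p + (1 - (1 - δ)) * T (m + 1) (l + 1 + 1) p)
      = β + δ * v := by rw [hv, hβ]; ring
  rw [e1, e2] at hb
  rw [mu_Tl]
  have e3 : mu (fun _ => p) (Th (m + 1) (k + 1)) * (1 - mu (fun _ => p) (Th (m + 1) (l + 1)))
      = α * β := rfl
  rw [e3]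
  have e4 : (α - δ * u) * (β + δ * v) = α * β + δ * (c - δ * (u * v)) := by
    rw [hcdef]; ring
  have : 0 < δ * (c - δ * (u * v)) := mul_pos hδ0 (by linarith)
  linarith

/-! sections along one coordinate -/

lemma insertNth_le {m : ℕ} (i : Fin (m + 1)) (a : Bool) {y z : Fin m → Bool} (h : y ≤ z) :
    (i.insertNth a y : Fin (m + 1) → Bool) ≤ i.insertNth a z := by
  intro j
  rcases Fin.eq_self_or_eq_succAbove i j with hj | ⟨j', rfl⟩
  · subst hj; simp
  · simp only [Fin.insertNth_apply_succAbove]; exact h j'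

lemma hd_insertNth {m : ℕ} (i : Fin (m + 1)) (a : Bool) (y z : Fin m → Bool) :
    hd (i.insertNth a y : Fin (m + 1) → Bool) (i.insertNth a z) = hd y z := by
  unfold hd
  rw [Fin.sum_univ_succAbove _ i]
  simp

lemma IsPair.section {m s : ℕ} {A B : Set (Fin (m + 1) → Bool)} (h : IsPair s A B)
    (i : Fin (m + 1)) (a : Bool) :
    IsPair s {y | (i.insertNth a y : Fin (m + 1) → Bool) ∈ A}
      {y | (i.insertNth a y : Fin (m + 1) → Bool) ∈ B} where
  up := by
    intro x hx y hxy
    exact h.up _ hx _ (insertNth_le i a hxy)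
  down := by
    intro x hx y hxy
    exact h.down _ hx _ (insertNth_le i a hxy)
  far := by
    intro x hx y hy
    have := h.far _ hx _ hy
    rwa [hd_insertNth] at this

lemma hd_le {m : ℕ} (x y : Fin m → Bool) : hd x y ≤ m := by
  unfold hd
  calc ∑ i, (if x i = y i then 0 else 1) ≤ ∑ _i : Fin m, 1 := by
        apply Finset.sum_le_sum
        intro i _
        split_ifs <;> omega
    _ = m := by simp

/-- the bound for lower dimension is strictly smaller. -/
lemma lower_lt {m s : ℕ} (hs : 2 ≤ s) (hsm : s ≤ m + 1)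
    (IH : s ≤ m → ∃ k l p, Opt m s k l p) {V : ℝ} (hV : Bnd s (m + 1) V)
    (A B : Set (Fin m → Bool)) (w : Fin m → ℝ) (hAB : IsPair s A B)
    (h0 : ∀ i, 0 ≤ w i) (h1 : ∀ i, w i ≤ 1) : mu w A * mu w B < V := by
  rcases Nat.lt_or_ge m s with hms | hms
  · -- `s = m + 1`
    have hV0 : 0 < V := by
      have hb := hV (Th (m + 1) (m + 1)) (Tl (m + 1) 0) (fun _ => 1 / 2)
        (isPair_threshold (by omega)) (fun _ => by norm_num) (fun _ => by norm_num)
      rw [mu_Tl] at hb
      have e1 : 0 < mu (fun _ => (1 / 2 : ℝ)) (Th (m + 1) (m + 1)) :=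
        T_pos (m + 1) (m + 1) le_rfl (by norm_num) (by norm_num)
      have e2 : 0 < 1 - mu (fun _ => (1 / 2 : ℝ)) (Th (m + 1) (0 + 1)) := by
        have h := T_diff (m + 1) (1 / 2) 0
        rw [T_zero] at h
        have : 0 < ((m + 1).choose 0 : ℝ) * (1 / 2 : ℝ) ^ 0 * (1 - 1 / 2 : ℝ) ^ (m + 1 - 0) := by
          simp only [Nat.choose_zero_right, Nat.cast_one, pow_zero, mul_one, Nat.sub_zero, one_mul]
          positivity
        rw [← h] at this
        exact this
      exact lt_of_lt_of_le (mul_pos e1 e2) hb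
    have : A = ∅ ∨ B = ∅ := by
      by_contra hcon
      push Not at hcon
      obtain ⟨hA, hB⟩ := hcon
      obtain ⟨x, hx⟩ := hA
      obtain ⟨y, hy⟩ := hB
      have h1 := hAB.far x hx y hy
      have h2 := hd_le x y
      omega
    rcases this with h | h
    · rw [h, mu_empty, zero_mul]; exact hV0
    · rw [h, mu_empty, mul_zero]; exact hV0
  · obtain ⟨k, l, p, hopt⟩ := IH hms
    obtain ⟨m', rfl⟩ : ∃ m', m = m' + 1 := ⟨m - 1, by omega⟩
    exact lt_of_le_of_lt (hopt.bnd A B w hAB h0 h1) (hopt.growth hs hV)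

/-- at a boundary weight the product is strictly below every upper bound. -/
lemma boundary_lt {m s : ℕ} (hs : 2 ≤ s) (hsm : s ≤ m + 1)
    (IH : s ≤ m → ∃ k l p, Opt m s k l p) {V : ℝ} (hV : Bnd s (m + 1) V)
    (A B : Set (Fin (m + 1) → Bool)) (w : Fin (m + 1) → ℝ) (hAB : IsPair s A B)
    (h0 : ∀ i, 0 ≤ w i) (h1 : ∀ i, w i ≤ 1) (i : Fin (m + 1)) (hi : w i = 0 ∨ w i = 1) :
    mu w A * mu w B < V := by
  rw [mu_insertNth i w A, mu_insertNth i w B]
  rcases hi with hi | hi
  · rw [hi]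
    simp only [zero_mul, zero_add, sub_zero, one_mul]
    exact lower_lt hs hsm IH hV _ _ _ (hAB.section i false) (fun _ => h0 _) (fun _ => h1 _)
  · rw [hi]
    simp only [sub_self, zero_mul, add_zero, one_mul]
    exact lower_lt hs hsm IH hV _ _ _ (hAB.section i true) (fun _ => h0 _) (fun _ => h1 _)

end Pool.Agent.Y161.Cx
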