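import Pool.Agent.Y161.Cx.PairReal

/-!
Two-coordinate exchange lemma, in terms of the four section values.
-/

set_option autoImplicit false

namespace Pool.Agent.Y161.Cx

/-- bilinear interpolation of the four section values. -/
def F4 (X11 X10 X01 X00 p q : ℝ) : ℝ :=
  p * q * X11 + p * (1 - q) * X10 + (1 - p) * q * X01 + (1 - p) * (1 - q) * X00

/-- main case: `P10` and `P01` are in opposite position. -/
lemma pair_aux (X11 X10 X01 X00 Y11 Y10 Y01 Y00 p q : ℝ)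
    (hp0 : 0 < p) (hp1 : p < 1) (hq0 : 0 < q) (hq1 : q < 1)
    (hX1 : X10 ≤ X11) (hX0 : X00 ≤ X01)
    (hX : 0 < F4 X11 X10 X01 X00 p q)
    (hd : X01 < X10) (hd' : Y10 < Y01)
    (H0 : ∀ p' q', 0 ≤ p' → p' ≤ 1 → 0 ≤ q' → q' ≤ 1 →
      (p' = 0 ∨ p' = 1 ∨ q' = 0 ∨ q' = 1) →
      F4 X11 X10 X01 X00 p' q' * F4 Y11 Y10 Y01 Y00 p' q'
        < F4 X11 X10 X01 X00 p q * F4 Y11 Y10 Y01 Y00 p q)
    (H1 : ∀ p' q', 0 ≤ p' → p' ≤ 1 → 0 ≤ q' → q' ≤ 1 →
      F4 X11 X10 X10 X00 p' q' * F4 Y11 Y10 Y10 Y00 p' q'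
        ≤ F4 X11 X10 X01 X00 p q * F4 Y11 Y10 Y01 Y00 p q)
    (H1b : ∀ p' q', 0 ≤ p' → p' ≤ 1 → 0 ≤ q' → q' ≤ 1 →
      (p' = 0 ∨ p' = 1 ∨ q' = 0 ∨ q' = 1) →
      F4 X11 X10 X10 X00 p' q' * F4 Y11 Y10 Y10 Y00 p' q'
        < F4 X11 X10 X01 X00 p q * F4 Y11 Y10 Y01 Y00 p q)
    (H2 : ∀ p' q', 0 ≤ p' → p' ≤ 1 → 0 ≤ q' → q' ≤ 1 →
      F4 X11 X01 X01 X00 p' q' * F4 Y11 Y01 Y01 Y00 p' q'
        ≤ F4 X11 X10 X01 X00 p q * F4 Y11 Y10 Y01 Y00 p q)
    (H2b : ∀ p' q', 0 ≤ p' → p' ≤ 1 → 0 ≤ q' → q' ≤ 1 →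
      (p' = 0 ∨ p' = 1 ∨ q' = 0 ∨ q' = 1) →
      F4 X11 X01 X01 X00 p' q' * F4 Y11 Y01 Y01 Y00 p' q'
        < F4 X11 X10 X01 X00 p q * F4 Y11 Y10 Y01 Y00 p q) :
    False := by
  set OX := F4 X11 X10 X01 X00 p q with hOX
  set OY := F4 Y11 Y10 Y01 Y00 p q with hOY
  set d := X10 - X01 with hdd
  set d' := Y01 - Y10 with hdd'
  set x1 := X11 - X10 with hx1
  set x0 := X10 - X00 with hx0
  set y1 := Y10 - Y11 with hy1
  set y0 := Y00 - Y10 with hy0
  have hdpos : 0 < d := by rw [hdd]; linarith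
  have hd'pos : 0 < d' := by rw [hdd']; linarith
  have hbd : ∀ p' q' σ τ : ℝ, p' * q' = σ → (1 - p') * (1 - q') = τ → (σ = 0 ∨ τ = 0) →
      (p' = 0 ∨ p' = 1 ∨ q' = 0 ∨ q' = 1) := by
    intro p' q' σ τ h1 h2 h3
    rcases h3 with h3 | h3
    · rw [h3] at h1
      rcases mul_eq_zero.mp h1 with h | h
      · exact Or.inl h
      · exact Or.inr (Or.inr (Or.inl h))
    · rw [h3] at h2
      rcases mul_eq_zero.mp h2 with h | h
      · exact Or.inr (Or.inl (by linarith))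
      · exact Or.inr (Or.inr (Or.inr (by linarith)))
  -- Z_1 in terms of σ, τ
  have Z1X : ∀ p' q' : ℝ, F4 X11 X10 X10 X00 p' q' = OX + ((1 - p) * q * d
      - (p * q - p' * q') * x1 - ((1 - p') * (1 - q') - (1 - p) * (1 - q)) * x0) := by
    intro p' q'
    rw [hOX, hdd, hx1, hx0]; unfold F4; ring
  have Z1Y : ∀ p' q' : ℝ, F4 Y11 Y10 Y10 Y00 p' q' = OY + (-((1 - p) * q * d')
      + (p * q - p' * q') * y1 + ((1 - p') * (1 - q') - (1 - p) * (1 - q)) * y0) := by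
    intro p' q'
    rw [hOY, hdd', hy1, hy0]; unfold F4; ring
  have Z2X : ∀ p' q' : ℝ, F4 X11 X01 X01 X00 p' q' = OX + (-(p * (1 - q) * d)
      + (p' * q' - p * q) * (x1 + d) + ((1 - p) * (1 - q) - (1 - p') * (1 - q')) * (x0 - d)) := by
    intro p' q'
    rw [hOX, hdd, hx1, hx0]; unfold F4; ring
  have Z2Y : ∀ p' q' : ℝ, F4 Y11 Y01 Y01 Y00 p' q' = OY + (p * (1 - q) * d'
      - (p' * q' - p * q) * (y1 + d') - ((1 - p) * (1 - q) - (1 - p') * (1 - q')) * (y0 - d')) := by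
    intro p' q'
    rw [hOY, hdd', hy1, hy0]; unfold F4; ring
  have hcore := core p q x1 x0 d (y1 * d - x1 * d') (y0 * d - x0 * d') hp0 hp1 hq0 hq1
    (by rw [hx1]; linarith) hdpos (by rw [hdd, hx0]; linarith)
    (by
      intro σ τ hal heq
      obtain ⟨p', q', a1, a2, a3, a4, h1, h2⟩ := hal.exists_pq
      have hX' := Z1X p' q'
      have hY' := Z1Y p' q'
      rw [h1, h2] at hX' hY'
      have eX : F4 X11 X10 X10 X00 p' q' = OX := by rw [hX']; linarith
      have hh := H1 p' q' a1 a2 a3 a4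
      rw [eX] at hh
      have hh2 := le_of_mul_le_mul_left hh hX
      rw [hY'] at hh2
      have e : (p * q - σ) * (y1 * d - x1 * d') + (τ - (1 - p) * (1 - q)) * (y0 * d - x0 * d')
          = d * (-((1 - p) * q * d') + (p * q - σ) * y1 + (τ - (1 - p) * (1 - q)) * y0)
            + d' * ((1 - p) * q * d
              - ((p * q - σ) * x1 + (τ - (1 - p) * (1 - q)) * x0)) := by ring
      rw [e, heq, sub_self, mul_zero, add_zero]
      exact mul_nonpos_of_nonneg_of_nonpos hdpos.le (by linarith))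
    (by
      intro σ τ hal hb heq
      obtain ⟨p', q', a1, a2, a3, a4, h1, h2⟩ := hal.exists_pq
      have hX' := Z1X p' q'
      have hY' := Z1Y p' q'
      have hh := H1b p' q' a1 a2 a3 a4 (hbd p' q' σ τ h1 h2 hb)
      rw [h1, h2] at hX' hY'
      have eX : F4 X11 X10 X10 X00 p' q' = OX := by rw [hX']; linarith
      rw [eX] at hh
      have hh2 := lt_of_mul_lt_mul_left hh hX.le
      rw [hY'] at hh2
      have e : (p * q - σ) * (y1 * d - x1 * d') + (τ - (1 - p) * (1 - q)) * (y0 * d - x0 * d')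
          = d * (-((1 - p) * q * d') + (p * q - σ) * y1 + (τ - (1 - p) * (1 - q)) * y0)
            + d' * ((1 - p) * q * d
              - ((p * q - σ) * x1 + (τ - (1 - p) * (1 - q)) * x0)) := by ring
      rw [e, heq, sub_self, mul_zero, add_zero]
      exact mul_neg_of_pos_of_neg hdpos (by linarith))
    (by
      intro σ τ hal heq
      obtain ⟨p', q', a1, a2, a3, a4, h1, h2⟩ := hal.exists_pq
      have hX' := Z2X p' q'
      have hY' := Z2Y p' q'
      rw [h1, h2] at hX' hY'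
      have eX : F4 X11 X01 X01 X00 p' q' = OX := by rw [hX']; linarith
      have hh := H2 p' q' a1 a2 a3 a4
      rw [eX] at hh
      have hh2 := le_of_mul_le_mul_left hh hX
      rw [hY'] at hh2
      have e : -(σ - p * q) * (y1 * d - x1 * d') - ((1 - p) * (1 - q) - τ) * (y0 * d - x0 * d')
          = d * (p * (1 - q) * d' - (σ - p * q) * (y1 + d')
              - ((1 - p) * (1 - q) - τ) * (y0 - d'))
            + d' * (((σ - p * q) * (x1 + d) + ((1 - p) * (1 - q) - τ) * (x0 - d))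
              - p * (1 - q) * d) := by ring
      rw [e, heq, sub_self, mul_zero, add_zero]
      exact mul_nonpos_of_nonneg_of_nonpos hdpos.le (by linarith))
    (by
      intro σ τ hal hb heq
      obtain ⟨p', q', a1, a2, a3, a4, h1, h2⟩ := hal.exists_pq
      have hX' := Z2X p' q'
      have hY' := Z2Y p' q'
      have hh := H2b p' q' a1 a2 a3 a4 (hbd p' q' σ τ h1 h2 hb)
      rw [h1, h2] at hX' hY'
      have eX : F4 X11 X01 X01 X00 p' q' = OX := by rw [hX']; linarith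
      rw [eX] at hh
      have hh2 := lt_of_mul_lt_mul_left hh hX.le
      rw [hY'] at hh2
      have e : -(σ - p * q) * (y1 * d - x1 * d') - ((1 - p) * (1 - q) - τ) * (y0 * d - x0 * d')
          = d * (p * (1 - q) * d' - (σ - p * q) * (y1 + d')
              - ((1 - p) * (1 - q) - τ) * (y0 - d'))
            + d' * (((σ - p * q) * (x1 + d) + ((1 - p) * (1 - q) - τ) * (x0 - d))
              - p * (1 - q) * d) := by ring
      rw [e, heq, sub_self, mul_zero, add_zero]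
      exact mul_neg_of_pos_of_neg hdpos (by linarith))
  obtain ⟨hc1, hc0⟩ := hcore
  -- all points are collinear: realise `O` on the boundary
  have hx0pos : 0 < x0 := by rw [hx0]; linarith
  have key : ∀ p' q' : ℝ, F4 X11 X10 X01 X00 p' q' = OX → F4 Y11 Y10 Y01 Y00 p' q' = OY := by
    intro p' q' h
    have e1 : F4 X11 X10 X01 X00 p' q' = X10 + p' * q' * x1 - (1 - p') * q' * d
        - (1 - p') * (1 - q') * x0 := by
      rw [hx1, hdd, hx0]; unfold F4; ring
    have e2 : F4 Y11 Y10 Y01 Y00 p' q' = Y10 - p' * q' * y1 + (1 - p') * q' * d'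
        + (1 - p') * (1 - q') * y0 := by
      rw [hy1, hdd', hy0]; unfold F4; ring
    have e3 : OX = X10 + p * q * x1 - (1 - p) * q * d - (1 - p) * (1 - q) * x0 := by
      rw [hOX, hx1, hdd, hx0]; unfold F4; ring
    have e4 : OY = Y10 - p * q * y1 + (1 - p) * q * d' + (1 - p) * (1 - q) * y0 := by
      rw [hOY, hy1, hdd', hy0]; unfold F4; ring
    rw [e1, e3] at h
    have : d * (F4 Y11 Y10 Y01 Y00 p' q' - OY) = 0 := by
      rw [e2, e4]
      have e5 : d * (Y10 - p' * q' * y1 + (1 - p') * q' * d' + (1 - p') * (1 - q') * y0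
          - (Y10 - p * q * y1 + (1 - p) * q * d' + (1 - p) * (1 - q) * y0))
          = -d' * ((X10 + p' * q' * x1 - (1 - p') * q' * d
        - (1 - p') * (1 - q') * x0) - (X10 + p * q * x1 - (1 - p) * q * d
          - (1 - p) * (1 - q) * x0))
            - (p' * q' - p * q) * (y1 * d - x1 * d')
            + ((1 - p') * (1 - q') - (1 - p) * (1 - q)) * (y0 * d - x0 * d') := by ring
      rw [e5, hc1, hc0, h]; ring
    rcases mul_eq_zero.mp this with h' | h'
    · linarith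
    · linarith
  by_cases hcase : OX ≤ X10
  · have hOX00 : X00 ≤ OX := by
      have e3 : OX = X00 + p * q * (x1 + x0) + (1 - p) * q * (x0 - d) + p * (1 - q) * x0 := by
        rw [hOX, hx1, hdd, hx0]; unfold F4; ring
      have h1 : 0 ≤ p * q * (x1 + x0) :=
        mul_nonneg (mul_nonneg hp0.le hq0.le) (by rw [hx1]; linarith)
      have h2 : 0 ≤ (1 - p) * q * (x0 - d) :=
        mul_nonneg (mul_nonneg (by linarith) hq0.le) (by rw [hx0, hdd]; linarith)
      have h3 : 0 ≤ p * (1 - q) * x0 :=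
        mul_nonneg (mul_nonneg hp0.le (by linarith)) hx0pos.le
      linarith
    have hb0 : 0 ≤ (OX - X00) / x0 := div_nonneg (by linarith) hx0pos.le
    have hb1 : (OX - X00) / x0 ≤ 1 := by
      rw [div_le_one hx0pos, hx0]; linarith
    have eX : F4 X11 X10 X01 X00 ((OX - X00) / x0) 0 = OX := by
      have : F4 X11 X10 X01 X00 ((OX - X00) / x0) 0 = X00 + (OX - X00) / x0 * x0 := by
        rw [hx0]; unfold F4; ring
      rw [this, div_mul_cancel₀ _ hx0pos.ne']; ring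
    have h := H0 ((OX - X00) / x0) 0 hb0 hb1 (le_refl _) zero_le_one (Or.inr (Or.inr (Or.inl rfl)))
    rw [eX, key _ _ eX] at h
    exact lt_irrefl _ h
  · push Not at hcase
    have hOX11 : OX ≤ X10 + x1 := by
      have e3 : OX = X10 + x1 - (1 - p) * q * (x1 + d) - p * (1 - q) * x1
          - (1 - p) * (1 - q) * (x1 + x0) := by
        rw [hOX, hx1, hdd, hx0]; unfold F4; ring
      have hx1' : 0 ≤ x1 := by rw [hx1]; linarith
      have h1 : 0 ≤ (1 - p) * q * (x1 + d) :=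
        mul_nonneg (mul_nonneg (by linarith) hq0.le) (by linarith)
      have h2 : 0 ≤ p * (1 - q) * x1 := mul_nonneg (mul_nonneg hp0.le (by linarith)) hx1'
      have h3 : 0 ≤ (1 - p) * (1 - q) * (x1 + x0) :=
        mul_nonneg (mul_nonneg (by linarith) (by linarith)) (by linarith)
      linarith
    have hx1pos : 0 < x1 := by linarith
    have hb0 : 0 ≤ (OX - X10) / x1 := div_nonneg (by linarith) hx1pos.le
    have hb1 : (OX - X10) / x1 ≤ 1 := by
      rw [div_le_one hx1pos]; linarith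
    have eX : F4 X11 X10 X01 X00 1 ((OX - X10) / x1) = OX := by
      have : F4 X11 X10 X01 X00 1 ((OX - X10) / x1) = X10 + (OX - X10) / x1 * x1 := by
        rw [hx1]; unfold F4; ring
      rw [this, div_mul_cancel₀ _ hx1pos.ne']; ring
    have h := H0 1 ((OX - X10) / x1) zero_le_one (le_refl _) hb0 hb1 (Or.inr (Or.inl rfl))
    rw [eX, key _ _ eX] at h
    exact lt_irrefl _ h

lemma F4_swap (X11 X10 X01 X00 p q : ℝ) :
    F4 X11 X01 X10 X00 q p = F4 X11 X10 X01 X00 p q := by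
  unfold F4; ring

/-- at a maximum without boundary maxima, the two middle sections coincide. -/
lemma pair_main (X11 X10 X01 X00 Y11 Y10 Y01 Y00 p q : ℝ)
    (hp0 : 0 < p) (hp1 : p < 1) (hq0 : 0 < q) (hq1 : q < 1)
    (hX1 : X10 ≤ X11) (hX1' : X01 ≤ X11) (hX0 : X00 ≤ X01) (hX0' : X00 ≤ X10)
    (hX : 0 < F4 X11 X10 X01 X00 p q) (hY : 0 < F4 Y11 Y10 Y01 Y00 p q)
    (H0 : ∀ p' q', 0 ≤ p' → p' ≤ 1 → 0 ≤ q' → q' ≤ 1 →
      (p' = 0 ∨ p' = 1 ∨ q' = 0 ∨ q' = 1) →
      F4 X11 X10 X01 X00 p' q' * F4 Y11 Y10 Y01 Y00 p' q'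
        < F4 X11 X10 X01 X00 p q * F4 Y11 Y10 Y01 Y00 p q)
    (H1 : ∀ p' q', 0 ≤ p' → p' ≤ 1 → 0 ≤ q' → q' ≤ 1 →
      F4 X11 X10 X10 X00 p' q' * F4 Y11 Y10 Y10 Y00 p' q'
        ≤ F4 X11 X10 X01 X00 p q * F4 Y11 Y10 Y01 Y00 p q)
    (H1b : ∀ p' q', 0 ≤ p' → p' ≤ 1 → 0 ≤ q' → q' ≤ 1 →
      (p' = 0 ∨ p' = 1 ∨ q' = 0 ∨ q' = 1) →
      F4 X11 X10 X10 X00 p' q' * F4 Y11 Y10 Y10 Y00 p' q'
        < F4 X11 X10 X01 X00 p q * F4 Y11 Y10 Y01 Y00 p q)
    (H2 : ∀ p' q', 0 ≤ p' → p' ≤ 1 → 0 ≤ q' → q' ≤ 1 →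
      F4 X11 X01 X01 X00 p' q' * F4 Y11 Y01 Y01 Y00 p' q'
        ≤ F4 X11 X10 X01 X00 p q * F4 Y11 Y10 Y01 Y00 p q)
    (H2b : ∀ p' q', 0 ≤ p' → p' ≤ 1 → 0 ≤ q' → q' ≤ 1 →
      (p' = 0 ∨ p' = 1 ∨ q' = 0 ∨ q' = 1) →
      F4 X11 X01 X01 X00 p' q' * F4 Y11 Y01 Y01 Y00 p' q'
        < F4 X11 X10 X01 X00 p q * F4 Y11 Y10 Y01 Y00 p q) :
    X10 = X01 ∧ Y10 = Y01 := by
  have hp1' : 0 < 1 - p := by linarith
  have hq1' : 0 < 1 - q := by linarith
  -- trivial dominations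
  have D1 : X01 ≤ X10 → Y01 ≤ Y10 → X10 = X01 ∧ Y10 = Y01 := by
    intro h1 h2
    have h := H1 p q hp0.le hp1.le hq0.le hq1.le
    have eX : F4 X11 X10 X10 X00 p q = F4 X11 X10 X01 X00 p q + (1 - p) * q * (X10 - X01) := by
      unfold F4; ring
    have eY : F4 Y11 Y10 Y10 Y00 p q = F4 Y11 Y10 Y01 Y00 p q + (1 - p) * q * (Y10 - Y01) := by
      unfold F4; ring
    rw [eX, eY] at h
    have c : 0 < (1 - p) * q := mul_pos hp1' hq0
    set u := F4 X11 X10 X01 X00 p q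
    set v := F4 Y11 Y10 Y01 Y00 p q
    have e : (u + (1 - p) * q * (X10 - X01)) * (v + (1 - p) * q * (Y10 - Y01))
        = u * v + (1 - p) * q * (u * (Y10 - Y01) + v * (X10 - X01))
          + ((1 - p) * q) ^ 2 * ((X10 - X01) * (Y10 - Y01)) := by ring
    rw [e] at h
    have f1 : 0 ≤ ((1 - p) * q) ^ 2 * ((X10 - X01) * (Y10 - Y01)) :=
      mul_nonneg (sq_nonneg _) (mul_nonneg (by linarith) (by linarith))
    have f2 : (1 - p) * q * (u * (Y10 - Y01) + v * (X10 - X01)) ≤ 0 := by linarith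
    have f3 : u * (Y10 - Y01) + v * (X10 - X01) ≤ 0 := by
      by_contra hcon
      push Not at hcon
      have := mul_pos c hcon
      linarith
    have f4 : 0 ≤ u * (Y10 - Y01) := mul_nonneg hX.le (by linarith)
    have f5 : 0 ≤ v * (X10 - X01) := mul_nonneg hY.le (by linarith)
    have f6 : u * (Y10 - Y01) = 0 := by linarith
    have f7 : v * (X10 - X01) = 0 := by linarith
    rcases mul_eq_zero.mp f6 with g | g
    · exact absurd g hX.ne'
    · rcases mul_eq_zero.mp f7 with g' | g'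
      · exact absurd g' hY.ne'
      · exact ⟨by linarith, by linarith⟩
  have D2 : X10 ≤ X01 → Y10 ≤ Y01 → X10 = X01 ∧ Y10 = Y01 := by
    intro h1 h2
    have h := H2 p q hp0.le hp1.le hq0.le hq1.le
    have eX : F4 X11 X01 X01 X00 p q = F4 X11 X10 X01 X00 p q + p * (1 - q) * (X01 - X10) := by
      unfold F4; ring
    have eY : F4 Y11 Y01 Y01 Y00 p q = F4 Y11 Y10 Y01 Y00 p q + p * (1 - q) * (Y01 - Y10) := by
      unfold F4; ring
    rw [eX, eY] at h
    have c : 0 < p * (1 - q) := mul_pos hp0 hq1'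
    set u := F4 X11 X10 X01 X00 p q
    set v := F4 Y11 Y10 Y01 Y00 p q
    have e : (u + p * (1 - q) * (X01 - X10)) * (v + p * (1 - q) * (Y01 - Y10))
        = u * v + p * (1 - q) * (u * (Y01 - Y10) + v * (X01 - X10))
          + (p * (1 - q)) ^ 2 * ((X01 - X10) * (Y01 - Y10)) := by ring
    rw [e] at h
    have f1 : 0 ≤ (p * (1 - q)) ^ 2 * ((X01 - X10) * (Y01 - Y10)) :=
      mul_nonneg (sq_nonneg _) (mul_nonneg (by linarith) (by linarith))
    have f2 : p * (1 - q) * (u * (Y01 - Y10) + v * (X01 - X10)) ≤ 0 := by linarith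
    have f3 : u * (Y01 - Y10) + v * (X01 - X10) ≤ 0 := by
      by_contra hcon
      push Not at hcon
      have := mul_pos c hcon
      linarith
    have f4 : 0 ≤ u * (Y01 - Y10) := mul_nonneg hX.le (by linarith)
    have f5 : 0 ≤ v * (X01 - X10) := mul_nonneg hY.le (by linarith)
    have f6 : u * (Y01 - Y10) = 0 := by linarith
    have f7 : v * (X01 - X10) = 0 := by linarith
    rcases mul_eq_zero.mp f6 with g | g
    · exact absurd g hX.ne'
    · rcases mul_eq_zero.mp f7 with g' | g'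
      · exact absurd g' hY.ne'
      · exact ⟨by linarith, by linarith⟩
  rcases le_or_gt X10 X01 with hA | hA
  · rcases le_or_gt Y10 Y01 with hB | hB
    · exact D2 hA hB
    · -- X10 ≤ X01, Y01 < Y10
      rcases hA.lt_or_eq with hA' | hA'
      · exfalso
        refine pair_aux X11 X01 X10 X00 Y11 Y01 Y10 Y00 q p hq0 hq1 hp0 hp1 hX1' hX0'
          (by rw [F4_swap]; exact hX) hA' hB ?_ ?_ ?_ ?_ ?_
        · intro p' q' a1 a2 a3 a4 hb
          rw [F4_swap X11 X10 X01 X00 q' p', F4_swap Y11 Y10 Y01 Y00 q' p',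
            F4_swap X11 X10 X01 X00 p q, F4_swap Y11 Y10 Y01 Y00 p q]
          refine H0 q' p' a3 a4 a1 a2 ?_
          rcases hb with h | h | h | h
          · exact Or.inr (Or.inr (Or.inl h))
          · exact Or.inr (Or.inr (Or.inr h))
          · exact Or.inl h
          · exact Or.inr (Or.inl h)
        · intro p' q' a1 a2 a3 a4
          rw [F4_swap X11 X10 X01 X00 p q, F4_swap Y11 Y10 Y01 Y00 p q]
          exact H2 p' q' a1 a2 a3 a4
        · intro p' q' a1 a2 a3 a4 hb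
          rw [F4_swap X11 X10 X01 X00 p q, F4_swap Y11 Y10 Y01 Y00 p q]
          exact H2b p' q' a1 a2 a3 a4 hb
        · intro p' q' a1 a2 a3 a4
          rw [F4_swap X11 X10 X01 X00 p q, F4_swap Y11 Y10 Y01 Y00 p q]
          exact H1 p' q' a1 a2 a3 a4
        · intro p' q' a1 a2 a3 a4 hb
          rw [F4_swap X11 X10 X01 X00 p q, F4_swap Y11 Y10 Y01 Y00 p q]
          exact H1b p' q' a1 a2 a3 a4 hb
      · exact D1 hA'.ge hB.le
  · rcases le_or_gt Y01 Y10 with hB | hB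
    · exact D1 hA.le hB
    · exfalso
      exact pair_aux X11 X10 X01 X00 Y11 Y10 Y01 Y00 p q hp0 hp1 hq0 hq1 hX1 hX0
        hX hA hB H0 H1 H1b H2 H2b

/-- first order condition for a product of two affine functions. -/
lemma first_order {X Y α β h0 : ℝ} (hh : 0 < h0)
    (H : ∀ h : ℝ, |h| ≤ h0 → (X + h * α) * (Y + h * β) ≤ X * Y) :
    α * Y + β * X = 0 := by
  by_contra hne
  set L := α * Y + β * X with hL
  have key : ∀ h : ℝ, |h| ≤ h0 → h * L + h ^ 2 * (α * β) ≤ 0 := by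
    intro h hh'
    have := H h hh'
    have e : (X + h * α) * (Y + h * β) = X * Y + (h * L + h ^ 2 * (α * β)) := by
      rw [hL]; ring
    rw [e] at this
    linarith
  -- pick h = t * L with t small positive
  have hLpos : 0 < L ^ 2 := by positivity
  set t : ℝ := min (h0 / |L|) (1 / (2 * (|α * β| + 1))) with ht
  have hLabs : 0 < |L| := abs_pos.mpr hne
  have ht0 : 0 < t := lt_min (div_pos hh hLabs) (by positivity)
  have h1 : |t * L| ≤ h0 := by
    rw [abs_mul, abs_of_pos ht0]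
    calc t * |L| ≤ h0 / |L| * |L| := mul_le_mul_of_nonneg_right (min_le_left _ _) hLabs.le
      _ = h0 := div_mul_cancel₀ _ hLabs.ne'
  have h2 := key (t * L) h1
  have h3 : t * (|α * β| + 1) ≤ 1 / 2 := by
    calc t * (|α * β| + 1) ≤ 1 / (2 * (|α * β| + 1)) * (|α * β| + 1) :=
          mul_le_mul_of_nonneg_right (min_le_right _ _) (by positivity)
      _ = 1 / 2 := by field_simp
  have h4 : -(|α * β|) ≤ α * β := neg_abs_le _
  have e : t * L * L + (t * L) ^ 2 * (α * β) = t * L ^ 2 * (1 + t * (α * β)) := by ring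
  rw [e] at h2
  have h5 : 0 < 1 + t * (α * β) := by
    have : t * (-(|α * β|)) ≤ t * (α * β) := mul_le_mul_of_nonneg_left h4 ht0.le
    nlinarith
  have : 0 < t * L ^ 2 * (1 + t * (α * β)) := by positivity
  linarith

/-- for coinciding middle sections the weights coincide. -/
lemma equal_weights (X11 Xs X00 Y11 Ys Y00 p q : ℝ)
    (hp0 : 0 < p) (hp1 : p < 1) (hq0 : 0 < q) (hq1 : q < 1)
    (hX1 : Xs ≤ X11) (hX0 : X00 ≤ Xs)
    (hX : 0 < F4 X11 Xs Xs X00 p q) (_hY : 0 < F4 Y11 Ys Ys Y00 p q)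
    (H0 : ∀ p' q', 0 ≤ p' → p' ≤ 1 → 0 ≤ q' → q' ≤ 1 →
      (p' = 0 ∨ p' = 1 ∨ q' = 0 ∨ q' = 1) →
      F4 X11 Xs Xs X00 p' q' * F4 Y11 Ys Ys Y00 p' q'
        < F4 X11 Xs Xs X00 p q * F4 Y11 Ys Ys Y00 p q)
    (H1 : ∀ p' q', 0 ≤ p' → p' ≤ 1 → 0 ≤ q' → q' ≤ 1 →
      F4 X11 Xs Xs X00 p' q' * F4 Y11 Ys Ys Y00 p' q'
        ≤ F4 X11 Xs Xs X00 p q * F4 Y11 Ys Ys Y00 p q) :
    p = q := by
  by_contra hne
  set OX := F4 X11 Xs Xs X00 p q with hOX
  set OY := F4 Y11 Ys Ys Y00 p q with hOY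
  set x1 := X11 - Xs with hx1
  set x0 := Xs - X00 with hx0
  set y1 := Ys - Y11 with hy1
  set y0 := Y00 - Ys with hy0
  have hx1' : 0 ≤ x1 := by rw [hx1]; linarith
  have hx0' : 0 ≤ x0 := by rw [hx0]; linarith
  set σ0 := p * q with hσ0
  set τ0 := (1 - p) * (1 - q) with hτ0
  have hσpos : 0 < σ0 := mul_pos hp0 hq0
  have hτpos : 0 < τ0 := mul_pos (by linarith) (by linarith)
  have hst : 0 < 1 - σ0 - τ0 := by
    have : 1 - σ0 - τ0 = p * (1 - q) + (1 - p) * q := by rw [hσ0, hτ0]; ring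
    rw [this]
    have h1 : 0 < p * (1 - q) := mul_pos hp0 (by linarith)
    have h2 : 0 < (1 - p) * q := mul_pos (by linarith) hq0
    linarith
  have hΔ : (1 - σ0 - τ0) ^ 2 - 4 * σ0 * τ0 = (p - q) ^ 2 := by rw [hσ0, hτ0]; ring
  have hpqpos : 0 < (p - q) ^ 2 := by
    have : p - q ≠ 0 := sub_ne_zero.mpr hne
    positivity
  have ZX : ∀ p' q' : ℝ, F4 X11 Xs Xs X00 p' q' = OX + ((p' * q' - σ0) * x1
      - ((1 - p') * (1 - q') - τ0) * x0) := by
    intro p' q'
    rw [hOX, hx1, hx0, hσ0, hτ0]; unfold F4; ring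
  have ZY : ∀ p' q' : ℝ, F4 Y11 Ys Ys Y00 p' q' = OY + (-((p' * q' - σ0) * y1)
      + ((1 - p') * (1 - q') - τ0) * y0) := by
    intro p' q'
    rw [hOY, hy1, hy0, hσ0, hτ0]; unfold F4; ring
  have G : ∀ σ τ, Allowed σ τ →
      (OX + ((σ - σ0) * x1 - (τ - τ0) * x0)) * (OY + (-((σ - σ0) * y1) + (τ - τ0) * y0))
        ≤ OX * OY := by
    intro σ τ hal
    obtain ⟨p', q', a1, a2, a3, a4, h1, h2⟩ := hal.exists_pq
    have := H1 p' q' a1 a2 a3 a4
    rw [ZX, ZY, h1, h2] at this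
    exact this
  have Gb : ∀ σ τ, Allowed σ τ → (σ = 0 ∨ τ = 0) →
      (OX + ((σ - σ0) * x1 - (τ - τ0) * x0)) * (OY + (-((σ - σ0) * y1) + (τ - τ0) * y0))
        < OX * OY := by
    intro σ τ hal hb
    obtain ⟨p', q', a1, a2, a3, a4, h1, h2⟩ := hal.exists_pq
    have := H0 p' q' a1 a2 a3 a4 (by
      rcases hb with hb | hb
      · rw [hb] at h1
        rcases mul_eq_zero.mp h1 with h | h
        · exact Or.inl h
        · exact Or.inr (Or.inr (Or.inl h))
      · rw [hb] at h2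
        rcases mul_eq_zero.mp h2 with h | h
        · exact Or.inr (Or.inl (by linarith))
        · exact Or.inr (Or.inr (Or.inr (by linarith))))
    rw [ZX, ZY, h1, h2] at this
    exact this
  -- a full neighbourhood is allowed
  set h0 : ℝ := min (min σ0 τ0) (min (1 - σ0 - τ0) ((p - q) ^ 2 / 8)) with hh0
  have hh0pos : 0 < h0 :=
    lt_min (lt_min hσpos hτpos) (lt_min hst (by positivity))
  have b1 : h0 ≤ σ0 := (min_le_left _ _).trans (min_le_left _ _)
  have b2 : h0 ≤ τ0 := (min_le_left _ _).trans (min_le_right _ _)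
  have b3 : h0 ≤ 1 - σ0 - τ0 := (min_le_right _ _).trans (min_le_left _ _)
  have b4 : h0 ≤ (p - q) ^ 2 / 8 := (min_le_right _ _).trans (min_le_right _ _)
  have hσ1 : σ0 < 1 := by linarith
  have hτ1 : τ0 < 1 := by linarith
  have A1 : ∀ h : ℝ, |h| ≤ h0 → Allowed (σ0 + h) τ0 := by
    intro h hh
    obtain ⟨l1, l2⟩ := abs_le.mp hh
    refine ⟨by linarith, hτpos.le, by linarith, ?_⟩
    have e : (1 - (σ0 + h) - τ0) ^ 2 - 4 * (σ0 + h) * τ0
        = (p - q) ^ 2 - 2 * h * ((1 - σ0 - τ0) + 2 * τ0) + h ^ 2 := by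
      rw [← hΔ]; ring
    have e2 : 2 * h * ((1 - σ0 - τ0) + 2 * τ0) ≤ (p - q) ^ 2 := by
      have k1 : (1 - σ0 - τ0) + 2 * τ0 ≤ 2 := by linarith
      have k2 : 0 ≤ (1 - σ0 - τ0) + 2 * τ0 := by linarith
      have k3 : 2 * h * ((1 - σ0 - τ0) + 2 * τ0) ≤ 2 * h0 * ((1 - σ0 - τ0) + 2 * τ0) :=
        mul_le_mul_of_nonneg_right (by linarith) k2
      have k4 : 2 * h0 * ((1 - σ0 - τ0) + 2 * τ0) ≤ 2 * h0 * 2 :=
        mul_le_mul_of_nonneg_left k1 (by linarith)
      linarith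
    nlinarith [sq_nonneg h]
  have A2 : ∀ h : ℝ, |h| ≤ h0 → Allowed σ0 (τ0 + h) := by
    intro h hh
    obtain ⟨l1, l2⟩ := abs_le.mp hh
    refine ⟨hσpos.le, by linarith, by linarith, ?_⟩
    have e : (1 - σ0 - (τ0 + h)) ^ 2 - 4 * σ0 * (τ0 + h)
        = (p - q) ^ 2 - 2 * h * ((1 - σ0 - τ0) + 2 * σ0) + h ^ 2 := by
      rw [← hΔ]; ring
    have e2 : 2 * h * ((1 - σ0 - τ0) + 2 * σ0) ≤ (p - q) ^ 2 := by
      have k1 : (1 - σ0 - τ0) + 2 * σ0 ≤ 2 := by linarith
      have k2 : 0 ≤ (1 - σ0 - τ0) + 2 * σ0 := by linarith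
      have k3 : 2 * h * ((1 - σ0 - τ0) + 2 * σ0) ≤ 2 * h0 * ((1 - σ0 - τ0) + 2 * σ0) :=
        mul_le_mul_of_nonneg_right (by linarith) k2
      have k4 : 2 * h0 * ((1 - σ0 - τ0) + 2 * σ0) ≤ 2 * h0 * 2 :=
        mul_le_mul_of_nonneg_left k1 (by linarith)
      linarith
    nlinarith [sq_nonneg h]
  have F1 : x1 * OY + (-y1) * OX = 0 := by
    apply first_order hh0pos
    intro h hh
    have := G _ _ (A1 h hh)
    have e1 : OX + ((σ0 + h - σ0) * x1 - (τ0 - τ0) * x0) = OX + h * x1 := by ring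
    have e2 : OY + (-((σ0 + h - σ0) * y1) + (τ0 - τ0) * y0) = OY + h * (-y1) := by ring
    rw [e1, e2] at this
    exact this
  have F2 : (-x0) * OY + y0 * OX = 0 := by
    apply first_order hh0pos
    intro h hh
    have := G _ _ (A2 h hh)
    have e1 : OX + ((σ0 - σ0) * x1 - (τ0 + h - τ0) * x0) = OX + h * (-x0) := by ring
    have e2 : OY + (-((σ0 - σ0) * y1) + (τ0 + h - τ0) * y0) = OY + h * y0 := by ring
    rw [e1, e2] at this
    exact this
  -- moving along the common level line reaches the boundary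
  have hall : Allowed σ0 τ0 := allowed_pq hp0.le hp1.le hq0.le hq1.le
  have final : ∀ σ τ, 0 ≤ σ → σ ≤ σ0 → 0 ≤ τ → τ ≤ τ0 → (σ = 0 ∨ τ = 0) →
      (σ - σ0) * x1 = (τ - τ0) * x0 → False := by
    intro σ τ s0 s1 t0 t1 hb heq
    have := Gb σ τ (allowed_of_le hall s0 s1 t0 t1) hb
    have e2 : (-((σ - σ0) * y1) + (τ - τ0) * y0) * OX = 0 := by
      have : (-((σ - σ0) * y1) + (τ - τ0) * y0) * OX
          = (σ - σ0) * (x1 * OY + (-y1) * OX) + (τ - τ0) * ((-x0) * OY + y0 * OX)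
            - ((σ - σ0) * x1 - (τ - τ0) * x0) * OY := by ring
      rw [this, F1, F2, heq]; ring
    have e3 : -((σ - σ0) * y1) + (τ - τ0) * y0 = 0 := by
      rcases mul_eq_zero.mp e2 with h | h
      · exact h
      · exact absurd h hX.ne'
    rw [e3, heq] at this
    simp at this
  by_cases hz : x0 = 0 ∧ x1 = 0
  · exact final 0 τ0 (le_refl _) hσpos.le hτpos.le (le_refl _) (Or.inl rfl) (by
      rw [hz.1, hz.2]; ring)
  · by_cases hc : σ0 * x1 ≤ τ0 * x0
    · have hx0pos : 0 < x0 := by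
        rcases hx0'.lt_or_eq with h | h
        · exact h
        · exfalso
          rw [← h, mul_zero] at hc
          apply hz
          refine ⟨h.symm, ?_⟩
          by_contra hcon
          have : 0 < x1 := lt_of_le_of_ne hx1' (Ne.symm hcon)
          have := mul_pos hσpos this
          linarith
      refine final 0 (τ0 - σ0 * x1 / x0) (le_refl _) hσpos.le ?_ ?_ (Or.inl rfl) ?_
      · have : σ0 * x1 / x0 ≤ τ0 := by rw [div_le_iff₀ hx0pos]; exact hc
        linarith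
      · have : 0 ≤ σ0 * x1 / x0 := by positivity
        linarith
      · field_simp; ring
    · push Not at hc
      have hx1pos : 0 < x1 := by
        rcases hx1'.lt_or_eq with h | h
        · exact h
        · exfalso
          rw [← h, mul_zero] at hc
          have : 0 ≤ τ0 * x0 := by positivity
          linarith
      refine final (σ0 - τ0 * x0 / x1) 0 ?_ ?_ (le_refl _) hτpos.le (Or.inr rfl) ?_
      · have : τ0 * x0 / x1 ≤ σ0 := by rw [div_le_iff₀ hx1pos]; linarith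
        linarith
      · have : 0 ≤ τ0 * x0 / x1 := by positivity
        linarith
      · field_simp; ring

end Pool.Agent.Y161.Cx
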