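import Mathlib

/-!
Two-coordinate exchange lemma (pure real inequalities).
-/

set_option autoImplicit false

namespace Pool.Agent.Y161.Cx

/-- the pair `(σ, τ)` is of the form `(p q, (1-p)(1-q))`. -/
def Allowed (σ τ : ℝ) : Prop :=
  0 ≤ σ ∧ 0 ≤ τ ∧ σ + τ ≤ 1 ∧ 4 * σ * τ ≤ (1 - σ - τ) ^ 2

lemma Allowed.exists_pq {σ τ : ℝ} (h : Allowed σ τ) :
    ∃ p q : ℝ, 0 ≤ p ∧ p ≤ 1 ∧ 0 ≤ q ∧ q ≤ 1 ∧ p * q = σ ∧ (1 - p) * (1 - q) = τ := by
  obtain ⟨hσ, hτ, h1, hD⟩ := h
  set D : ℝ := (1 + σ - τ) ^ 2 - 4 * σ with hDdef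
  have hD0 : 0 ≤ D := by rw [hDdef]; nlinarith
  have hs := Real.sqrt_nonneg D
  have hss : Real.sqrt D * Real.sqrt D = D := Real.mul_self_sqrt hD0
  have e1 : Real.sqrt D ≤ 1 + σ - τ := by
    apply Real.sqrt_le_iff.mpr
    constructor
    · linarith
    · rw [hDdef]; linarith
  have e2 : Real.sqrt D ≤ 1 - σ + τ := by
    apply Real.sqrt_le_iff.mpr
    constructor
    · linarith
    · rw [hDdef]; nlinarith
  refine ⟨(1 + σ - τ + Real.sqrt D) / 2, (1 + σ - τ - Real.sqrt D) / 2, ?_, ?_, ?_, ?_, ?_, ?_⟩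
  · linarith
  · linarith
  · linarith
  · linarith
  · have : (1 + σ - τ + Real.sqrt D) / 2 * ((1 + σ - τ - Real.sqrt D) / 2)
        = ((1 + σ - τ) ^ 2 - Real.sqrt D * Real.sqrt D) / 4 := by ring
    rw [this, hss, hDdef]; ring
  · have : (1 - (1 + σ - τ + Real.sqrt D) / 2) * (1 - (1 + σ - τ - Real.sqrt D) / 2)
        = 1 - (1 + σ - τ) + ((1 + σ - τ) ^ 2 - Real.sqrt D * Real.sqrt D) / 4 := by ring
    rw [this, hss, hDdef]; ring

lemma allowed_of_le {σ τ σ' τ' : ℝ} (h : Allowed σ τ) (h1 : 0 ≤ σ') (h2 : σ' ≤ σ)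
    (h3 : 0 ≤ τ') (h4 : τ' ≤ τ) : Allowed σ' τ' := by
  obtain ⟨hσ, hτ, hs, hD⟩ := h
  refine ⟨h1, h3, by linarith, ?_⟩
  have e1 : σ' * τ' ≤ σ * τ := mul_le_mul h2 h4 h3 hσ
  have e2 : (1 - σ - τ) ^ 2 ≤ (1 - σ' - τ') ^ 2 := by
    apply pow_le_pow_left₀ (by linarith) (by linarith)
  nlinarith

lemma allowed_pq {p q : ℝ} (hp0 : 0 ≤ p) (hp1 : p ≤ 1) (hq0 : 0 ≤ q) (hq1 : q ≤ 1) :
    Allowed (p * q) ((1 - p) * (1 - q)) := by
  refine ⟨mul_nonneg hp0 hq0, mul_nonneg (by linarith) (by linarith), ?_, ?_⟩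
  · nlinarith [mul_nonneg hp0 (sub_nonneg.mpr hq1), mul_nonneg hq0 (sub_nonneg.mpr hp1)]
  · have : (1 - p * q - (1 - p) * (1 - q)) ^ 2 - 4 * (p * q) * ((1 - p) * (1 - q))
        = (p - q) ^ 2 := by ring
    nlinarith [sq_nonneg (p - q)]

lemma allowed_zero_left {τ : ℝ} (h0 : 0 ≤ τ) (h1 : τ ≤ 1) : Allowed 0 τ := by
  refine ⟨le_refl _, h0, by linarith, ?_⟩
  nlinarith [sq_nonneg (1 - τ)]

lemma allowed_zero_right {σ : ℝ} (h0 : 0 ≤ σ) (h1 : σ ≤ 1) : Allowed σ 0 := by
  refine ⟨h0, le_refl _, by linarith, ?_⟩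
  nlinarith [sq_nonneg (1 - σ)]

lemma allowed_sq {a b : ℝ} (ha : 0 ≤ a) (hb : 0 ≤ b) (hab : a + b ≤ 1) :
    Allowed (a ^ 2) (b ^ 2) := by
  refine ⟨by positivity, by positivity, ?_, ?_⟩
  · nlinarith [mul_nonneg ha hb]
  · have e : 2 * (a * b) ≤ 1 - a ^ 2 - b ^ 2 := by nlinarith
    have e' : (2 * (a * b)) ^ 2 ≤ (1 - a ^ 2 - b ^ 2) ^ 2 :=
      pow_le_pow_left₀ (by positivity) e 2
    nlinarith

lemma allowed_left {a τ : ℝ} (ha : 0 ≤ a) (ha1 : a ≤ 1) (h0 : 0 ≤ τ) (h1 : τ ≤ (1 - a) ^ 2) :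
    Allowed (a ^ 2) τ :=
  allowed_of_le (allowed_sq ha (b := 1 - a) (by linarith) (by linarith)) (by positivity)
    (le_refl _) h0 h1

lemma allowed_right {b σ : ℝ} (hb : 0 ≤ b) (hb1 : b ≤ 1) (h0 : 0 ≤ σ) (h1 : σ ≤ (1 - b) ^ 2) :
    Allowed σ (b ^ 2) :=
  allowed_of_le (allowed_sq (a := 1 - b) (by linarith) hb (by linarith)) h0 h1 (by positivity)
    (le_refl _)

/-- core of the exchange lemma. -/
lemma core (p q x1 x0 d c1 c0 : ℝ) (hp0 : 0 < p) (hp1 : p < 1) (hq0 : 0 < q) (hq1 : q < 1)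
    (hx1 : 0 ≤ x1) (hd : 0 < d) (hx0 : d ≤ x0)
    (K1 : ∀ σ τ, Allowed σ τ →
      (p * q - σ) * x1 + (τ - (1 - p) * (1 - q)) * x0 = (1 - p) * q * d →
      (p * q - σ) * c1 + (τ - (1 - p) * (1 - q)) * c0 ≤ 0)
    (K1b : ∀ σ τ, Allowed σ τ → (σ = 0 ∨ τ = 0) →
      (p * q - σ) * x1 + (τ - (1 - p) * (1 - q)) * x0 = (1 - p) * q * d →
      (p * q - σ) * c1 + (τ - (1 - p) * (1 - q)) * c0 < 0)
    (K2 : ∀ σ τ, Allowed σ τ →
      (σ - p * q) * (x1 + d) + ((1 - p) * (1 - q) - τ) * (x0 - d) = p * (1 - q) * d →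
      -(σ - p * q) * c1 - ((1 - p) * (1 - q) - τ) * c0 ≤ 0)
    (K2b : ∀ σ τ, Allowed σ τ → (σ = 0 ∨ τ = 0) →
      (σ - p * q) * (x1 + d) + ((1 - p) * (1 - q) - τ) * (x0 - d) = p * (1 - q) * d →
      -(σ - p * q) * c1 - ((1 - p) * (1 - q) - τ) * c0 < 0) :
    c1 = 0 ∧ c0 = 0 := by
  have hpq : 0 < p * q := mul_pos hp0 hq0
  have hp1' : 0 < 1 - p := by linarith
  have hq1' : 0 < 1 - q := by linarith
  have hτ0 : 0 < (1 - p) * (1 - q) := mul_pos hp1' hq1'
  have hρ2 : 0 < (1 - p) * q := mul_pos hp1' hq0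
  have hρ1 : 0 < p * (1 - q) := mul_pos hp0 hq1'
  have hx0pos : 0 < x0 := by linarith
  have hall : Allowed (p * q) ((1 - p) * (1 - q)) := allowed_pq hp0.le hp1.le hq0.le hq1.le
  have hx1d : 0 < x1 + d := by linarith
  -- the `Z_1` move lowering `σ`
  have Z1 : 0 < c1 → (c0 < 0 ∧ p * q * (x0 * c1 + x1 * (-c0)) < (1 - p) * q * d * (-c0)) := by
    intro hc1
    by_cases hA : (1 - p) * q * d ≤ p * q * x1
    · exfalso
      have hx1pos : 0 < x1 := by
        by_contra hcon
        have : x1 = 0 := le_antisymm (not_lt.mp hcon) hx1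
        rw [this] at hA
        have : 0 < (1 - p) * q * d := mul_pos hρ2 hd
        linarith
      have hδ : (1 - p) * q * d / x1 ≤ p * q := by
        rw [div_le_iff₀ hx1pos]; exact hA
      have hδ0 : 0 < (1 - p) * q * d / x1 := div_pos (mul_pos hρ2 hd) hx1pos
      have := K1 (p * q - (1 - p) * q * d / x1) ((1 - p) * (1 - q))
        (allowed_of_le hall (by linarith) (by linarith) hτ0.le (le_refl _))
        (by field_simp; ring)
      have e : (p * q - (p * q - (1 - p) * q * d / x1)) * c1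
          + ((1 - p) * (1 - q) - (1 - p) * (1 - q)) * c0 = (1 - p) * q * d / x1 * c1 := by ring
      rw [e] at this
      have : 0 < (1 - p) * q * d / x1 * c1 := mul_pos hδ0 hc1
      linarith
    · push Not at hA
      have hδ0 : 0 < ((1 - p) * q * d - p * q * x1) / x0 := div_pos (by linarith) hx0pos
      have hδ1 : ((1 - p) * q * d - p * q * x1) / x0 ≤ (1 - p) * q := by
        rw [div_le_iff₀ hx0pos]
        have : (1 - p) * q * d ≤ (1 - p) * q * x0 := mul_le_mul_of_nonneg_left hx0 hρ2.le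
        have : 0 ≤ p * q * x1 := mul_nonneg hpq.le hx1
        linarith
      have h := K1b 0 ((1 - p) * (1 - q) + ((1 - p) * q * d - p * q * x1) / x0)
        (allowed_zero_left (by linarith) (by nlinarith)) (Or.inl rfl)
        (by field_simp; ring)
      have e : (p * q - 0) * c1 + ((1 - p) * (1 - q) + ((1 - p) * q * d - p * q * x1) / x0
          - (1 - p) * (1 - q)) * c0 = p * q * c1 + ((1 - p) * q * d - p * q * x1) / x0 * c0 := by
        ring
      rw [e] at h
      have hc0 : c0 < 0 := by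
        by_contra hcon
        push Not at hcon
        have : 0 ≤ ((1 - p) * q * d - p * q * x1) / x0 * c0 := mul_nonneg hδ0.le hcon
        have : 0 < p * q * c1 := mul_pos hpq hc1
        linarith
      refine ⟨hc0, ?_⟩
      have h' : (p * q * c1 + ((1 - p) * q * d - p * q * x1) / x0 * c0) * x0 < 0 :=
        mul_neg_of_neg_of_pos h hx0pos
      have e' : (p * q * c1 + ((1 - p) * q * d - p * q * x1) / x0 * c0) * x0
          = p * q * c1 * x0 + ((1 - p) * q * d - p * q * x1) * c0 := by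
        field_simp
      rw [e'] at h'
      linarith
  -- the `Z_2` move lowering `τ`
  have Z2 : c0 < 0 → (0 < c1 ∧
      (1 - p) * (1 - q) * ((x1 + d) * (-c0) + (x0 - d) * c1) < p * (1 - q) * d * c1) := by
    intro hc0
    by_cases hA : p * (1 - q) * d ≤ (1 - p) * (1 - q) * (x0 - d)
    · exfalso
      have hx0d : 0 < x0 - d := by
        by_contra hcon
        have h0 : x0 - d = 0 := le_antisymm (not_lt.mp hcon) (by linarith)
        rw [h0] at hA
        have : 0 < p * (1 - q) * d := mul_pos hρ1 hd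
        linarith
      have hδ : p * (1 - q) * d / (x0 - d) ≤ (1 - p) * (1 - q) := by
        rw [div_le_iff₀ hx0d]; exact hA
      have hδ0 : 0 < p * (1 - q) * d / (x0 - d) := div_pos (mul_pos hρ1 hd) hx0d
      have := K2 (p * q) ((1 - p) * (1 - q) - p * (1 - q) * d / (x0 - d))
        (allowed_of_le hall hpq.le (le_refl _) (by linarith) (by linarith))
        (by field_simp; ring)
      have e : -(p * q - p * q) * c1 - ((1 - p) * (1 - q)
          - ((1 - p) * (1 - q) - p * (1 - q) * d / (x0 - d))) * c0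
          = p * (1 - q) * d / (x0 - d) * (-c0) := by ring
      rw [e] at this
      have : 0 < p * (1 - q) * d / (x0 - d) * (-c0) := mul_pos hδ0 (by linarith)
      linarith
    · push Not at hA
      have hε0 : 0 < (p * (1 - q) * d - (1 - p) * (1 - q) * (x0 - d)) / (x1 + d) :=
        div_pos (by linarith) hx1d
      have hε1 : (p * (1 - q) * d - (1 - p) * (1 - q) * (x0 - d)) / (x1 + d) ≤ p * (1 - q) := by
        rw [div_le_iff₀ hx1d]
        have : 0 ≤ p * (1 - q) * x1 := mul_nonneg hρ1.le hx1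
        have : 0 ≤ (1 - p) * (1 - q) * (x0 - d) := mul_nonneg hτ0.le (by linarith)
        linarith
      have h := K2b (p * q + (p * (1 - q) * d - (1 - p) * (1 - q) * (x0 - d)) / (x1 + d)) 0
        (allowed_zero_right (by linarith) (by nlinarith)) (Or.inr rfl)
        (by field_simp; ring)
      have e : -(p * q + (p * (1 - q) * d - (1 - p) * (1 - q) * (x0 - d)) / (x1 + d) - p * q) * c1
          - ((1 - p) * (1 - q) - 0) * c0
          = (1 - p) * (1 - q) * (-c0)
            - (p * (1 - q) * d - (1 - p) * (1 - q) * (x0 - d)) / (x1 + d) * c1 := by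
        ring
      rw [e] at h
      have hc1 : 0 < c1 := by
        by_contra hcon
        push Not at hcon
        have : 0 ≤ (p * (1 - q) * d - (1 - p) * (1 - q) * (x0 - d)) / (x1 + d) * (-c1) :=
          mul_nonneg hε0.le (by linarith)
        have : 0 < (1 - p) * (1 - q) * (-c0) := mul_pos hτ0 (by linarith)
        linarith
      refine ⟨hc1, ?_⟩
      have h' := mul_neg_of_neg_of_pos h hx1d
      have e' : ((1 - p) * (1 - q) * (-c0)
            - (p * (1 - q) * d - (1 - p) * (1 - q) * (x0 - d)) / (x1 + d) * c1) * (x1 + d)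
          = (1 - p) * (1 - q) * (-c0) * (x1 + d)
            - (p * (1 - q) * d - (1 - p) * (1 - q) * (x0 - d)) * c1 := by
        field_simp
      rw [e'] at h'
      linarith
  -- exclude `c1 > 0` and `c0 < 0`
  have hC : ¬ (0 < c1 ∧ c0 < 0) := by
    rintro ⟨hc1, hc0⟩
    have h1 := (Z1 hc1).2
    have h2 := (Z2 hc0).2
    have hC0 : 0 < -c0 := by linarith
    have u1 : 0 ≤ x0 * c1 + x1 * (-c0) := by positivity
    have u2 : 0 ≤ (x1 + d) * (-c0) + (x0 - d) * c1 := by
      have : 0 ≤ (x0 - d) * c1 := mul_nonneg (by linarith) hc1.le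
      have : 0 < (x1 + d) * (-c0) := mul_pos hx1d hC0
      linarith
    have v1 : d * c1 ≤ x0 * c1 + x1 * (-c0) := by
      have : d * c1 ≤ x0 * c1 := mul_le_mul_of_nonneg_right hx0 hc1.le
      have : 0 ≤ x1 * (-c0) := mul_nonneg hx1 hC0.le
      linarith
    have v2 : d * (-c0) ≤ (x1 + d) * (-c0) + (x0 - d) * c1 := by
      have : 0 ≤ (x0 - d) * c1 := mul_nonneg (by linarith) hc1.le
      have : 0 ≤ x1 * (-c0) := mul_nonneg hx1 hC0.le
      linarith
    have w1 : p * q * (d * c1) < (1 - p) * q * d * (-c0) :=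
      lt_of_le_of_lt (mul_le_mul_of_nonneg_left v1 hpq.le) h1
    have w2 : (1 - p) * (1 - q) * (d * (-c0)) < p * (1 - q) * d * c1 :=
      lt_of_le_of_lt (mul_le_mul_of_nonneg_left v2 hτ0.le) h2
    have w1' : p * c1 < (1 - p) * (-c0) := by
      have : (q * d) * (p * c1) < (q * d) * ((1 - p) * (-c0)) := by linarith
      exact lt_of_mul_lt_mul_left this (by positivity)
    have w2' : (1 - p) * (-c0) < p * c1 := by
      have : ((1 - q) * d) * ((1 - p) * (-c0)) < ((1 - q) * d) * (p * c1) := by linarith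
      exact lt_of_mul_lt_mul_left this (by positivity)
    linarith
  have hc1 : c1 ≤ 0 := by
    by_contra hcon
    push Not at hcon
    exact hC ⟨hcon, (Z1 hcon).1⟩
  have hc0 : 0 ≤ c0 := by
    by_contra hcon
    push Not at hcon
    exact hC ⟨(Z2 hcon).1, hcon⟩
  -- remaining case: `c1 ≤ 0 ≤ c0`
  by_contra hne
  set a : ℝ := Real.sqrt (p * q) with ha
  set b : ℝ := Real.sqrt ((1 - p) * (1 - q)) with hb
  have haa : a ^ 2 = p * q := Real.sq_sqrt hpq.le
  have hbb : b ^ 2 = (1 - p) * (1 - q) := Real.sq_sqrt hτ0.le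
  have ha0 : 0 < a := Real.sqrt_pos.mpr hpq
  have hb0 : 0 < b := Real.sqrt_pos.mpr hτ0
  have hab : a + b ≤ 1 := by
    have h2 : 2 * (a * b) ≤ p * (1 - q) + (1 - p) * q := by
      have e : (a * b) ^ 2 = (p * (1 - q)) * ((1 - p) * q) := by
        rw [mul_pow, haa, hbb]; ring
      have : (2 * (a * b)) ^ 2 ≤ (p * (1 - q) + (1 - p) * q) ^ 2 := by
        nlinarith [sq_nonneg (p * (1 - q) - (1 - p) * q)]
      exact le_of_sq_le_sq this (by positivity)
    have : (a + b) ^ 2 ≤ 1 ^ 2 := by nlinarith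
    exact le_of_sq_le_sq this (by norm_num)
  by_cases hab' : a * (-c1) ≤ (1 - a) * c0
  · -- `Z_1`, raising `τ`
    have hc0pos : 0 < c0 := by
      rcases hc0.lt_or_eq with h | h
      · exact h
      · exfalso
        rw [← h] at hab'
        have : a * (-c1) ≤ 0 := by linarith
        have h3 : -c1 ≤ 0 := by
          by_contra hh
          push Not at hh
          have := mul_pos ha0 hh
          linarith
        exact hne ⟨by linarith, h.symm⟩
    by_cases hB : (1 - p) * q * d / x0 ≤ (1 - a) ^ 2 - b ^ 2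
    · have := K1 (p * q) ((1 - p) * (1 - q) + (1 - p) * q * d / x0)
        (by
          rw [← haa]
          exact allowed_left ha0.le (by linarith) (by positivity) (by rw [← hbb]; linarith))
        (by field_simp; ring)
      have e : (p * q - p * q) * c1 + ((1 - p) * (1 - q) + (1 - p) * q * d / x0
          - (1 - p) * (1 - q)) * c0 = (1 - p) * q * d / x0 * c0 := by ring
      rw [e] at this
      have : 0 < (1 - p) * q * d / x0 * c0 := by positivity
      linarith
    · push Not at hB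
      -- intermediate value theorem
      have hcont : ContinuousOn (fun u : ℝ => (a ^ 2 - u ^ 2) * x1 + ((1 - u) ^ 2 - b ^ 2) * x0)
          (Set.Icc 0 a) := by fun_prop
      have hB' : ((1 - a) ^ 2 - b ^ 2) * x0 < (1 - p) * q * d := by
        rwa [lt_div_iff₀ hx0pos] at hB
      have hmem : (1 - p) * q * d ∈ Set.Icc
          ((fun u : ℝ => (a ^ 2 - u ^ 2) * x1 + ((1 - u) ^ 2 - b ^ 2) * x0) a)
          ((fun u : ℝ => (a ^ 2 - u ^ 2) * x1 + ((1 - u) ^ 2 - b ^ 2) * x0) 0) := by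
        constructor
        · simp only [sub_self, zero_mul, zero_add]
          exact hB'.le
        · simp only
          have e1 : (1 - p) * q * d ≤ (1 - b ^ 2) * d := by
            apply mul_le_mul_of_nonneg_right _ hd.le
            rw [hbb]; nlinarith
          have e2 : (1 - b ^ 2) * d ≤ (1 - b ^ 2) * x0 := by
            apply mul_le_mul_of_nonneg_left hx0
            rw [hbb]; nlinarith
          have e3 : 0 ≤ (a ^ 2 - 0 ^ 2) * x1 := by
            apply mul_nonneg _ hx1
            linarith [sq_nonneg a]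
          have e4 : ((1 - (0:ℝ)) ^ 2 - b ^ 2) * x0 = (1 - b ^ 2) * x0 := by ring
          rw [e4]; linarith
      obtain ⟨u, ⟨hu0, hua⟩, hu⟩ := intermediate_value_Icc' ha0.le hcont hmem
      simp only at hu
      have hua' : u < a := by
        rcases hua.lt_or_eq with h | h
        · exact h
        · exfalso
          rw [h] at hu
          have : (a ^ 2 - a ^ 2) * x1 = 0 := by ring
          linarith
      have := K1 (u ^ 2) ((1 - u) ^ 2)
        (allowed_sq hu0 (by linarith) (by linarith)) (by rw [← haa, ← hbb]; exact hu)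
      rw [← haa, ← hbb] at this
      have g1 : 0 ≤ (1 - a) ^ 2 - b ^ 2 := by
        have : b ^ 2 ≤ (1 - a) ^ 2 := pow_le_pow_left₀ hb0.le (by linarith) 2
        linarith
      have g2 : (a ^ 2 - u ^ 2) * c1 + ((1 - u) ^ 2 - b ^ 2) * c0
          = (a - u) * (((1 - a) * c0 - a * (-c1)) * 2 + (a - u) * (c0 - c1))
            + ((1 - a) ^ 2 - b ^ 2) * c0 := by ring
      rw [g2] at this
      have g3 : 0 ≤ ((1 - a) ^ 2 - b ^ 2) * c0 := mul_nonneg g1 hc0
      have g4 : 0 < (a - u) * (c0 - c1) := mul_pos (by linarith) (by linarith)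
      have g5 : 0 < (a - u) * (((1 - a) * c0 - a * (-c1)) * 2 + (a - u) * (c0 - c1)) :=
        mul_pos (by linarith) (by linarith)
      linarith
  · push Not at hab'
    have hbc : b * c0 < (1 - b) * (-c1) := by
      have e1 : b * c0 ≤ (1 - a) * c0 := mul_le_mul_of_nonneg_right (by linarith) hc0
      have e2 : a * (-c1) ≤ (1 - b) * (-c1) := mul_le_mul_of_nonneg_right (by linarith) (by linarith)
      linarith
    have hc1neg : c1 < 0 := by
      rcases hc1.lt_or_eq with h | h
      · exact h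
      · exfalso
        rw [h] at hbc
        have : 0 ≤ b * c0 := by positivity
        linarith
    by_cases hB : p * (1 - q) * d / (x1 + d) ≤ (1 - b) ^ 2 - a ^ 2
    · have := K2 (p * q + p * (1 - q) * d / (x1 + d)) ((1 - p) * (1 - q))
        (by
          rw [← hbb]
          exact allowed_right hb0.le (by linarith) (by positivity) (by rw [← haa]; linarith))
        (by field_simp; ring)
      have e : -(p * q + p * (1 - q) * d / (x1 + d) - p * q) * c1
          - ((1 - p) * (1 - q) - (1 - p) * (1 - q)) * c0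
          = p * (1 - q) * d / (x1 + d) * (-c1) := by ring
      rw [e] at this
      have : 0 < p * (1 - q) * d / (x1 + d) * (-c1) := mul_pos (by positivity) (by linarith)
      linarith
    · push Not at hB
      have hcont : ContinuousOn (fun u : ℝ => ((1 - u) ^ 2 - a ^ 2) * (x1 + d)
          + (b ^ 2 - u ^ 2) * (x0 - d)) (Set.Icc 0 b) := by fun_prop
      have hB' : ((1 - b) ^ 2 - a ^ 2) * (x1 + d) < p * (1 - q) * d := by
        rwa [lt_div_iff₀ hx1d] at hB
      have hmem : p * (1 - q) * d ∈ Set.Icc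
          ((fun u : ℝ => ((1 - u) ^ 2 - a ^ 2) * (x1 + d) + (b ^ 2 - u ^ 2) * (x0 - d)) b)
          ((fun u : ℝ => ((1 - u) ^ 2 - a ^ 2) * (x1 + d) + (b ^ 2 - u ^ 2) * (x0 - d)) 0) := by
        constructor
        · simp only [sub_self, zero_mul, add_zero]
          exact hB'.le
        · simp only
          have e1 : p * (1 - q) * d ≤ (1 - a ^ 2) * d := by
            apply mul_le_mul_of_nonneg_right _ hd.le
            rw [haa]; nlinarith
          have e2 : (1 - a ^ 2) * d ≤ (1 - a ^ 2) * (x1 + d) := by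
            apply mul_le_mul_of_nonneg_left (by linarith)
            rw [haa]; nlinarith
          have e3 : 0 ≤ (b ^ 2 - 0 ^ 2) * (x0 - d) := by
            apply mul_nonneg _ (by linarith)
            linarith [sq_nonneg b]
          have e4 : ((1 - (0:ℝ)) ^ 2 - a ^ 2) * (x1 + d) = (1 - a ^ 2) * (x1 + d) := by ring
          rw [e4]; linarith
      obtain ⟨u, ⟨hu0, hub⟩, hu⟩ := intermediate_value_Icc' hb0.le hcont hmem
      simp only at hu
      have hub' : u < b := by
        rcases hub.lt_or_eq with h | h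
        · exact h
        · exfalso
          rw [h] at hu
          have : (b ^ 2 - b ^ 2) * (x0 - d) = 0 := by ring
          linarith
      have := K2 ((1 - u) ^ 2) (u ^ 2)
        (allowed_sq (by linarith) hu0 (by linarith)) (by rw [← haa, ← hbb]; exact hu)
      rw [← haa, ← hbb] at this
      have g1 : 0 ≤ (1 - b) ^ 2 - a ^ 2 := by
        have : a ^ 2 ≤ (1 - b) ^ 2 := pow_le_pow_left₀ ha0.le (by linarith) 2
        linarith
      have g2 : -((1 - u) ^ 2 - a ^ 2) * c1 - (b ^ 2 - u ^ 2) * c0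
          = (b - u) * (((1 - b) * (-c1) - b * c0) * 2 + (b - u) * (c0 - c1))
            + ((1 - b) ^ 2 - a ^ 2) * (-c1) := by ring
      rw [g2] at this
      have g3 : 0 ≤ ((1 - b) ^ 2 - a ^ 2) * (-c1) := mul_nonneg g1 (by linarith)
      have g4 : 0 < (b - u) * (c0 - c1) := mul_pos (by linarith) (by linarith)
      have g5 : 0 < (b - u) * (((1 - b) * (-c1) - b * c0) * 2 + (b - u) * (c0 - c1)) :=
        mul_pos (by linarith) (by linarith)
      linarith

end Pool.Agent.Y161.Cx
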