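import Pool.Agent.Y161.Cx.Growth

/-!
Reduction from the product space `[n]^r` to the cube.
-/

set_option autoImplicit false

namespace Pool.Agent.Y161.Cx

open Function Finset

/-! ### two-point reduction in one coordinate -/

lemma two_point_aux {Ω : Type} [Fintype Ω] (v α β : Ω → ℝ) (hv : ∀ a, 0 ≤ v a)
    (hv1 : ∑ a, v a = 1) (hα : ∑ a, v a * α a = 0) (hβ : ∑ a, v a * β a = 0) :
    ∃ a b : Ω, ∃ p : ℝ, 0 ≤ p ∧ p ≤ 1 ∧ 0 ≤ p * α a + (1 - p) * α b ∧
      0 ≤ p * β a + (1 - p) * β b := by
  classical
  by_contra hcon
  push Not at hcon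
  have h1 : ∀ c, 0 ≤ α c → β c < 0 := by
    intro c hc
    have := hcon c c 1 zero_le_one le_rfl (by linarith)
    linarith
  have h2 : ∀ a b, α a ≤ 0 → 0 < α b → α b * β a - α a * β b < 0 := by
    intro a b ha hb
    have hd : 0 < α b - α a := by linarith
    have hp0 : 0 ≤ α b / (α b - α a) := by positivity
    have hp1 : α b / (α b - α a) ≤ 1 := by rw [div_le_one hd]; linarith
    have e : 1 - α b / (α b - α a) = -α a / (α b - α a) := by field_simp; ring
    have := hcon a b (α b / (α b - α a)) hp0 hp1 (by
      rw [e]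
      have : α b / (α b - α a) * α a + -α a / (α b - α a) * α b = 0 := by field_simp; ring
      rw [this])
    rw [e] at this
    have e2 : α b / (α b - α a) * β a + -α a / (α b - α a) * β b
        = (α b * β a - α a * β b) / (α b - α a) := by ring
    rw [e2] at this
    by_contra hc
    push Not at hc
    have := div_nonneg hc hd.le
    linarith
  obtain ⟨c0, _, hc0⟩ : ∃ c ∈ (univ : Finset Ω), 0 < v c := by
    apply Finset.exists_lt_of_sum_lt
    simp [hv1]
  by_cases hS : ∃ b, 0 < α b
  · -- choose the best slope
    obtain ⟨b1, hb1⟩ := hS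
    have hne : (univ.filter fun b => 0 < α b).Nonempty := ⟨b1, by simp [hb1]⟩
    obtain ⟨b0, hb0, hmax⟩ := Finset.exists_max_image _ (fun b => β b / α b) hne
    have hb0' : 0 < α b0 := by simpa using hb0
    set m := β b0 / α b0 with hm
    have hle : ∀ c, β c ≤ m * α c := by
      intro c
      rcases lt_or_ge 0 (α c) with hc | hc
      · have := hmax c (by simp [hc])
        rwa [div_le_iff₀ hc] at this
      · have := h2 c b0 hc hb0'
        have e : m * α c = α c * β b0 / α b0 := by rw [hm]; ring
        rw [e, le_div_iff₀ hb0']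
        linarith
    have hlt : ∀ c, α c ≤ 0 → β c < m * α c := by
      intro c hc
      have := h2 c b0 hc hb0'
      have e : m * α c = α c * β b0 / α b0 := by rw [hm]; ring
      rw [e, lt_div_iff₀ hb0']
      linarith
    obtain ⟨a0, ha0v, ha0⟩ : ∃ a, 0 < v a ∧ α a ≤ 0 := by
      by_contra hno
      push Not at hno
      have h3 : 0 < ∑ a, v a * α a := by
        apply Finset.sum_pos'
        · intro a _
          rcases (hv a).lt_or_eq with h | h
          · exact (mul_pos h (hno a h)).le
          · rw [← h]; simp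
        · exact ⟨c0, mem_univ _, mul_pos hc0 (hno c0 hc0)⟩
      linarith
    have h4 : ∑ a, v a * β a < ∑ a, v a * (m * α a) := by
      apply Finset.sum_lt_sum
      · intro a _
        exact mul_le_mul_of_nonneg_left (hle a) (hv a)
      · exact ⟨a0, mem_univ _, mul_lt_mul_of_pos_left (hlt a0 ha0) ha0v⟩
    have h5 : ∑ a, v a * (m * α a) = m * ∑ a, v a * α a := by
      rw [Finset.mul_sum]
      apply Finset.sum_congr rfl
      intro a _; ring
    rw [h5, hα, hβ] at h4
    simp at h4
  · push Not at hS
    have h3 : ∀ a ∈ (univ : Finset Ω), v a * α a = 0 := by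
      rw [← Finset.sum_eq_zero_iff_of_nonpos]
      · exact hα
      · intro a _
        exact mul_nonpos_of_nonneg_of_nonpos (hv a) (hS a)
    have h4 : ∑ a, v a * β a < ∑ _a : Ω, (0 : ℝ) := by
      apply Finset.sum_lt_sum
      · intro a _
        rcases mul_eq_zero.mp (h3 a (mem_univ _)) with h | h
        · rw [h]; simp
        · exact mul_nonpos_of_nonneg_of_nonpos (hv a) (h1 a h.ge).le
      · refine ⟨c0, mem_univ _, ?_⟩
        rcases mul_eq_zero.mp (h3 c0 (mem_univ _)) with h | h
        · exact absurd h hc0.ne'
        · exact mul_neg_of_pos_of_neg hc0 (h1 c0 h.ge)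
    rw [hβ] at h4
    simp at h4

lemma two_point {Ω : Type} [Fintype Ω] [LinearOrder Ω] (v α β : Ω → ℝ) (hv : ∀ a, 0 ≤ v a)
    (hv1 : ∑ a, v a = 1) :
    ∃ a b : Ω, a ≤ b ∧ ∃ p : ℝ, 0 ≤ p ∧ p ≤ 1 ∧ ∑ c, v c * α c ≤ p * α a + (1 - p) * α b ∧
      ∑ c, v c * β c ≤ p * β a + (1 - p) * β b := by
  set Oα := ∑ c, v c * α c with hOα
  set Oβ := ∑ c, v c * β c with hOβ
  obtain ⟨a, b, p, hp0, hp1, e1, e2⟩ := two_point_aux v (fun c => α c - Oα) (fun c => β c - Oβ)
    hv hv1
    (by
      simp only [mul_sub]
      rw [Finset.sum_sub_distrib, ← Finset.sum_mul, hv1, ← hOα]; ring)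
    (by
      simp only [mul_sub]
      rw [Finset.sum_sub_distrib, ← Finset.sum_mul, hv1, ← hOβ]; ring)
  have e1' : Oα ≤ p * α a + (1 - p) * α b := by linarith
  have e2' : Oβ ≤ p * β a + (1 - p) * β b := by linarith
  rcases le_total a b with hab | hab
  · exact ⟨a, b, hab, p, hp0, hp1, e1', e2'⟩
  · exact ⟨b, a, hab, 1 - p, by linarith, by linarith, by linarith, by linarith⟩

/-- two-point weights. -/
noncomputable def tp {Ω : Type} [DecidableEq Ω] (a b : Ω) (p : ℝ) (x : Ω) : ℝ :=
  (if x = a then p else 0) + (if x = b then 1 - p else 0)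

lemma sum_tp_mul {Ω : Type} [Fintype Ω] [DecidableEq Ω] (a b : Ω) (p : ℝ) (f : Ω → ℝ) :
    ∑ x, tp a b p x * f x = p * f a + (1 - p) * f b := by
  unfold tp
  simp only [add_mul, ite_mul, zero_mul]
  rw [Finset.sum_add_distrib]
  simp

lemma sum_tp {Ω : Type} [Fintype Ω] [DecidableEq Ω] (a b : Ω) (p : ℝ) :
    ∑ x, tp a b p x = 1 := by
  have := sum_tp_mul a b p (fun _ => 1)
  simp only [mul_one] at this
  rw [this]; ring

lemma tp_nonneg {Ω : Type} [DecidableEq Ω] (a b : Ω) {p : ℝ} (h0 : 0 ≤ p) (h1 : p ≤ 1) (x : Ω) :
    0 ≤ tp a b p x := by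
  unfold tp
  split_ifs <;> linarith

/-- all coordinates can be made two-point. -/
lemma reduce_two_point {r : ℕ} {Ω : Type} [Fintype Ω] [LinearOrder Ω] (w : Fin r → Ω → ℝ)
    (hw0 : ∀ i a, 0 ≤ w i a) (hw1 : ∀ i, ∑ a, w i a = 1) (f g : (Fin r → Ω) → ℝ)
    (I : Finset (Fin r)) :
    ∃ w' : Fin r → Ω → ℝ, (∀ i a, 0 ≤ w' i a) ∧ (∀ i, ∑ a, w' i a = 1) ∧
      (∀ i ∈ I, ∃ a b : Ω, a ≤ b ∧ ∃ p : ℝ, 0 ≤ p ∧ p ≤ 1 ∧ w' i = tp a b p) ∧
      E w f ≤ E w' f ∧ E w g ≤ E w' g := by
  classical
  induction I using Finset.induction_on with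
  | empty => exact ⟨w, hw0, hw1, fun i hi => absurd hi (Finset.notMem_empty i), le_rfl, le_rfl⟩
  | insert i I hi ih =>
    obtain ⟨w', h0, h1, h2, hf, hg⟩ := ih
    obtain ⟨a, b, hab, p, hp0, hp1, e1, e2⟩ := two_point (w' i)
      (fun c => E w' (fun x => f (update x i c))) (fun c => E w' (fun x => g (update x i c)))
      (h0 i) (h1 i)
    refine ⟨update w' i (tp a b p), ?_, ?_, ?_, ?_, ?_⟩
    · intro j c
      by_cases hj : j = i
      · subst hj; rw [update_self]; exact tp_nonneg a b hp0 hp1 c
      · rw [update_of_ne hj]; exact h0 j c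
    · intro j
      by_cases hj : j = i
      · subst hj; rw [update_self]; exact sum_tp a b p
      · rw [update_of_ne hj]; exact h1 j
    · intro j hj
      by_cases hji : j = i
      · subst hji; rw [update_self]; exact ⟨a, b, hab, p, hp0, hp1, rfl⟩
      · rw [update_of_ne hji]
        rcases Finset.mem_insert.mp hj with h | h
        · exact absurd h hji
        · exact h2 j h
    · rw [E_update w' i (tp a b p) f (h1 i), sum_tp_mul a b p]
      refine hf.trans (le_trans (le_of_eq (E_split w' i f (h1 i))) e1)
    · rw [E_update w' i (tp a b p) g (h1 i), sum_tp_mul a b p]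
      refine hg.trans (le_trans (le_of_eq (E_split w' i g (h1 i))) e2)

/-- expectation with two-point weights is an expectation over the cube. -/
lemma E_tp {r : ℕ} {Ω : Type} [Fintype Ω] [DecidableEq Ω] (a b : Fin r → Ω) (p : Fin r → ℝ)
    (f : (Fin r → Ω) → ℝ) :
    E (fun i => tp (a i) (b i) (p i)) f
      = E (fun i => wt (p i)) (fun z => f (fun i => if z i then a i else b i)) := by
  unfold E
  have h1 : ∀ x : Fin r → Ω, (∏ i, tp (a i) (b i) (p i) (x i))
      = ∑ z : Fin r → Bool, (∏ i, wt (p i) (z i))
          * (if x = (fun i => if z i then a i else b i) then 1 else 0) := by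
    intro x
    have h2 : ∀ i, tp (a i) (b i) (p i) (x i)
        = ∑ z : Bool, wt (p i) z * (if x i = (if z then a i else b i) then 1 else 0) := by
      intro i
      rw [Fintype.sum_bool]
      unfold tp
      simp
    calc (∏ i, tp (a i) (b i) (p i) (x i))
        = ∏ i, ∑ z : Bool, wt (p i) z * (if x i = (if z then a i else b i) then 1 else 0) :=
          Finset.prod_congr rfl (fun i _ => h2 i)
      _ = ∑ z : Fin r → Bool, ∏ i, (wt (p i) (z i)
            * (if x i = (if z i then a i else b i) then 1 else 0)) :=
          Fintype.prod_sum _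
      _ = _ := by
          apply Finset.sum_congr rfl
          intro z _
          rw [Finset.prod_mul_distrib]
          congr 1
          rw [Finset.prod_ite_zero]
          simp only [Finset.prod_const_one, mem_univ, true_imp_iff]
          by_cases hx : x = (fun i => if z i then a i else b i)
          · rw [if_pos hx, if_pos]
            intro i; rw [hx]
          · rw [if_neg hx, if_neg]
            intro hall
            exact hx (funext hall)
  calc ∑ x : Fin r → Ω, (∏ i, tp (a i) (b i) (p i) (x i)) * f x
      = ∑ x : Fin r → Ω, ∑ z : Fin r → Bool, (∏ i, wt (p i) (z i))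
          * ((if x = (fun i => if z i then a i else b i) then 1 else 0) * f x) := by
        apply Finset.sum_congr rfl
        intro x _
        rw [h1, Finset.sum_mul]
        apply Finset.sum_congr rfl
        intro z _
        ring
    _ = ∑ z : Fin r → Bool, ∑ x : Fin r → Ω, (∏ i, wt (p i) (z i))
          * ((if x = (fun i => if z i then a i else b i) then 1 else 0) * f x) :=
        Finset.sum_comm
    _ = _ := by
        apply Finset.sum_congr rfl
        intro z _
        rw [← Finset.mul_sum]
        congr 1
        simp only [ite_mul, one_mul, zero_mul]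
        rw [Finset.sum_ite_eq' univ]
        simp

/-! ### compression -/

section compression

variable {r n : ℕ}

open Classical in
/-- number of letters of the fibre in `A`. -/
noncomputable def fib (i : Fin r) (A : Set (Fin r → Fin n)) (x : Fin r → Fin n) : ℕ :=
  (univ.filter fun u => update x i u ∈ A).card

lemma fib_update (i : Fin r) (A : Set (Fin r → Fin n)) (x : Fin r → Fin n) (u : Fin n) :
    fib i A (update x i u) = fib i A x := by
  classical
  unfold fib
  congr 1
  ext v
  simp only [mem_filter, mem_univ, true_and]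
  rw [update_idem]

lemma fib_le (i : Fin r) (A : Set (Fin r → Fin n)) (x : Fin r → Fin n) : fib i A x ≤ n := by
  classical
  unfold fib
  calc _ ≤ (univ : Finset (Fin n)).card := Finset.card_filter_le _ _
    _ = n := by simp

/-- downwards compression -/
def dn (i : Fin r) (A : Set (Fin r → Fin n)) : Set (Fin r → Fin n) :=
  {x | (x i).val < fib i A x}

/-- upwards compression -/
def upc (i : Fin r) (A : Set (Fin r → Fin n)) : Set (Fin r → Fin n) :=
  {x | n ≤ (x i).val + fib i A x}

lemma mem_dn {i : Fin r} {A : Set (Fin r → Fin n)} {x : Fin r → Fin n} :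
    x ∈ dn i A ↔ (x i).val < fib i A x := Iff.rfl

lemma mem_upc {i : Fin r} {A : Set (Fin r → Fin n)} {x : Fin r → Fin n} :
    x ∈ upc i A ↔ n ≤ (x i).val + fib i A x := Iff.rfl

lemma fib_dn (i : Fin r) (A : Set (Fin r → Fin n)) (x : Fin r → Fin n) :
    fib i (dn i A) x = fib i A x := by
  classical
  have h : fib i (dn i A) x = (univ.filter fun u : Fin n => u.val < fib i A x).card := by
    unfold fib
    congr 1
    ext u
    simp only [mem_filter, mem_univ, true_and]
    show (update x i u i).val < fib i A (update x i u) ↔ _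
    rw [fib_update, update_self]
    rfl
  rw [h, Fin.card_filter_val_lt]
  have := fib_le i A x
  omega

lemma fib_upc (i : Fin r) (A : Set (Fin r → Fin n)) (x : Fin r → Fin n) :
    fib i (upc i A) x = fib i A x := by
  classical
  have hle := fib_le i A x
  have h : fib i (upc i A) x = (univ.filter fun u : Fin n => n ≤ u.val + fib i A x).card := by
    unfold fib
    congr 1
    ext u
    simp only [mem_filter, mem_univ, true_and]
    show n ≤ (update x i u i).val + fib i A (update x i u) ↔ _
    rw [fib_update, update_self]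
    rfl
  have h2 : (univ.filter fun u : Fin n => n ≤ u.val + fib i A x)
      = univ \ (univ.filter fun u : Fin n => u.val < n - fib i A x) := by
    ext u
    simp only [mem_filter, mem_univ, true_and, mem_sdiff]
    omega
  rw [h, h2, Finset.card_sdiff_of_subset (Finset.subset_univ _), Fin.card_filter_val_lt]
  simp only [Finset.card_univ, Fintype.card_fin]
  omega

/-- uniform weights -/
noncomputable def un (r n : ℕ) : Fin r → Fin n → ℝ := fun _ _ => 1 / n

lemma sum_un (hn : 0 < n) (i : Fin r) : ∑ a : Fin n, un r n i a = 1 := by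
  have hn' : (n : ℝ) ≠ 0 := by positivity
  unfold un
  simp [hn']

lemma E_un_eq (hn : 0 < n) (i : Fin r) (A : Set (Fin r → Fin n)) :
    E (un r n) (A.indicator (fun _ => 1)) = E (un r n) (fun x => (fib i A x : ℝ) / n) := by
  classical
  rw [E_split (un r n) i _ (sum_un hn i)]
  unfold E
  simp only [Finset.mul_sum]
  rw [Finset.sum_comm]
  apply Finset.sum_congr rfl
  intro x _
  have h1 : (fib i A x : ℝ) = ∑ a : Fin n, A.indicator (fun _ => (1:ℝ)) (update x i a) := by
    unfold fib
    simp only [Set.indicator_apply]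
    rw [Finset.sum_boole]
  rw [h1, Finset.sum_div, Finset.mul_sum]
  apply Finset.sum_congr rfl
  intro a _
  unfold un
  ring

lemma E_dn (hn : 0 < n) (i : Fin r) (A : Set (Fin r → Fin n)) :
    E (un r n) ((dn i A).indicator (fun _ => 1)) = E (un r n) (A.indicator (fun _ => 1)) := by
  rw [E_un_eq hn i, E_un_eq hn i A]
  simp only [fib_dn]

lemma E_upc (hn : 0 < n) (i : Fin r) (A : Set (Fin r → Fin n)) :
    E (un r n) ((upc i A).indicator (fun _ => 1)) = E (un r n) (A.indicator (fun _ => 1)) := by
  rw [E_un_eq hn i, E_un_eq hn i A]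
  simp only [fib_upc]

lemma hd_split (i : Fin r) (x y : Fin r → Fin n) :
    hd x y = (if x i = y i then 0 else 1) + ∑ k ∈ univ.erase i, if x k = y k then 0 else 1 := by
  unfold hd
  exact (Finset.add_sum_erase univ (fun k => if x k = y k then 0 else 1) (mem_univ i)).symm

lemma hd_update (i : Fin r) (x y : Fin r → Fin n) (u v : Fin n) :
    hd (update x i u) (update y i v)
      = (if u = v then 0 else 1) + ∑ k ∈ univ.erase i, if x k = y k then 0 else 1 := by
  rw [hd_split i]
  simp only [update_self]
  congr 1
  apply Finset.sum_congr rfl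
  intro k hk
  rw [update_of_ne (Finset.ne_of_mem_erase hk), update_of_ne (Finset.ne_of_mem_erase hk)]

lemma far_compress {s : ℕ} (i : Fin r) {A B : Set (Fin r → Fin n)}
    (h : ∀ x ∈ A, ∀ y ∈ B, s ≤ hd x y) : ∀ x ∈ dn i A, ∀ y ∈ upc i B, s ≤ hd x y := by
  classical
  intro x hx y hy
  rw [mem_dn] at hx
  rw [mem_upc] at hy
  have hyn : (y i).val < n := (y i).isLt
  by_cases hxy : x i = y i
  · -- a common letter
    have hex : ∃ u, update x i u ∈ A ∧ update y i u ∈ B := by
      by_contra hcon
      push Not at hcon
      have hdisj : Disjoint (univ.filter fun u => update x i u ∈ A)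
          (univ.filter fun u => update y i u ∈ B) := by
        rw [Finset.disjoint_left]
        intro u hu hu'
        simp only [mem_filter, mem_univ, true_and] at hu hu'
        exact hcon u hu hu'
      have hc := Finset.card_union_of_disjoint hdisj
      have hle : ((univ.filter fun u => update x i u ∈ A) ∪
          (univ.filter fun u => update y i u ∈ B)).card ≤ n := by
        calc _ ≤ (univ : Finset (Fin n)).card := Finset.card_le_card (Finset.subset_univ _)
          _ = n := by simp
      have e1 : (univ.filter fun u => update x i u ∈ A).card = fib i A x := rfl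
      have e2 : (univ.filter fun u => update y i u ∈ B).card = fib i B y := rfl
      rw [hxy] at hx
      omega
    obtain ⟨u, hu, hu'⟩ := hex
    have h1 := h _ hu _ hu'
    rw [hd_update] at h1
    rw [hd_split i]
    simpa [hxy] using h1
  · have hex1 : ∃ u, update x i u ∈ A := by
      by_contra hcon
      push Not at hcon
      have : fib i A x = 0 := by
        unfold fib
        rw [Finset.card_eq_zero, Finset.filter_eq_empty_iff]
        intro u _; exact hcon u
      omega
    have hex2 : ∃ u, update y i u ∈ B := by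
      by_contra hcon
      push Not at hcon
      have : fib i B y = 0 := by
        unfold fib
        rw [Finset.card_eq_zero, Finset.filter_eq_empty_iff]
        intro u _; exact hcon u
      omega
    obtain ⟨u, hu⟩ := hex1
    obtain ⟨v, hv⟩ := hex2
    have h1 := h _ hu _ hv
    rw [hd_update] at h1
    rw [hd_split i, if_neg hxy]
    split_ifs at h1 <;> omega

/-- closed downwards in the coordinates of `I` -/
def DownIn (I : Finset (Fin r)) (A : Set (Fin r → Fin n)) : Prop :=
  ∀ x ∈ A, ∀ i ∈ I, ∀ u, u ≤ x i → update x i u ∈ A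

/-- closed upwards in the coordinates of `I` -/
def UpIn (I : Finset (Fin r)) (A : Set (Fin r → Fin n)) : Prop :=
  ∀ x ∈ A, ∀ i ∈ I, ∀ u, x i ≤ u → update x i u ∈ A

lemma downIn_insert {I : Finset (Fin r)} {i : Fin r} (hi : i ∉ I) {A : Set (Fin r → Fin n)}
    (h : DownIn I A) : DownIn (insert i I) (dn i A) := by
  classical
  intro x hx j hj u hu
  rw [mem_dn] at hx ⊢
  rcases Finset.mem_insert.mp hj with hji | hjI
  · subst hji
    rw [fib_update, update_self]
    exact lt_of_le_of_lt hu hx
  · have hne : i ≠ j := fun hij => hi (hij ▸ hjI)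
    rw [update_of_ne hne]
    refine lt_of_lt_of_le hx ?_
    unfold fib
    apply Finset.card_le_card
    intro a ha
    simp only [mem_filter, mem_univ, true_and] at ha ⊢
    rw [update_comm hne.symm]
    apply h _ ha j hjI
    rw [update_of_ne hne.symm]
    exact hu

lemma upIn_insert {I : Finset (Fin r)} {i : Fin r} (hi : i ∉ I) {A : Set (Fin r → Fin n)}
    (h : UpIn I A) : UpIn (insert i I) (upc i A) := by
  classical
  intro x hx j hj u hu
  rw [mem_upc] at hx ⊢
  rcases Finset.mem_insert.mp hj with hji | hjI
  · subst hji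
    rw [fib_update, update_self]
    have : (x j).val ≤ u.val := hu
    omega
  · have hne : i ≠ j := fun hij => hi (hij ▸ hjI)
    rw [update_of_ne hne]
    refine le_trans hx (Nat.add_le_add_left ?_ _)
    unfold fib
    apply Finset.card_le_card
    intro a ha
    simp only [mem_filter, mem_univ, true_and] at ha ⊢
    rw [update_comm hne.symm]
    apply h _ ha j hjI
    rw [update_of_ne hne.symm]
    exact hu

lemma compress_all (hn : 0 < n) {s : ℕ} (A B : Set (Fin r → Fin n))
    (h : ∀ x ∈ A, ∀ y ∈ B, s ≤ hd x y) (I : Finset (Fin r)) :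
    ∃ A' B' : Set (Fin r → Fin n), (∀ x ∈ A', ∀ y ∈ B', s ≤ hd x y) ∧ DownIn I A' ∧ UpIn I B' ∧
      E (un r n) (A'.indicator (fun _ => 1)) = E (un r n) (A.indicator (fun _ => 1)) ∧
      E (un r n) (B'.indicator (fun _ => 1)) = E (un r n) (B.indicator (fun _ => 1)) := by
  classical
  induction I using Finset.induction_on with
  | empty =>
    exact ⟨A, B, h, fun x _ i hi => absurd hi (Finset.notMem_empty i),
      fun x _ i hi => absurd hi (Finset.notMem_empty i), rfl, rfl⟩
  | insert i I hi ih =>
    obtain ⟨A', B', h1, h2, h3, h4, h5⟩ := ih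
    exact ⟨dn i A', upc i B', far_compress i h1, downIn_insert hi h2, upIn_insert hi h3,
      (E_dn hn i A').trans h4, (E_upc hn i B').trans h5⟩

lemma downIn_lower {A : Set (Fin r → Fin n)} (h : DownIn univ A) {x y : Fin r → Fin n}
    (hx : x ∈ A) (hyx : ∀ i, y i ≤ x i) : y ∈ A := by
  classical
  have key : ∀ I : Finset (Fin r), (fun i => if i ∈ I then y i else x i) ∈ A := by
    intro I
    induction I using Finset.induction_on with
    | empty => simpa using hx
    | insert i I hi ih =>
      have := h _ ih i (mem_univ i) (y i) (by simp only [if_neg hi]; exact hyx i)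
      have e : update (fun j => if j ∈ I then y j else x j) i (y i)
          = fun j => if j ∈ insert i I then y j else x j := by
        funext j
        by_cases hj : j = i
        · subst hj; simp
        · rw [update_of_ne hj]; simp [hj]
      rwa [e] at this
  have := key univ
  simpa using this

lemma upIn_upper {A : Set (Fin r → Fin n)} (h : UpIn univ A) {x y : Fin r → Fin n}
    (hx : x ∈ A) (hyx : ∀ i, x i ≤ y i) : y ∈ A := by
  classical
  have key : ∀ I : Finset (Fin r), (fun i => if i ∈ I then y i else x i) ∈ A := by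
    intro I
    induction I using Finset.induction_on with
    | empty => simpa using hx
    | insert i I hi ih =>
      have := h _ ih i (mem_univ i) (y i) (by simp only [if_neg hi]; exact hyx i)
      have e : update (fun j => if j ∈ I then y j else x j) i (y i)
          = fun j => if j ∈ insert i I then y j else x j := by
        funext j
        by_cases hj : j = i
        · subst hj; simp
        · rw [update_of_ne hj]; simp [hj]
      rwa [e] at this
  have := key univ
  simpa using this

lemma bool_not_le : ¬ (true ≤ false) := by decide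

/-- **Product space theorem.** -/
theorem product_bound (hn : 0 < n) {s : ℕ} {V : ℝ} (hV : Bnd s r V) (A B : Set (Fin r → Fin n))
    (h : ∀ x ∈ A, ∀ y ∈ B, s ≤ hd x y) :
    E (un r n) (A.indicator (fun _ => 1)) * E (un r n) (B.indicator (fun _ => 1)) ≤ V := by
  classical
  obtain ⟨A', B', h1, h2, h3, h4, h5⟩ := compress_all hn A B h univ
  rw [← h4, ← h5]
  have hun0 : ∀ (i : Fin r) (a : Fin n), 0 ≤ un r n i a := by
    intro i a; unfold un; positivity
  obtain ⟨w', w0, w1, w2, hf, hg⟩ := reduce_two_point (un r n) hun0 (fun i => sum_un hn i)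
    (A'.indicator (fun _ => 1)) (B'.indicator (fun _ => 1)) univ
  choose a b hab p hp0 hp1 hw using w2
  set a' : Fin r → Fin n := fun i => a i (mem_univ i) with ha'
  set b' : Fin r → Fin n := fun i => b i (mem_univ i) with hb'
  set p' : Fin r → ℝ := fun i => p i (mem_univ i) with hp'
  have hw' : w' = fun i => tp (a' i) (b' i) (p' i) := by
    funext i
    exact hw i (mem_univ i)
  have hA0 : 0 ≤ E (un r n) (A'.indicator (fun _ => 1)) :=
    E_nonneg _ hun0 _ (fun x => Set.indicator_nonneg (fun _ _ => zero_le_one) x)
  have hB0 : 0 ≤ E w' (B'.indicator (fun _ => 1)) :=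
    E_nonneg _ w0 _ (fun x => Set.indicator_nonneg (fun _ _ => zero_le_one) x)
  have hB00 : 0 ≤ E (un r n) (B'.indicator (fun _ => 1)) :=
    E_nonneg _ hun0 _ (fun x => Set.indicator_nonneg (fun _ _ => zero_le_one) x)
  have step1 : E (un r n) (A'.indicator (fun _ => 1)) * E (un r n) (B'.indicator (fun _ => 1))
      ≤ E w' (A'.indicator (fun _ => 1)) * E w' (B'.indicator (fun _ => 1)) :=
    mul_le_mul hf hg hB00 (hA0.trans hf)
  refine step1.trans ?_
  let c : (Fin r → Bool) → (Fin r → Fin n) := fun z i => if z i then a' i else b' i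
  have eA : E w' (A'.indicator (fun _ => 1)) = mu p' (c ⁻¹' A') := by
    rw [hw', E_tp]
    rfl
  have eB : E w' (B'.indicator (fun _ => 1)) = mu p' (c ⁻¹' B') := by
    rw [hw', E_tp]
    rfl
  rw [eA, eB]
  have hanti : ∀ z z' : Fin r → Bool, z ≤ z' → ∀ i, c z' i ≤ c z i := by
    intro z z' hz i
    show (if z' i then a' i else b' i) ≤ (if z i then a' i else b' i)
    have hzi := hz i
    have hle : a' i ≤ b' i := hab i (mem_univ i)
    cases hz1 : z i with
    | true =>
      rw [hz1] at hzi
      have : z' i = true := by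
        cases hz2 : z' i with
        | true => rfl
        | false => rw [hz2] at hzi; exact absurd hzi bool_not_le
      rw [this]
    | false =>
      cases hz2 : z' i with
      | true => simpa using hle
      | false => exact le_rfl
  refine hV (c ⁻¹' A') (c ⁻¹' B') p' ⟨?_, ?_, ?_⟩ (fun i => hp0 i _) (fun i => hp1 i _)
  · intro z hz z' hzz'
    exact downIn_lower h2 hz (hanti z z' hzz')
  · intro z hz z' hzz'
    exact upIn_upper h3 hz (hanti z' z hzz')
  · intro z hz z' hz'
    refine (h1 _ hz _ hz').trans ?_
    unfold hd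
    apply Finset.sum_le_sum
    intro i _
    by_cases hzi : z i = z' i
    · have : c z i = c z' i := by
        show (if z i then a' i else b' i) = (if z' i then a' i else b' i)
        rw [hzi]
      rw [if_pos this]; exact Nat.zero_le _
    · rw [if_neg hzi]
      split_ifs <;> omega

/-- finite set version. -/
theorem card_bound (hn : 0 < n) {s : ℕ} {V : ℝ} (hV : Bnd s r V)
    (A B : Finset (Fin r → Fin n)) (h : ∀ x ∈ A, ∀ y ∈ B, s ≤ hd x y) :
    (A.card : ℝ) * B.card ≤ V * (n : ℝ) ^ (2 * r) := by
  classical
  have hn' : (0 : ℝ) < n := by exact_mod_cast hn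
  have key : ∀ S : Finset (Fin r → Fin n),
      E (un r n) ((S : Set (Fin r → Fin n)).indicator (fun _ => 1)) = S.card / (n : ℝ) ^ r := by
    intro S
    unfold E un
    simp only [Finset.prod_const, Finset.card_univ, Fintype.card_fin]
    rw [← Finset.mul_sum]
    have : ∑ x : Fin r → Fin n, (S : Set (Fin r → Fin n)).indicator (fun _ => (1:ℝ)) x
        = S.card := by
      simp only [Set.indicator_apply, Finset.mem_coe]
      rw [Finset.sum_boole]
      congr 2
      ext x; simp
    rw [this, div_pow, one_pow, one_div, inv_mul_eq_div]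
  have := product_bound hn hV (A : Set (Fin r → Fin n)) (B : Set (Fin r → Fin n))
    (by intro x hx y hy; exact h x hx y hy)
  rw [key, key, div_mul_div_comm, ← pow_add, div_le_iff₀ (by positivity)] at this
  rw [two_mul]
  exact this

end compression

end Pool.Agent.Y161.Cx
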